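import Pool.Agent.CZH.Defs

/-!
# CZH/Basic: elementary facts on CAT(0) sets

## Proofs
`C0.uniq`: `cmp` with `p = m'` : `d(m',m)² ≤ (1-t)(t D)² + t((1-t)D)² - t(1-t)D² = 0`, `D = d x y`.
`C0.tri_ratio` (triangle `x; y, y'`, `m` on `[x,y]`, `n` on `[x,y']`, both at parameter `t`): `cmp` twice
(`p = n`, side `[x,y]`; `p = y`, side `[x,y']`):
`d(n,m)² ≤ (1-t)(t b)² + t((1-t)c² + t a² - t(1-t)b²) - t(1-t)c² = t² a²`, `b = d x y'`, `c = d x y`,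
`a = d y y'`.
`C0.dist_ratio`: choose `n` on `[x, y']` at parameter `t` (`geo`); `d(m,n) ≤ t d(y,y')` by `tri_ratio`,
`d(n,m') ≤ (1-t) d(x,x')` by `tri_ratio` from the vertex `y'` (`n` is at parameter `1-t` from `y'` on
`[y', x]`, `m'` at parameter `1-t` on `[y', x']`; use `Btw.symm`).
`Cvx.Nb`: `x, y ∈ Nb ρ A` with `a, b ∈ A`; `m` on `[x,y]`, `n` on `[a,b]` at the same parameter, `n ∈ A`,
`dist m n ≤ (1-t)ρ + tρ = ρ`.
`C0.mono`-type facts are easy.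
-/

namespace CZH

universe u

open Set

theorem Btw.symm' {W : Type u} {d : W → W → ℝ} {x m y : W} {t : ℝ} (h : Btw d x m y t)
    (h1 : d m x = d x m) (h2 : d y m = d m y) (h3 : d y x = d x y) : Btw d y m x (1 - t) := by
  obtain ⟨a, b⟩ := h
  refine ⟨?_, ?_⟩
  · rw [h2, h3, b]
  · rw [h1, h3, a]; ring

theorem Btw.symm {X : Type u} [MetricSpace X] {x m y : X} {t : ℝ} (h : Btw (dst X) x m y t) :
    Btw (dst X) y m x (1 - t) :=
  h.symm' (dist_comm _ _) (dist_comm _ _) (dist_comm _ _)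

theorem C0.uniq {W : Type u} {d : W → W → ℝ} {S : Set W} (h : C0 d S) {x y m m' : W} {t : ℝ}
    (hx : x ∈ S) (hy : y ∈ S) (hm : m ∈ S) (hm' : m' ∈ S) (ht0 : 0 ≤ t) (ht1 : t ≤ 1)
    (h1 : Btw d x m y t) (h2 : Btw d x m' y t) : d m m' = 0 := by
  have h3 := h.cmp m' hm' x hx y hy m hm t ht0 ht1 h1
  rw [h.comm m' hm' x hx, h2.1, h2.2] at h3
  have h4 : d m' m ^ 2 ≤ 0 := by
    refine h3.trans (le_of_eq ?_)
    ring
  have h5 : d m' m = 0 := by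
    have := sq_nonneg (d m' m)
    exact pow_eq_zero_iff (two_ne_zero) |>.1 (le_antisymm h4 this)
  rw [h.comm m hm m' hm', h5]

theorem C0.tri_ratio {W : Type u} {d : W → W → ℝ} {S : Set W} (h : C0 d S) {x y y' m n : W}
    {t : ℝ} (hx : x ∈ S) (hy : y ∈ S) (hy' : y' ∈ S) (hm : m ∈ S) (hn : n ∈ S) (ht0 : 0 ≤ t)
    (ht1 : t ≤ 1) (h1 : Btw d x m y t) (h2 : Btw d x n y' t) : d m n ≤ t * d y y' := by
  have h3 := h.cmp n hn x hx y hy m hm t ht0 ht1 h1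
  have h4 := h.cmp y hy x hx y' hy' n hn t ht0 ht1 h2
  rw [h.comm n hn x hx, h2.1, h.comm n hn y hy] at h3
  rw [h.comm y hy x hx] at h4
  rw [h.comm m hm n hn]
  have h5 : d n m ^ 2 ≤ (t * d y y') ^ 2 := by
    have h6 := mul_le_mul_of_nonneg_left h4 ht0
    refine h3.trans ?_
    nlinarith
  exact le_of_sq_le_sq h5 (mul_nonneg ht0 (h.nn y hy y' hy'))

theorem C0.dist_ratio {W : Type u} {d : W → W → ℝ} {S : Set W} (h : C0 d S) {x y x' y' m m' : W}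
    {t : ℝ} (hx : x ∈ S) (hy : y ∈ S) (hx' : x' ∈ S) (hy' : y' ∈ S) (hm : m ∈ S) (hm' : m' ∈ S)
    (ht0 : 0 ≤ t) (ht1 : t ≤ 1) (h1 : Btw d x m y t) (h2 : Btw d x' m' y' t) :
    d m m' ≤ (1 - t) * d x x' + t * d y y' := by
  obtain ⟨n, hn, hb⟩ := h.geo x hx y' hy' t ht0 ht1
  have h3 := h.tri_ratio hx hy hy' hm hn ht0 ht1 h1 hb
  have hb' := hb.symm' (h.comm n hn x hx) (h.comm y' hy' n hn) (h.comm y' hy' x hx)
  have h2' := h2.symm' (h.comm m' hm' x' hx') (h.comm y' hy' m' hm') (h.comm y' hy' x' hx')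
  have h4 := h.tri_ratio hy' hx hx' hn hm' (by linarith) (by linarith) hb' h2'
  have h5 := h.tri m hm n hn m' hm'
  linarith

theorem Cvx.Nb {X : Type u} [MetricSpace X] (hX : C0 (dst X) univ) {A : Set X} (hA : Cvx A)
    (ρ : ℝ) : Cvx (Nb ρ A) := by
  rintro x ⟨a, ha, hxa⟩ y ⟨b, hb, hyb⟩ m t ht0 ht1 hm
  obtain ⟨n, _, hn⟩ := hX.geo a (mem_univ a) b (mem_univ b) t ht0 ht1
  refine ⟨n, hA a ha b hb n t ht0 ht1 hn, ?_⟩
  have h1 := hX.dist_ratio (mem_univ x) (mem_univ y) (mem_univ a) (mem_univ b) (mem_univ m)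
    (mem_univ n) ht0 ht1 hm hn
  have h2 : dist m n ≤ (1 - t) * dist x a + t * dist y b := h1
  have h3 := mul_le_mul_of_nonneg_left hxa (show 0 ≤ 1 - t by linarith)
  have h4 := mul_le_mul_of_nonneg_left hyb ht0
  linarith

/-- Transfer of the CAT(0) property along a distance preserving surjection. -/
theorem C0.transfer {W W' : Type u} {d : W → W → ℝ} {d' : W' → W' → ℝ} {S : Set W} {S' : Set W'}
    (f : W → W') (hf : ∀ w ∈ S, f w ∈ S') (hs : ∀ z ∈ S', ∃ w ∈ S, f w = z)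
    (hd : ∀ w ∈ S, ∀ w' ∈ S, d w w' = d' (f w) (f w')) (h : C0 d' S') : C0 d S where
  self := fun x hx => by rw [hd x hx x hx]; exact h.self _ (hf x hx)
  nn := fun x hx y hy => by rw [hd x hx y hy]; exact h.nn _ (hf x hx) _ (hf y hy)
  comm := fun x hx y hy => by
    rw [hd x hx y hy, hd y hy x hx]; exact h.comm _ (hf x hx) _ (hf y hy)
  tri := fun x hx y hy z hz => by
    rw [hd x hx y hy, hd y hy z hz, hd x hx z hz]
    exact h.tri _ (hf x hx) _ (hf y hy) _ (hf z hz)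
  geo := fun x hx y hy t ht0 ht1 => by
    obtain ⟨m', hm', hb⟩ := h.geo _ (hf x hx) _ (hf y hy) t ht0 ht1
    obtain ⟨m, hm, rfl⟩ := hs m' hm'
    refine ⟨m, hm, ?_, ?_⟩
    · rw [hd x hx m hm, hd x hx y hy]; exact hb.1
    · rw [hd m hm y hy, hd x hx y hy]; exact hb.2
  cmp := fun p hp x hx y hy m hm t ht0 ht1 hb => by
    obtain ⟨b1, b2⟩ := hb
    rw [hd x hx m hm, hd x hx y hy] at b1
    rw [hd m hm y hy, hd x hx y hy] at b2
    rw [hd p hp m hm, hd p hp x hx, hd p hp y hy, hd x hx y hy]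
    exact h.cmp _ (hf p hp) _ (hf x hx) _ (hf y hy) _ (hf m hm) t ht0 ht1 ⟨b1, b2⟩

/-- The image of a CAT(0) set under a distance preserving map is a CAT(0) set. -/
theorem C0.image {W W' : Type u} {d : W → W → ℝ} {d' : W' → W' → ℝ} {S : Set W}
    (f : W → W') (hd : ∀ w ∈ S, ∀ w' ∈ S, d' (f w) (f w') = d w w') (h : C0 d S) :
    C0 d' (f '' S) where
  self := by
    rintro _ ⟨x, hx, rfl⟩
    rw [hd x hx x hx]; exact h.self x hx
  nn := by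
    rintro _ ⟨x, hx, rfl⟩ _ ⟨y, hy, rfl⟩
    rw [hd x hx y hy]; exact h.nn x hx y hy
  comm := by
    rintro _ ⟨x, hx, rfl⟩ _ ⟨y, hy, rfl⟩
    rw [hd x hx y hy, hd y hy x hx]; exact h.comm x hx y hy
  tri := by
    rintro _ ⟨x, hx, rfl⟩ _ ⟨y, hy, rfl⟩ _ ⟨z, hz, rfl⟩
    rw [hd x hx y hy, hd y hy z hz, hd x hx z hz]
    exact h.tri x hx y hy z hz
  geo := by
    rintro _ ⟨x, hx, rfl⟩ _ ⟨y, hy, rfl⟩ t ht0 ht1
    obtain ⟨m, hm, hb⟩ := h.geo x hx y hy t ht0 ht1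
    refine ⟨f m, ⟨m, hm, rfl⟩, ?_, ?_⟩
    · rw [hd x hx m hm, hd x hx y hy]; exact hb.1
    · rw [hd m hm y hy, hd x hx y hy]; exact hb.2
  cmp := by
    rintro _ ⟨p, hp, rfl⟩ _ ⟨x, hx, rfl⟩ _ ⟨y, hy, rfl⟩ _ ⟨m, hm, rfl⟩ t ht0 ht1 ⟨b1, b2⟩
    rw [hd x hx m hm, hd x hx y hy] at b1
    rw [hd m hm y hy, hd x hx y hy] at b2
    rw [hd p hp m hm, hd p hp x hx, hd p hp y hy, hd x hx y hy]
    exact h.cmp p hp x hx y hy m hm t ht0 ht1 ⟨b1, b2⟩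

end CZH
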