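import Pool.Agent.CZH.Basic

/-!
# CZH/CCf: facts on convex cocompact sets

## Proofs
`CC.nb`: closed: `Nb ρ A = ⋃ x ∈ closure A, closedBall x ρ = cthickening ρ A`
(`Metric.cthickening_eq_biUnion_closedBall`, `A` closed) or directly; convex: `Cvx.Nb`; invariant: isometries;
cocompact: `K' = Nb ρ K ∩ Nb ρ A` ... take `K' = Nb ρ K` (closed and bounded, so compact, `K ⊆ A`): if
`dist x a ≤ ρ`, `a = φ h • k`, then `φ h⁻¹ • x ∈ Nb ρ K`.
`CC.smul`: transport by `φ g` (`y ∈ (φ g • ·) '' A`): the stabilizer of `g • e` is the conjugate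
`g (stabilizer e) g⁻¹`.  `φ g • ·` is a homeomorphism and preserves `Btw`.
`CC.inv_iff`: if `g • e = g' • e` then the two translates of `A` agree (`g⁻¹ g'` is in the stabilizer).
`exists_equivariant`: `P` is invariant.  For `e : E` let `e₀ = (Quotient.mk'' e : orbitRel.Quotient H E).out`
and choose `g e` with `g e • e₀ = e`; choose `A₀ e₀` by `hA` if `P e₀` holds; `F e = (φ (g e) • ·) '' A₀ e₀`.
For `h`: `(h • e)₀ = e₀`, and `g (h • e)`, `h g e` both send `e₀` to `h • e`, so the translates agree.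
`CC.pair`: let `S` be the stabilizer of `{a, b}`, `K` compact with `A = S K`. If every `h ∈ S` fixes `a` (then
also `b`) take `K`. Otherwise let `c ∈ S` with `c • a = b`, `c • b = a`; `K' = K ∪ φ c • K`; `h ∈ S`
either fixes `a` and `b`, or exchanges them, and then `h c⁻¹` fixes both and `φ h • k = φ (h c⁻¹) • φ c • k`.
(`h • {a,b} = {h • a, h • b} = {a, b}`: `Set.smul_set_pair` or `Set.smul_set_insert`; `Set.pair_eq_pair_iff`.)
-/

namespace CZH

universe u

open Set Pointwise MulAction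

variable {G X H : Type u} [Group G] [MetricSpace X] [MulAction G X] [Group H] {φ : H →* G}

namespace CCfX

/-- the isometry `x ↦ g • x` -/
def iso (hG : ∀ (g : G) (x y : X), dist (g • x) (g • y) = dist x y) (g : G) : X ≃ᵢ X :=
  IsometryEquiv.mk' (fun x => g • x) (fun x => g⁻¹ • x) (fun x => smul_inv_smul g x)
    (Isometry.of_dist_eq (hG g))

theorem iso_apply (hG : ∀ (g : G) (x y : X), dist (g • x) (g • y) = dist x y) (g : G) (x : X) :
    iso hG g x = g • x := rfl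

theorem Nb_eq {A : Set X} (ρ : ℝ) : Nb ρ A = ⋃ a ∈ A, Metric.closedBall a ρ := by
  ext x
  simp only [Nb, Set.mem_ofPred_eq, mem_iUnion, Metric.mem_closedBall, exists_prop]

theorem Nb_eq' [ProperSpace X] {A : Set X} (hA : IsClosed A) {ρ : ℝ} (hρ : 0 ≤ ρ) :
    Nb ρ A = Metric.cthickening ρ A := by
  rw [Nb_eq, Metric.cthickening_eq_biUnion_closedBall A hρ, hA.closure_eq]

theorem mem_stab {E : Type u} [MulAction H E] {e : E} (h : stabilizer H e) : (h : H) • e = e :=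
  MulAction.mem_stabilizer_iff.1 h.2

end CCfX

open CCfX

theorem CC.nb [ProperSpace X] (hX : C0 (dst X) univ)
    (hG : ∀ (g : G) (x y : X), dist (g • x) (g • y) = dist x y) {A : Set X} (hA : CC φ A)
    {ρ : ℝ} (hρ : 0 ≤ ρ) : CC φ (Nb ρ A) := by
  obtain ⟨K, hKA, hK, hcov⟩ := hA.cpt
  refine ⟨?_, ?_, Cvx.Nb hX hA.cvx ρ, ?_, Nb ρ K, ?_, ?_, ?_⟩
  · obtain ⟨a, ha⟩ := hA.ne
    exact ⟨a, a, ha, by rw [dist_self]; exact hρ⟩
  · rw [Nb_eq' hA.closed hρ]
    exact Metric.isClosed_cthickening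
  · rintro h x ⟨a, ha, hd⟩
    exact ⟨φ h • a, hA.inv h a ha, by rw [hG]; exact hd⟩
  · rintro x ⟨k, hk, hd⟩
    exact ⟨k, hKA hk, hd⟩
  · rw [Nb_eq' hK.isClosed hρ]
    exact hK.cthickening
  · rintro x ⟨a, ha, hd⟩
    obtain ⟨h, k, hk, e⟩ := hcov a ha
    refine ⟨h, φ h⁻¹ • x, ⟨k, hk, ?_⟩, ?_⟩
    · rw [← hG (φ h), e, map_inv, smul_inv_smul]
      exact hd
    · rw [map_inv, smul_inv_smul]

theorem CC.smul {E : Type u} [MulAction H E]
    (hG : ∀ (g : G) (x y : X), dist (g • x) (g • y) = dist x y) {e : E} {A : Set X}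
    (hA : CC (φ.comp (stabilizer H e).subtype) A) (g : H) :
    CC (φ.comp (stabilizer H (g • e)).subtype) ((fun x => φ g • x) '' A) := by
  have hinv : ∀ (h : H) (x : X), h • e = e → x ∈ A → φ h • x ∈ A := fun h x he hx =>
    hA.inv ⟨h, MulAction.mem_stabilizer_iff.2 he⟩ x hx
  obtain ⟨K, hKA, hK, hcov⟩ := hA.cpt
  refine ⟨hA.ne.image _, ?_, ?_, ?_, (fun x => φ g • x) '' K, image_mono hKA, ?_, ?_⟩
  · exact (iso hG (φ g)).toHomeomorph.isClosedMap A hA.closed
  · rintro _ ⟨a, ha, rfl⟩ _ ⟨b, hb, rfl⟩ m t ht0 ht1 hb'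
    refine ⟨(φ g)⁻¹ • m, ?_, smul_inv_smul _ _⟩
    apply hA.cvx a ha b hb _ t ht0 ht1
    obtain ⟨h1, h2⟩ := hb'
    have e0 : φ g • (φ g)⁻¹ • m = m := smul_inv_smul _ _
    refine ⟨?_, ?_⟩
    · change dist a ((φ g)⁻¹ • m) = t * dist a b
      rw [← hG (φ g) a, ← hG (φ g) a b, e0]
      exact h1
    · change dist ((φ g)⁻¹ • m) b = (1 - t) * dist a b
      rw [← hG (φ g) _ b, ← hG (φ g) a b, e0]
      exact h2
  · rintro h _ ⟨a, ha, rfl⟩
    have h1 := mem_stab h
    refine ⟨φ (g⁻¹ * h * g) • a, hinv _ _ ?_ ha, ?_⟩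
    · rw [mul_smul, mul_smul, h1, inv_smul_smul]
    · change φ g • φ (g⁻¹ * h * g) • a = φ (h : H) • φ g • a
      rw [← mul_smul, ← mul_smul, ← map_mul, ← map_mul]
      congr 2
      group
  · exact hK.image (iso hG (φ g)).continuous
  · rintro _ ⟨a, ha, rfl⟩
    obtain ⟨h, k, hk, e'⟩ := hcov a ha
    have h1 := mem_stab h
    refine ⟨⟨g * h * g⁻¹, ?_⟩, φ g • k, ⟨k, hk, rfl⟩, ?_⟩
    · rw [MulAction.mem_stabilizer_iff, mul_smul, mul_smul, inv_smul_smul, h1]
    · change φ (g * h * g⁻¹) • φ g • k = φ g • a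
      rw [← e']
      change φ (g * h * g⁻¹) • φ g • k = φ g • φ (h : H) • k
      rw [← mul_smul, ← mul_smul, ← map_mul, ← map_mul]
      congr 2
      group

theorem exists_equivariant {E : Type u} [MulAction H E]
    (hG : ∀ (g : G) (x y : X), dist (g • x) (g • y) = dist x y) (P : E → Prop)
    (hP : ∀ (h : H) (e : E), P e → P (h • e))
    (hA : ∀ e, P e → ∃ A : Set X, CC (φ.comp (stabilizer H e).subtype) A) :
    ∃ F : E → Set X, (∀ (h : H) (e : E) (x : X), P e → x ∈ F e → φ h • x ∈ F (h • e)) ∧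
      ∀ e, P e → CC (φ.comp (stabilizer H e).subtype) (F e) := by
  classical
  let e₀ : E → E := fun e => (Quotient.mk (orbitRel H E) e).out
  have hg : ∀ e, ∃ g : H, g • e₀ e = e := by
    intro e
    have h1 : (orbitRel H E).r (e₀ e) e := Quotient.mk_out (s := orbitRel H E) e
    have h2 : e ∈ orbit H (e₀ e) := by
      have := (orbitRel H E).symm h1
      exact this
    exact h2
  choose g hg using hg
  have he₀ : ∀ (h : H) (e : E), e₀ (h • e) = e₀ e := by
    intro h e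
    change (Quotient.mk (orbitRel H E) (h • e)).out = (Quotient.mk (orbitRel H E) e).out
    congr 1
    apply Quotient.sound
    exact ⟨h, rfl⟩
  have hP0 : ∀ e, P e → P (e₀ e) := by
    intro e he
    have : e₀ e = (g e)⁻¹ • e := by rw [eq_inv_smul_iff, hg]
    rw [this]
    exact hP _ _ he
  let A₀ : E → Set X := fun e => if h : P e then (hA e h).choose else ∅
  have hA₀ : ∀ e, P e → CC (φ.comp (stabilizer H e).subtype) (A₀ e) := by
    intro e he
    have : A₀ e = (hA e he).choose := dif_pos he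
    rw [this]
    exact (hA e he).choose_spec
  refine ⟨fun e => (fun x => φ (g e) • x) '' A₀ (e₀ e), ?_, ?_⟩
  · rintro h e _ he ⟨a, ha, rfl⟩
    change φ h • φ (g e) • a ∈ (fun x => φ (g (h • e)) • x) '' A₀ (e₀ (h • e))
    rw [he₀]
    refine ⟨φ ((g (h • e))⁻¹ * h * g e) • a, ?_, ?_⟩
    · apply (hA₀ _ (hP0 e he)).inv ⟨(g (h • e))⁻¹ * h * g e, ?_⟩ a ha
      rw [MulAction.mem_stabilizer_iff, mul_smul, mul_smul, hg, inv_smul_eq_iff]
      have h2 := hg (h • e)
      rw [he₀] at h2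
      exact h2.symm
    · change φ (g (h • e)) • φ ((g (h • e))⁻¹ * h * g e) • a = φ h • φ (g e) • a
      rw [← mul_smul, ← mul_smul, ← map_mul, ← map_mul]
      congr 2
      group
  · intro e he
    have h1 := CC.smul hG (hA₀ _ (hP0 e he)) (g e)
    rw [hg e] at h1
    exact h1

theorem CC.pair {V : Type u} [MulAction H V] {a b : V} {A : Set X}
    (hG : ∀ (g : G) (x y : X), dist (g • x) (g • y) = dist x y)
    (hA : CC (φ.comp (stabilizer H ({a, b} : Set V)).subtype) A) :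
    ∃ K ⊆ A, IsCompact K ∧ ∀ x ∈ A, ∃ h : H, h • a = a ∧ h • b = b ∧ ∃ k ∈ K, φ h • k = x := by
  obtain ⟨K, hKA, hK, hcov⟩ := hA.cpt
  have hst : ∀ h : stabilizer H ({a, b} : Set V), ((h : H) • a = a ∧ (h : H) • b = b) ∨
      ((h : H) • a = b ∧ (h : H) • b = a) := by
    intro h
    have h1 := mem_stab h
    rw [Set.smul_set_insert, Set.smul_set_singleton] at h1
    exact Set.pair_eq_pair_iff.1 h1
  by_cases hc : ∃ c : stabilizer H ({a, b} : Set V), (c : H) • a = b ∧ (c : H) • b = a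
  · obtain ⟨c, hc1, hc2⟩ := hc
    refine ⟨K ∪ (fun x => φ (c : H) • x) '' K, ?_, ?_, ?_⟩
    · rintro x (hx | ⟨k, hk, rfl⟩)
      · exact hKA hx
      · exact hA.inv c k (hKA hk)
    · exact hK.union (hK.image (iso hG (φ (c : H))).continuous)
    · intro x hx
      obtain ⟨h, k, hk, e⟩ := hcov x hx
      rcases hst h with ⟨h1, h2⟩ | ⟨h1, h2⟩
      · exact ⟨h, h1, h2, k, Or.inl hk, e⟩
      · refine ⟨(h : H) * (c : H)⁻¹, ?_, ?_, φ (c : H) • k, Or.inr ⟨k, hk, rfl⟩, ?_⟩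
        · rw [mul_smul, inv_smul_eq_iff.2 hc2.symm, h2]
        · rw [mul_smul, inv_smul_eq_iff.2 hc1.symm, h1]
        · rw [← mul_smul, ← map_mul, inv_mul_cancel_right]
          exact e
  · refine ⟨K, hKA, hK, ?_⟩
    intro x hx
    obtain ⟨h, k, hk, e⟩ := hcov x hx
    rcases hst h with ⟨h1, h2⟩ | ⟨h1, h2⟩
    · exact ⟨h, h1, h2, k, hk, e⟩
    · exact absurd ⟨h, h1, h2⟩ hc

/-- equivariant edge sets -/
theorem exists_edgeSets {V : Type u} [MulAction H V] (T : SimpleGraph V)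
    (adj : ∀ (h : H) (a b : V), T.Adj a b → T.Adj (h • a) (h • b))
    (hG : ∀ (g : G) (x y : X), dist (g • x) (g • y) = dist x y)
    (hA : ∀ a b, T.Adj a b →
      ∃ A : Set X, CC (φ.comp (stabilizer H ({a, b} : Set V)).subtype) A) :
    ∃ A : V → V → Set X, (∀ a b, A a b = A b a) ∧
      (∀ (h : H) (a b : V) (x : X), T.Adj a b → x ∈ A a b → φ h • x ∈ A (h • a) (h • b)) ∧
      ∀ a b, T.Adj a b → CC (φ.comp (stabilizer H ({a, b} : Set V)).subtype) (A a b) := by
  have h1 : ∀ (h : H) (e : Set V), (∃ a b, T.Adj a b ∧ e = {a, b}) →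
      ∃ a b, T.Adj a b ∧ h • e = {a, b} := by
    rintro h e ⟨a, b, hab, rfl⟩
    exact ⟨h • a, h • b, adj h a b hab, by rw [Set.smul_set_insert, Set.smul_set_singleton]⟩
  have h2 : ∀ e : Set V, (∃ a b, T.Adj a b ∧ e = {a, b}) →
      ∃ A : Set X, CC (φ.comp (stabilizer H e).subtype) A := by
    rintro e ⟨a, b, hab, rfl⟩
    exact hA a b hab
  obtain ⟨F, hF, hF'⟩ := exists_equivariant (φ := φ) (E := Set V) hG
    (fun e => ∃ a b, T.Adj a b ∧ e = {a, b}) h1 h2
  · refine ⟨fun a b => F {a, b}, fun a b => congrArg F (Set.pair_comm a b), ?_, ?_⟩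
    · intro h a b x hab hx
      have := hF h {a, b} x ⟨a, b, hab, rfl⟩ hx
      have e : h • ({a, b} : Set V) = {h • a, h • b} := by
        rw [Set.smul_set_insert, Set.smul_set_singleton]
      rw [e] at this
      exact this
    · intro a b hab
      exact hF' _ ⟨a, b, hab, rfl⟩

end CZH
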