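import Pool.Agent.CZH.CCf

/-!
# CZH/CCfg: groups acting cocompactly on a convex set are finitely generated

## Proof
`fg_of_cocompact`: fix `o ∈ A`; `K` is bounded, so `K ⊆ closedBall o R` for some `R ≥ 0`.  `S = {h ∈ L | dist (φ h • o) o
≤ 2 R + 1}` is finite (`hfin`).  Let `h ∈ L`, `D = dist o (φ h • o)`, `n : ℕ` with `n ≥ 1`, `n ≥ D`; let `x_i` (`i ≤ n`) be the
point at parameter `i/n` on `[o, φ h • o]` (`hX.geo`), `x_i ∈ A` (`Cvx`), `x_0 = o`, `x_n = φ h • o`,
`dist x_i x_(i+1) = D/n ≤ 1` (as in `CZH/Local`; to avoid proving this for all `i` define `x_(i+1)` from `x_i`: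
the point at parameter `1/(n-i)` on `[x_i, φ h • o]`).  `x_i = φ (h_i) • k_i`, `h_i ∈ L`, `k_i ∈ K`, so
`dist (φ h_i • o) x_i ≤ R`; take `h_0 = 1`, `h_n = h` (`k = o`, distance `0`).  Then `dist (φ h_i • o) (φ h_(i+1) • o) ≤ 2R + 1`,
so `h_i⁻¹ h_(i+1) ∈ S` and `h = ∏ h_i⁻¹ h_(i+1) ∈ closure S`.
A convenient induction: for all `n : ℕ` and all `h ∈ L`, `x ∈ A` with `dist x (φ h • o) ≤ R` and `dist o x ≤ n`:
`h ∈ closure S`.  (`n = 0`: `x = o`, `dist (φ h • o) o ≤ R`.  `n + 1`: take `y` on `[o, x]` with `dist o y ≤ n`, `dist y x ≤ 1`,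
`y = φ h' • k`, `dist y (φ h' • o) ≤ R`, `h' ∈ closure S` by induction, `h'⁻¹ h ∈ S`.)
`CC.pair_fg`: `CC.pair` and `fg_of_cocompact` with `L = stabilizer H a ⊓ stabilizer H b`.
-/

namespace CZH

universe u

open Set Pointwise MulAction

variable {G X H : Type u} [Group G] [MetricSpace X] [MulAction G X] [Group H]

theorem fg_of_cocompact (hX : C0 (dst X) univ)
    (hG : ∀ (g : G) (x y : X), dist (g • x) (g • y) = dist x y) (φ : H →* G)
    (hfin : ∀ (o : X) (r : ℝ), {h : H | dist (φ h • o) o ≤ r}.Finite) (L : Subgroup H)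
    (A K : Set X) (hne : A.Nonempty) (hA : Cvx A) (hinv : ∀ h ∈ L, ∀ x ∈ A, φ h • x ∈ A)
    (hK : IsCompact K) (hcov : ∀ x ∈ A, ∃ h ∈ L, ∃ k ∈ K, φ h • k = x) : L.FG := by
  obtain ⟨o, ho⟩ := hne
  obtain ⟨R₀, hR₀⟩ := hK.isBounded.subset_closedBall o
  set R : ℝ := max R₀ 0 with hR
  have hR0 : 0 ≤ R := le_max_right _ _
  have hKR : ∀ k ∈ K, dist k o ≤ R := fun k hk =>
    (Metric.mem_closedBall.mp (hR₀ hk)).trans (le_max_left _ _)
  set S : Set H := {h : H | h ∈ L ∧ dist (φ h • o) o ≤ 2 * R + 1} with hS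
  have hSfin : S.Finite := (hfin o (2 * R + 1)).subset (fun h hh => hh.2)
  have key : ∀ n : ℕ, ∀ x ∈ A, ∀ h ∈ L, dist x (φ h • o) ≤ R → dist o x ≤ n →
      h ∈ Subgroup.closure S := by
    intro n
    induction n with
    | zero =>
      intro x hx h hh h1 h2
      have h3 : o = x := dist_le_zero.mp (by simpa using h2)
      subst h3
      refine Subgroup.subset_closure ⟨hh, ?_⟩
      rw [dist_comm]
      linarith
    | succ n ih =>
      intro x hx h hh h1 h2
      by_cases h3 : dist o x ≤ n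
      · exact ih x hx h hh h1 h3
      push Not at h3
      have hn : (0 : ℝ) ≤ n := Nat.cast_nonneg n
      have hD : 0 < dist o x := lt_of_le_of_lt hn h3
      have ht0 : 0 ≤ (n : ℝ) / dist o x := div_nonneg hn hD.le
      have ht1 : (n : ℝ) / dist o x ≤ 1 := (div_le_one hD).mpr h3.le
      obtain ⟨y, -, hy⟩ := hX.geo o (mem_univ o) x (mem_univ x) _ ht0 ht1
      have hyA : y ∈ A := hA o ho x hx y _ ht0 ht1 hy
      have e1 : dist o y = n := by
        have := hy.1
        simp only [dst] at this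
        rw [this, div_mul_cancel₀ _ hD.ne']
      have e2 : dist y x ≤ 1 := by
        have := hy.2
        simp only [dst] at this
        rw [this, sub_mul, one_mul, div_mul_cancel₀ _ hD.ne']
        push_cast at h2
        linarith
      obtain ⟨h', hh', k, hk, e⟩ := hcov y hyA
      have e3 : dist y (φ h' • o) ≤ R := by
        rw [← e, hG]; exact hKR k hk
      have h4 := ih y hyA h' hh' e3 e1.le
      have h5 : h'⁻¹ * h ∈ Subgroup.closure S := by
        refine Subgroup.subset_closure ⟨mul_mem (inv_mem hh') hh, ?_⟩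
        have e4 : dist (φ (h'⁻¹ * h) • o) o = dist (φ h • o) (φ h' • o) := by
          rw [map_mul, mul_smul, map_inv, ← hG (φ h') ((φ h')⁻¹ • φ h • o) o, smul_inv_smul]
        rw [e4]
        have e5 := dist_triangle (φ h • o) x (φ h' • o)
        have e6 := dist_triangle x y (φ h' • o)
        rw [dist_comm (φ h • o) x] at e5
        rw [dist_comm x y] at e6
        linarith
      have : h = h' * (h'⁻¹ * h) := by group
      rw [this]
      exact mul_mem h4 h5
  refine ⟨hSfin.toFinset, le_antisymm ?_ ?_⟩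
  · rw [Subgroup.closure_le]
    intro h hh
    exact (hSfin.mem_toFinset.mp hh).1
  · intro h hh
    rw [hSfin.coe_toFinset]
    obtain ⟨n, hn⟩ := exists_nat_ge (dist o (φ h • o))
    exact key n (φ h • o) (hinv h hh o ho) h hh (by rw [dist_self]; exact hR0) hn

theorem CC.pair_fg {V : Type u} [MulAction H V] (hX : C0 (dst X) univ)
    (hG : ∀ (g : G) (x y : X), dist (g • x) (g • y) = dist x y) {φ : H →* G}
    (hfin : ∀ (o : X) (r : ℝ), {h : H | dist (φ h • o) o ≤ r}.Finite) {a b : V} {A : Set X}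
    (hA : CC (φ.comp (stabilizer H ({a, b} : Set V)).subtype) A) :
    (stabilizer H a ⊓ stabilizer H b).FG := by
  obtain ⟨K, -, hK, hcov⟩ := hA.pair hG
  refine fg_of_cocompact hX hG φ hfin _ A K hA.ne hA.cvx ?_ hK ?_
  · intro h hh x hx
    obtain ⟨h1, h2⟩ := Subgroup.mem_inf.mp hh
    have hst : h ∈ stabilizer H ({a, b} : Set V) := by
      rw [mem_stabilizer_iff] at h1 h2 ⊢
      rw [Set.smul_set_insert, Set.smul_set_singleton, h1, h2]
    exact hA.inv ⟨h, hst⟩ x hx
  · intro x hx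
    obtain ⟨h, ha, hb, k, hk, e⟩ := hcov x hx
    exact ⟨h, Subgroup.mem_inf.mpr ⟨ha, hb⟩, k, hk, e⟩

end CZH
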