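import Pool.Agent.CZH.CCf

/-!
# CZH/Const: the constants of the inductive step

## Proofs
`exists_rho`: for one `f` the tree is connected: a walk from `v₀` to `f • v₀`; for every step `a b` of it let
`c = dist o x₀` with `x₀ ∈ A a b`: then `closedBall o r ⊆ Nb (r + c) (A a b)`; `ρ_f` the maximum over the
walk (induction on the walk: `ReflTransGen` is monotone in `ρ`, `ReflTransGen.mono`).  Then the maximum over the
finitely many `f`.
`exists_rad`: for `e = (a', b') ∈ E` adjacent let `c_e` be the constant of `hU`; for `i : R` and `e ∈ E` with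
`rep i` in the orbit of `a'` fix `h_{e,i}` with `h_{e,i} • a' = rep i`, `d_{e,i} = dist (φ h_{e,i} • o) o`;
`r₀ = 1 + max (c_e + d_{e,i})`.  Let `rep i ~ b`, `(rep i, b) = (h • a', h • b')`, `e = (a', b') ∈ E`
(then `a' ~ b'` by `adj`), `x ∈ U (rep i) b`. `y = φ h⁻¹ • x ∈ U a' b'` (`Ueq`), so `dist y (φ k • o) ≤ c_e` with `k`
fixing `a'`; `x = φ h • y` and with `g = h_{e,i}`:
`dist x (φ (h k g⁻¹) • o) ≤ dist (φ h • y) (φ (h k) • o) + dist (φ (h k) • o) (φ (h k g⁻¹) • o)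
 ≤ c_e + dist o (φ g⁻¹ • o) = c_e + d_{e,i}` and `h k g⁻¹ • rep i = h k • a' = h • a' = rep i`.
So `x` is `Near (c_e + d_{e,i})` for the stabilizer of `rep i`.
`exists_near`: `U = Nb ρ A`: `CC.pair` gives compact `K`, bounded, so `x = φ h • k`-translate argument:
`dist x a ≤ ρ`, `a = φ h • k`, `dist x (φ h • o) ≤ ρ + dist k o ≤ c`.
-/

namespace CZH

universe u

open Set Pointwise MulAction

variable {G X H V : Type u} [Group G] [MetricSpace X] [MulAction G X] [Group H] [MulAction H V]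

theorem exists_rho (φ : H →* G) (T : SimpleGraph V) (hT : T.Connected) (A : V → V → Set X)
    (hA : ∀ a b, T.Adj a b → (A a b).Nonempty) (o : X) (r : ℝ) (v₀ : V)
    (hfin : {h : H | dist (φ h • o) o ≤ 2 * r}.Finite) :
    ∃ ρ : ℝ, 0 ≤ ρ ∧ ∀ f : H, dist (φ f • o) o ≤ 2 * r → Relation.ReflTransGen
      (fun a b => T.Adj a b ∧ ∀ x, dist x o ≤ r → x ∈ Nb ρ (A a b)) v₀ (f • v₀) := by
  classical
  have hwalk : ∀ {u w : V} (_ : T.Walk u w), ∃ ρ : ℝ, 0 ≤ ρ ∧ Relation.ReflTransGen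
      (fun a b => T.Adj a b ∧ ∀ x, dist x o ≤ r → x ∈ Nb ρ (A a b)) u w := by
    intro u w p
    induction p with
    | nil => exact ⟨0, le_rfl, Relation.ReflTransGen.refl⟩
    | @cons u v w h p ih =>
      obtain ⟨ρ₁, h0, h1⟩ := ih
      obtain ⟨x₀, hx₀⟩ := hA u v h
      refine ⟨max ρ₁ (r + dist o x₀), h0.trans (le_max_left _ _), ?_⟩
      refine Relation.ReflTransGen.head ⟨h, fun x hx => ⟨x₀, hx₀, ?_⟩⟩ ?_
      · have h2 := dist_triangle x o x₀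
        exact (h2.trans (by linarith)).trans (le_max_right _ _)
      · refine Relation.ReflTransGen.mono ?_ _ _ h1
        rintro a b ⟨hab, hx⟩
        refine ⟨hab, fun x hxr => ?_⟩
        obtain ⟨y, hy, hxy⟩ := hx x hxr
        exact ⟨y, hy, hxy.trans (le_max_left _ _)⟩
  have hf : ∀ f : H, ∃ ρ : ℝ, 0 ≤ ρ ∧ Relation.ReflTransGen
      (fun a b => T.Adj a b ∧ ∀ x, dist x o ≤ r → x ∈ Nb ρ (A a b)) v₀ (f • v₀) := by
    intro f
    obtain ⟨p⟩ := hT.preconnected v₀ (f • v₀)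
    exact hwalk p
  choose ρf hρ0 hρf using hf
  obtain ⟨B, hB⟩ := (hfin.image ρf).bddAbove
  refine ⟨max B 0, le_max_right _ _, fun f hfr => ?_⟩
  refine Relation.ReflTransGen.mono ?_ _ _ (hρf f)
  rintro a b ⟨hab, hx⟩
  refine ⟨hab, fun x hxr => ?_⟩
  obtain ⟨y, hy, hxy⟩ := hx x hxr
  have h1 : ρf f ≤ B := hB (Set.mem_image_of_mem ρf hfr)
  exact ⟨y, hy, (hxy.trans h1).trans (le_max_left _ _)⟩

theorem exists_near {φ : H →* G} {a b : V} {A : Set X}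
    (hG : ∀ (g : G) (x y : X), dist (g • x) (g • y) = dist x y)
    (hA : CC (φ.comp (stabilizer H ({a, b} : Set V)).subtype) A) (o : X) (ρ : ℝ) :
    ∃ c : ℝ, ∀ x ∈ Nb ρ A, ∃ k : H, k • a = a ∧ k • b = b ∧ dist x (φ k • o) ≤ c := by
  obtain ⟨K, _, hKc, hK⟩ := CC.pair hG hA
  obtain ⟨C, hC⟩ := hKc.isBounded.subset_closedBall o
  refine ⟨ρ + C, fun x hx => ?_⟩
  obtain ⟨y, hy, hxy⟩ := hx
  obtain ⟨h, ha, hb, k, hk, e⟩ := hK y hy
  refine ⟨h, ha, hb, ?_⟩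
  have h1 : dist k o ≤ C := hC hk
  have h2 := dist_triangle x y (φ h • o)
  have h3 : dist y (φ h • o) = dist k o := by rw [← e, hG]
  linarith

theorem exists_rad (φ : H →* G) (T : SimpleGraph V)
    (adj : ∀ (h : H) (a b : V), T.Adj a b → T.Adj (h • a) (h • b))
    (hG : ∀ (g : G) (x y : X), dist (g • x) (g • y) = dist x y) (o : X) (U : V → V → Set X)
    (Ueq : ∀ (h : H) (a b : V) (x : X), T.Adj a b → x ∈ U a b → φ h • x ∈ U (h • a) (h • b))
    (hU : ∀ a b, T.Adj a b → ∃ c : ℝ, ∀ x ∈ U a b,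
      ∃ k : H, k • a = a ∧ k • b = b ∧ dist x (φ k • o) ≤ c)
    (R : Type u) [Finite R] (rep : R → V) (E : Set (V × V)) (hEf : E.Finite)
    (hE : ∀ a b, T.Adj a b → ∃ h : H, ∃ e ∈ E, h • e.1 = a ∧ h • e.2 = b) :
    ∃ r₀ : ℝ, ∀ r' : ℝ, r₀ ≤ r' → ∀ i b, T.Adj (rep i) b → ∀ x ∈ U (rep i) b,
      Near (φ.comp (stabilizer H (rep i)).subtype) o (r' - 1) x := by
  classical
  have hc : ∀ e : V × V, ∃ c : ℝ, T.Adj e.1 e.2 → ∀ x ∈ U e.1 e.2,
      ∃ k : H, k • e.1 = e.1 ∧ k • e.2 = e.2 ∧ dist x (φ k • o) ≤ c := by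
    intro e
    by_cases h : T.Adj e.1 e.2
    · obtain ⟨c, hc⟩ := hU e.1 e.2 h
      exact ⟨c, fun _ => hc⟩
    · exact ⟨0, fun h' => absurd h' h⟩
  choose c hc using hc
  have hg : ∀ (e : V × V) (i : R), ∃ g : H, (∃ h : H, h • e.1 = rep i) → g • e.1 = rep i := by
    intro e i
    by_cases h : ∃ h : H, h • e.1 = rep i
    · obtain ⟨g, hg⟩ := h
      exact ⟨g, fun _ => hg⟩
    · exact ⟨1, fun h' => absurd h' h⟩
  choose g hg using hg
  obtain ⟨B, hB⟩ := ((hEf.prod (Set.finite_univ (α := R))).image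
    (fun p : (V × V) × R => c p.1 + dist (φ (g p.1 p.2) • o) o)).bddAbove
  refine ⟨B + 1, fun r' hr' i b hab x hx => ?_⟩
  obtain ⟨h, e, he, h1, h2⟩ := hE (rep i) b hab
  have e1 : h⁻¹ • rep i = e.1 := by rw [← h1, inv_smul_smul]
  have e2 : h⁻¹ • b = e.2 := by rw [← h2, inv_smul_smul]
  have hadj : T.Adj e.1 e.2 := by
    have := adj h⁻¹ _ _ hab
    rwa [e1, e2] at this
  have hy : φ h⁻¹ • x ∈ U e.1 e.2 := by
    have := Ueq h⁻¹ _ _ x hab hx
    rwa [e1, e2] at this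
  obtain ⟨k, hk1, _, hk3⟩ := hc e hadj _ hy
  have hge := hg e i ⟨h, h1⟩
  have hge' : (g e i)⁻¹ • rep i = e.1 := by rw [← hge, inv_smul_smul]
  have hst : h * k * (g e i)⁻¹ ∈ stabilizer H (rep i) := by
    rw [mem_stabilizer_iff, mul_smul, mul_smul, hge', hk1, h1]
  refine ⟨⟨h * k * (g e i)⁻¹, hst⟩, ?_⟩
  change dist x (φ (h * k * (g e i)⁻¹) • o) ≤ r' - 1
  have hBe : c e + dist (φ (g e i) • o) o ≤ B :=
    hB ⟨(e, i), ⟨he, Set.mem_univ _⟩, rfl⟩
  have t1 := dist_triangle x (φ (h * k) • o) (φ (h * k * (g e i)⁻¹) • o)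
  have t2 : dist x (φ (h * k) • o) = dist (φ h⁻¹ • x) (φ k • o) := by
    rw [← hG (φ h) (φ h⁻¹ • x) (φ k • o), ← mul_smul, ← mul_smul, ← map_mul, ← map_mul,
      mul_inv_cancel, map_one, one_smul]
  have t3 : dist (φ (h * k) • o) (φ (h * k * (g e i)⁻¹) • o) = dist (φ (g e i) • o) o := by
    rw [map_mul φ (h * k), mul_smul, hG, ← hG (φ (g e i)) o, ← mul_smul, ← map_mul,
      mul_inv_cancel, map_one, one_smul]
  linarith

end CZH
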