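import Pool.Agent.CZH.Basic

/-!
# CZH/Local: local geodesics are geodesics, local isometries of convex sets are isometries

## Proofs
`C0.chain`: by induction on `k ≤ n` show `d (z 0) (z k) = k ε` (strong induction, two steps at a time).
`k = 0, 1` clear.  For `k + 2 ≤ n`: `z (k+1)` is at parameter `1/2` between `z k` and `z (k+2)`, `cmp` with
`p = z 0`: `((k+1)ε)² ≤ ½ (kε)² + ½ D² - ¼ (2ε)²`, so `D² ≥ (2(k+1)² - k² + 2)ε² = (k+2)²ε²`, `D ≥ (k+2)ε`; and
`D ≤ (k+2)ε` by the triangle inequality.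
`local_iso`: let `L = dist x y > 0`, `n : ℕ` with `L/n ≤ 1/2`, `n ≥ 1`, `ε = L/n`. Choose for each `i ≤ n` a point
`q i` at parameter `i/n` on `[x,y]` (`geo`), it is in `U` (`hU`); `dist (q i) (q j) = |i-j| ε`: for `i ≤ j`,
`≥` by the triangle inequality; for `≤`: in a CAT(0) space take the point `q'` at parameter `i/j` on
`[x, q j]`; it is at parameter `i/n` on `[x,y]` (`dist x q' = iε`, `dist q' y ≤ (j-i)ε + (n-j)ε`), so `q' = q i`
by `C0.uniq`, and `dist q' (q j) = (j-i)ε`.  Then `z i = s (q i)` satisfies the hypotheses of `C0.chain`.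
-/

namespace CZH

universe u

open Set

theorem C0.chain {W : Type u} {d : W → W → ℝ} {S : Set W} (h : C0 d S) (z : ℕ → W) (n : ℕ) (ε : ℝ)
    (hε : 0 ≤ ε) (hz : ∀ i, i ≤ n → z i ∈ S) (h1 : ∀ i, i + 1 ≤ n → d (z i) (z (i + 1)) = ε)
    (h2 : ∀ i, i + 2 ≤ n → d (z i) (z (i + 2)) = 2 * ε) : d (z 0) (z n) = n * ε := by
  have key : ∀ k, k ≤ n → d (z 0) (z k) = k * ε := by
    intro k
    induction k using Nat.strong_induction_on with
    | _ k ih =>
      intro hk
      match k, ih, hk with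
      | 0, _, hk => rw [h.self _ (hz 0 hk), Nat.cast_zero, zero_mul]
      | 1, _, hk => rw [h1 0 hk, Nat.cast_one, one_mul]
      | k + 2, ih, hk =>
        have e0 := ih k (by omega) (by omega)
        have e1 := ih (k + 1) (by omega) (by omega)
        have z0 := hz 0 (by omega)
        have zk := hz k (by omega)
        have zk1 := hz (k + 1) (by omega)
        have zk2 := hz (k + 2) hk
        have c1 := h.cmp (z 0) z0 (z k) zk (z (k + 2)) zk2 (z (k + 1)) zk1 (1 / 2) (by norm_num)
          (by norm_num) ⟨by rw [h1 k (by omega), h2 k hk]; ring, by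
            rw [h1 (k + 1) hk, h2 k hk]; ring⟩
        have c2 := h.tri (z 0) z0 (z (k + 1)) zk1 (z (k + 2)) zk2
        have c3 := h.nn (z 0) z0 (z (k + 2)) zk2
        rw [e0, e1, h2 k hk] at c1
        rw [e1, h1 (k + 1) hk] at c2
        push_cast at c1 c2 ⊢
        have hk0 : (0 : ℝ) ≤ k := Nat.cast_nonneg k
        apply le_antisymm
        · linarith
        · have c4 : (((k : ℝ) + 2) * ε) ^ 2 ≤ d (z 0) (z (k + 2)) ^ 2 := by nlinarith
          exact (pow_le_pow_iff_left₀ (by positivity) c3 two_ne_zero).mp c4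
  exact key n le_rfl

theorem C0.param_dist {X : Type u} [MetricSpace X] (h : C0 (dst X) univ) {x y m m' : X}
    {s t : ℝ} (hs : 0 ≤ s) (hst : s ≤ t) (ht : t ≤ 1) (hm : Btw (dst X) x m y s)
    (hm' : Btw (dst X) x m' y t) : dist m m' = (t - s) * dist x y := by
  have h1 : dist m m' ^ 2 ≤ (1 - t) * dist m x ^ 2 + t * dist m y ^ 2 -
      t * (1 - t) * dist x y ^ 2 :=
    h.cmp m (mem_univ _) x (mem_univ _) y (mem_univ _) m' (mem_univ _) t (hs.trans hst) ht hm'
  have a1 : dist x m = s * dist x y := hm.1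
  have a2 : dist m y = (1 - s) * dist x y := hm.2
  have a3 : dist x m' = t * dist x y := hm'.1
  have a4 : dist m' y = (1 - t) * dist x y := hm'.2
  rw [dist_comm m x, a1, a2] at h1
  have hD : 0 ≤ dist x y := dist_nonneg
  have h2 : dist m m' ^ 2 ≤ ((t - s) * dist x y) ^ 2 := by
    refine h1.trans (le_of_eq ?_)
    ring
  have h3 : dist m m' ≤ (t - s) * dist x y :=
    (pow_le_pow_iff_left₀ dist_nonneg (mul_nonneg (by linarith) hD) two_ne_zero).mp h2
  have h4 := dist_triangle4 x m m' y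
  rw [a1, a4] at h4
  exact le_antisymm h3 (by linarith)

theorem local_iso {X Z : Type u} [MetricSpace X] [MetricSpace Z] (hX : C0 (dst X) univ)
    (hZ : C0 (dst Z) univ) (U : Set X) (hU : Cvx U) (s : X → Z)
    (hs : ∀ x ∈ U, ∀ y ∈ U, dist x y ≤ 1 → dist (s x) (s y) = dist x y) :
    ∀ x ∈ U, ∀ y ∈ U, dist (s x) (s y) = dist x y := by
  intro x hx y hy
  obtain ⟨n, hn⟩ := exists_nat_ge (2 * dist x y)
  set N : ℕ := n + 1 with hN
  have hN0 : (0 : ℝ) < N := by rw [hN]; positivity
  have hNn : 2 * dist x y ≤ N := by rw [hN]; push_cast; linarith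
  have hpar : ∀ i : ℕ, i ≤ N → 0 ≤ (i : ℝ) / N ∧ (i : ℝ) / N ≤ 1 := fun i hi =>
    ⟨by positivity, (div_le_one hN0).mpr (by exact_mod_cast hi)⟩
  have hex : ∀ i : ℕ, ∃ q : X, i ≤ N → Btw (dst X) x q y ((i : ℝ) / N) := by
    intro i
    by_cases hi : i ≤ N
    · obtain ⟨q, -, hq⟩ := hX.geo x (mem_univ _) y (mem_univ _) _ (hpar i hi).1 (hpar i hi).2
      exact ⟨q, fun _ => hq⟩
    · exact ⟨x, fun h => absurd h hi⟩
  choose q hq using hex
  have hqU : ∀ i, i ≤ N → q i ∈ U := fun i hi =>
    hU x hx y hy (q i) _ (hpar i hi).1 (hpar i hi).2 (hq i hi)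
  have hqd : ∀ i k, i + k ≤ N → dist (q i) (q (i + k)) = k * (dist x y / N) := by
    intro i k hik
    have := hX.param_dist (hpar i (by omega)).1
      (by push_cast; gcongr; linarith [Nat.cast_nonneg (α := ℝ) k])
      (hpar (i + k) hik).2 (hq i (by omega)) (hq (i + k) hik)
    rw [this]
    push_cast
    field_simp
    ring
  have hstep : ∀ i k, i + k ≤ N → k ≤ 2 → dist (s (q i)) (s (q (i + k))) =
      k * (dist x y / N) := by
    intro i k hik hk
    rw [hs _ (hqU i (by omega)) _ (hqU (i + k) hik) ?_, hqd i k hik]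
    rw [hqd i k hik]
    have hk' : (k : ℝ) ≤ 2 := by exact_mod_cast hk
    have h3 : (k : ℝ) * (dist x y / N) ≤ 2 * (dist x y / N) :=
      mul_le_mul_of_nonneg_right hk' (by positivity)
    refine h3.trans ?_
    rw [mul_div_assoc', div_le_one hN0]
    exact hNn
  have hch := hZ.chain (fun i => s (q i)) N (dist x y / N) (by positivity)
    (fun i _ => mem_univ _)
    (fun i hi => by
      have := hstep i 1 hi (by norm_num)
      rw [Nat.cast_one, one_mul] at this
      exact this)
    (fun i hi => by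
      have := hstep i 2 hi le_rfl
      rw [Nat.cast_ofNat] at this
      exact this)
  have hq0 : q 0 = x := by
    have := (hq 0 (Nat.zero_le _)).1
    rw [Nat.cast_zero, zero_div, zero_mul] at this
    exact (dist_eq_zero.mp this).symm
  have hqN : q N = y := by
    have := (hq N le_rfl).2
    rw [div_self hN0.ne', sub_self, zero_mul] at this
    exact dist_eq_zero.mp this
  have hch' : dist (s (q 0)) (s (q N)) = N * (dist x y / N) := hch
  rw [hq0, hqN, mul_div_cancel₀ _ hN0.ne'] at hch'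
  exact hch'

end CZH
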