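import Pool.Agent.CZH.Semi
import Pool.Agent.CZH.Local

/-!
# CZH/Cyc: cyclic groups act cocompactly on a closed convex set (fixed point or axis)

## Proof
`H` is cyclic with generator `h₀`, `g = φ h₀`; `exists_min` gives `x` with `ℓ = dist x (g • x)` minimal.
* `ℓ = 0`: `g • x = x`, `A = {x} = K` (`φ h • x = x` for all `h = h₀ ^ n`).
* `ℓ > 0`: let `m` be the midpoint of `[x, g • x]` (`geo`, `t = 1/2`).  `g • m` is the midpoint of `[g x, g² x]`,
  `ℓ ≤ dist m (g • m) ≤ dist m (g x) + dist (g x) (g m) = ℓ/2 + ℓ/2`.  So the points `q (2i) = gⁱ x`,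
  `q (2i+1) = gⁱ m` (`i : ℤ`) satisfy `dist (q j) (q (j+1)) = ℓ/2`, `dist (q j) (q (j+2)) = ℓ`, hence by
  `C0.chain` (shifted: `z k = q (j + k)`) `dist (q j) (q (j + n)) = n ℓ/2`; in particular
  `dist (gⁱ x) (gʲ x) = |i - j| ℓ`.
  Put `Seg a b = {y | dist a y + dist y b = dist a b}` (closed, bounded, so compact),
  `A n = Seg (g⁻ⁿ x) (gⁿ x)`, `A = ⋃ n : ℕ, A n`.
  - `A n ⊆ A (n+1)`: `dist (g^(-n-1) x) (g^(n+1) x) = (2n+2)ℓ = ℓ + 2nℓ + ℓ` and the triangle inequality.
  - `Seg a b` is convex: in a CAT(0) space `Seg a b` = the points at a parameter `t ∈ [0,1]` on `[a,b]`; for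
    `y, y' ∈ Seg a b` at parameters `t ≤ t'`: `dist y y' = (t'-t) dist a b` (the point `q` at parameter `t/t'` on
    `[a, y']` equals `y` by `uniq`), and a point `w` between `y, y'` satisfies
    `dist a w + dist w b ≤ dist a y + dist y w + dist w y' + dist y' b = dist a b`.
    So `A` is convex (increasing union).
  - invariance: `g • A n ⊆ A (n+1)` and `g⁻¹ • A n ⊆ A (n+1)` in the same way as `A n ⊆ A (n+1)`; so `A` is
    invariant under all powers of `g`.
  - `A ⊆ ⋃ i, gⁱ • Seg x (g x)`: `y ∈ A n`, parameter along `[g⁻ⁿ x, gⁿ x]`: `s = dist (g⁻ⁿ x) y ∈ [0, 2nℓ]`; with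
    `i = ⌊s/ℓ⌋` (`i < 2n`; the end point separately) `y ∈ Seg (g^(i-n) x) (g^(i+1-n) x)` (the point of that
    segment at the right distance is at the same parameter on `[g⁻ⁿ x, gⁿ x]`, `uniq`).  `K = Seg x (g x) ⊆ A 1`
    (`K ⊆ A` as above).
  - closed: let `y` be in the closure, `R = dist x y + 1`; all points of `A` in `ball y 1` are in
    `⋃_{|i| ≤ N} gⁱ K` with `(N - 1)ℓ > R`, a finite union of compact (closed) sets contained in `A`.
-/

namespace CZH

universe u

open Set

variable {G X H : Type u} [Group G] [MetricSpace X] [MulAction G X] [Group H]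

theorem seg_dist_cyc (hX : C0 (dst X) univ) {a b y y' : X}
    (h1 : dist a y + dist y b = dist a b) (h2 : dist a y' + dist y' b = dist a b)
    (h3 : dist a y ≤ dist a y') : dist y y' = dist a y' - dist a y := by
  rcases eq_or_lt_of_le (dist_nonneg : 0 ≤ dist a y') with h0 | h0
  · have h4 : dist a y = 0 := le_antisymm (h3.trans h0.symm.le) dist_nonneg
    have e1 := dist_eq_zero.1 h4
    have e2 := dist_eq_zero.1 h0.symm
    rw [← e1, ← e2, dist_self, sub_self]
  · have hD : 0 < dist a b := by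
      have := (dist_nonneg : 0 ≤ dist y' b)
      linarith
    have ht0 : 0 ≤ dist a y / dist a y' := by positivity
    have ht1 : dist a y / dist a y' ≤ 1 := (div_le_one h0).2 h3
    obtain ⟨q, -, hq1, hq2⟩ := hX.geo a (mem_univ _) y' (mem_univ _) _ ht0 ht1
    have hq1' : dist a q = dist a y := by
      have h4 : dist a q = dist a y / dist a y' * dist a y' := hq1
      rw [h4, div_mul_cancel₀ _ h0.ne']
    have hq2' : dist q y' = dist a y' - dist a y := by
      have h4 : dist q y' = (1 - dist a y / dist a y') * dist a y' := hq2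
      rw [h4, sub_mul, one_mul, div_mul_cancel₀ _ h0.ne']
    have h5 : dist q b = dist a b - dist a y := by
      apply le_antisymm
      · have := dist_triangle q y' b
        linarith
      · have := dist_triangle a q b
        linarith
    have hs0 : 0 ≤ dist a y / dist a b := by positivity
    have hs1 : dist a y / dist a b ≤ 1 := by
      rw [div_le_one hD]
      have := (dist_nonneg : 0 ≤ dist y b)
      linarith
    have b1 : Btw (dst X) a y b (dist a y / dist a b) := by
      constructor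
      · show dist a y = dist a y / dist a b * dist a b
        rw [div_mul_cancel₀ _ hD.ne']
      · show dist y b = (1 - dist a y / dist a b) * dist a b
        rw [sub_mul, one_mul, div_mul_cancel₀ _ hD.ne']
        linarith
    have b2 : Btw (dst X) a q b (dist a y / dist a b) := by
      constructor
      · show dist a q = dist a y / dist a b * dist a b
        rw [div_mul_cancel₀ _ hD.ne', hq1']
      · show dist q b = (1 - dist a y / dist a b) * dist a b
        rw [sub_mul, one_mul, div_mul_cancel₀ _ hD.ne', h5]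
    have h6 : dist y q = 0 :=
      hX.uniq (mem_univ _) (mem_univ _) (mem_univ _) (mem_univ _) hs0 hs1 b1 b2
    rw [dist_eq_zero.1 h6, hq2', dist_eq_zero.1 h6, hq1']

/-- Orbit points of a translation: distances are multiples of the translation length. -/
theorem dist_pow_cyc (hX : C0 (dst X) univ) (hG : IsGeometric G X) (g : G) (x : X)
    (hx : ∀ y : X, dist x (g • x) ≤ dist y (g • y)) (n : ℕ) :
    dist x (g ^ n • x) = n * dist x (g • x) := by
  obtain ⟨m, -, hm1, hm2⟩ := hX.geo x (mem_univ _) (g • x) (mem_univ _) (1 / 2) (by norm_num)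
    (by norm_num)
  have hm1' : dist x m = dist x (g • x) / 2 := by
    have h4 : dist x m = 1 / 2 * dist x (g • x) := hm1
    rw [h4]; ring
  have hm2' : dist m (g • x) = dist x (g • x) / 2 := by
    have h4 : dist m (g • x) = (1 - 1 / 2) * dist x (g • x) := hm2
    rw [h4]; ring
  have hm3 : dist m (g • m) = dist x (g • x) := by
    apply le_antisymm
    · have h1 := dist_triangle m (g • x) (g • m)
      rw [hG.isom, hm1', hm2'] at h1
      linarith
    · exact hx m
  let z : ℕ → X := fun k => if k % 2 = 0 then g ^ (k / 2) • x else g ^ (k / 2) • m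
  have hz0 : ∀ k, z (2 * k) = g ^ k • x := by
    intro k
    show (if (2 * k) % 2 = 0 then g ^ (2 * k / 2) • x else g ^ (2 * k / 2) • m) = _
    rw [if_pos (by omega)]
    congr 2
    omega
  have hz1 : ∀ k, z (2 * k + 1) = g ^ k • m := by
    intro k
    show (if (2 * k + 1) % 2 = 0 then g ^ ((2 * k + 1) / 2) • x else g ^ ((2 * k + 1) / 2) • m) = _
    rw [if_neg (by omega)]
    congr 2
    omega
  have hc := hX.chain z (2 * n) (dist x (g • x) / 2) (by positivity) (fun _ _ => mem_univ _)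
    (fun i _ => by
      show dist (z i) (z (i + 1)) = _
      rcases Nat.even_or_odd' i with ⟨k, hk | hk⟩
      · subst hk
        rw [hz0, hz1, hG.isom, hm1']
      · subst hk
        rw [hz1, show 2 * k + 1 + 1 = 2 * (k + 1) by ring, hz0, pow_succ, mul_smul, hG.isom, hm2'])
    (fun i _ => by
      show dist (z i) (z (i + 2)) = _
      rcases Nat.even_or_odd' i with ⟨k, hk | hk⟩
      · subst hk
        rw [show 2 * k + 2 = 2 * (k + 1) by ring, hz0, hz0, pow_succ, mul_smul, hG.isom]
        ring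
      · subst hk
        rw [show 2 * k + 1 + 2 = 2 * (k + 1) + 1 by ring, hz1, hz1, pow_succ, mul_smul, hG.isom, hm3]
        ring)
  have hc' : dist (z 0) (z (2 * n)) = ((2 * n : ℕ) : ℝ) * (dist x (g • x) / 2) := hc
  rw [hz0, show z 0 = x by rw [show 0 = 2 * 0 by ring, hz0, pow_zero, one_smul]] at hc'
  rw [hc']
  push_cast
  ring

theorem dist_zpow_cyc (hX : C0 (dst X) univ) (hG : IsGeometric G X) (g : G) (x : X)
    (hx : ∀ y : X, dist x (g • x) ≤ dist y (g • y)) {i j : ℤ} (hij : i ≤ j) :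
    dist (g ^ i • x) (g ^ j • x) = ((j : ℝ) - i) * dist x (g • x) := by
  obtain ⟨n, hn⟩ := Int.eq_ofNat_of_zero_le (sub_nonneg.2 hij)
  have h1 : g ^ j • x = g ^ i • (g ^ n • x) := by
    rw [← mul_smul, ← zpow_natCast, ← zpow_add]
    congr 2
    omega
  rw [h1, hG.isom, dist_pow_cyc hX hG g x hx]
  have h2 : (j : ℝ) - i = (n : ℝ) := by
    have : ((j - i : ℤ) : ℝ) = ((n : ℤ) : ℝ) := by rw [hn]
    push_cast at this
    exact this
  rw [h2]

/-- The axis of a translation. -/
theorem exists_axis_cyc (hX : C0 (dst X) univ) (hG : IsGeometric G X) (g : G) (x : X)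
    (hx : ∀ y : X, dist x (g • x) ≤ dist y (g • y)) :
    ∃ c : ℝ → X, (∀ v w : ℝ, dist (c v) (c w) = dist x (g • x) * |v - w|) ∧
      ∀ v : ℝ, g • c v = c (v + 1) := by
  have hp : ∀ s : ℝ, ∃ m : X, 0 ≤ s → s ≤ 1 → Btw (dst X) x m (g • x) s := by
    intro s
    by_cases hs : 0 ≤ s ∧ s ≤ 1
    · obtain ⟨m, -, hm⟩ := hX.geo x (mem_univ _) (g • x) (mem_univ _) s hs.1 hs.2
      exact ⟨m, fun _ _ => hm⟩
    · exact ⟨x, fun h1 h2 => absurd ⟨h1, h2⟩ hs⟩
  choose p hp using hp
  set l := dist x (g • x) with hl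
  let c : ℝ → X := fun v => g ^ ⌊v⌋ • p (Int.fract v)
  have hc : ∀ v, c v = g ^ ⌊v⌋ • p (Int.fract v) := fun _ => rfl
  have on_seg : ∀ (v : ℝ) (n : ℤ), -n ≤ ⌊v⌋ → ⌊v⌋ + 1 ≤ n →
      dist (g ^ (-n) • x) (c v) = (v + n) * l ∧ dist (c v) (g ^ n • x) = (n - v) * l := by
    intro v n h1 h2
    have hb := hp (Int.fract v) (Int.fract_nonneg v) (Int.fract_lt_one v).le
    have hb1 : dist x (p (Int.fract v)) = Int.fract v * l := hb.1
    have hb2 : dist (p (Int.fract v)) (g • x) = (1 - Int.fract v) * l := hb.2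
    have hf : Int.fract v = v - ⌊v⌋ := rfl
    have e1 : dist (g ^ (-n) • x) (g ^ ⌊v⌋ • x) = ((⌊v⌋ : ℝ) - (-n : ℤ)) * l :=
      dist_zpow_cyc hX hG g x hx h1
    have e2 : dist (g ^ (⌊v⌋ + 1) • x) (g ^ n • x) = ((n : ℝ) - (⌊v⌋ + 1 : ℤ)) * l :=
      dist_zpow_cyc hX hG g x hx h2
    have e3 : dist (g ^ ⌊v⌋ • x) (c v) = Int.fract v * l := by rw [hc, hG.isom, hb1]
    have e4 : dist (c v) (g ^ (⌊v⌋ + 1) • x) = (1 - Int.fract v) * l := by
      rw [hc, zpow_add_one, mul_smul, hG.isom, hb2]
    have e5 : dist (g ^ (-n) • x) (g ^ n • x) = ((n : ℝ) - (-n : ℤ)) * l :=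
      dist_zpow_cyc hX hG g x hx (by omega)
    push_cast at e1 e2 e5
    have t1 := dist_triangle (g ^ (-n) • x) (g ^ ⌊v⌋ • x) (c v)
    have t2 := dist_triangle (c v) (g ^ (⌊v⌋ + 1) • x) (g ^ n • x)
    have t3 := dist_triangle (g ^ (-n) • x) (c v) (g ^ n • x)
    rw [e1, e3, hf] at t1
    rw [e2, e4, hf] at t2
    rw [e5] at t3
    have t1' : dist (g ^ (-n) • x) (c v) ≤ (v + n) * l := by
      refine t1.trans (le_of_eq ?_)
      ring
    have t2' : dist (c v) (g ^ n • x) ≤ (n - v) * l := by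
      refine t2.trans (le_of_eq ?_)
      ring
    have t3' : (v + n) * l + (n - v) * l ≤ dist (g ^ (-n) • x) (c v) + dist (c v) (g ^ n • x) := by
      refine le_trans (le_of_eq ?_) t3
      ring
    constructor <;> linarith
  have key : ∀ v w : ℝ, v ≤ w → dist (c v) (c w) = (w - v) * l := by
    intro v w hvw
    obtain ⟨n, hn1, hn2, hn3, hn4⟩ : ∃ n : ℤ, -n ≤ ⌊v⌋ ∧ ⌊v⌋ + 1 ≤ n ∧ -n ≤ ⌊w⌋ ∧ ⌊w⌋ + 1 ≤ n := by
      refine ⟨|⌊v⌋| + |⌊w⌋| + 1, ?_, ?_, ?_, ?_⟩
      · have := neg_abs_le ⌊v⌋
        have := abs_nonneg ⌊w⌋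
        omega
      · have := le_abs_self ⌊v⌋
        have := abs_nonneg ⌊w⌋
        omega
      · have := neg_abs_le ⌊w⌋
        have := abs_nonneg ⌊v⌋
        omega
      · have := le_abs_self ⌊w⌋
        have := abs_nonneg ⌊v⌋
        omega
    obtain ⟨a1, a2⟩ := on_seg v n hn1 hn2
    obtain ⟨b1, b2⟩ := on_seg w n hn3 hn4
    have e5 : dist (g ^ (-n) • x) (g ^ n • x) = ((n : ℝ) - (-n : ℤ)) * l :=
      dist_zpow_cyc hX hG g x hx (by omega)
    push_cast at e5
    have hl0 : 0 ≤ l := dist_nonneg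
    rw [seg_dist_cyc hX (a := g ^ (-n) • x) (b := g ^ n • x) (by rw [a1, a2, e5]; ring)
      (by rw [b1, b2, e5]; ring) (by
        rw [a1, b1]
        exact mul_le_mul_of_nonneg_right (by linarith) hl0), a1, b1]
    ring
  refine ⟨c, fun v w => ?_, fun v => ?_⟩
  · rcases le_total v w with h | h
    · rw [key v w h, abs_sub_comm, abs_of_nonneg (sub_nonneg.2 h), mul_comm]
    · rw [dist_comm, key w v h, abs_of_nonneg (sub_nonneg.2 h), mul_comm]
  · rw [hc, hc, Int.floor_add_one, Int.fract_add_one, ← mul_smul, zpow_add_one]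
    congr 1
    exact (Commute.refl g).zpow_right _

theorem CC_cyclic [ProperSpace X] [Nonempty X] (hX : C0 (dst X) univ) (hG : IsGeometric G X)
    (hH : IsCyclic H) (φ : H →* G) : ∃ A : Set X, CC φ A := by
  obtain ⟨h₀, hh₀⟩ := hH.exists_generator
  set g := φ h₀ with hg
  have hφ : ∀ h : H, ∃ k : ℤ, φ h = g ^ k := by
    intro h
    obtain ⟨k, hk⟩ := Subgroup.mem_zpowers_iff.1 (hh₀ h)
    exact ⟨k, by rw [← hk, map_zpow]⟩
  have hφ' : ∀ k : ℤ, φ (h₀ ^ k) = g ^ k := fun k => by rw [map_zpow]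
  obtain ⟨x, hx⟩ := hG.exists_min g
  rcases eq_or_lt_of_le (dist_nonneg : 0 ≤ dist x (g • x)) with h0 | h0
  · have hgx : g • x = x := (dist_eq_zero.1 h0.symm).symm
    have hk : ∀ k : ℤ, g ^ k • x = x := by
      intro k
      have h1 : g ∈ MulAction.stabilizer G x := hgx
      exact (MulAction.stabilizer G x).zpow_mem h1 k
    refine ⟨{x}, ⟨singleton_nonempty x, isClosed_singleton, ?_, ?_, ?_⟩⟩
    · intro y hy y' hy' m t _ _ hb
      rw [mem_singleton_iff.1 hy, mem_singleton_iff.1 hy'] at hb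
      have h1 : dist x m = t * dist x x := hb.1
      rw [dist_self, mul_zero] at h1
      exact (dist_eq_zero.1 h1).symm
    · intro h y hy
      obtain ⟨k, hk'⟩ := hφ h
      rw [mem_singleton_iff.1 hy, hk', hk]
      exact mem_singleton _
    · refine ⟨{x}, subset_rfl, isCompact_singleton, ?_⟩
      intro y hy
      exact ⟨1, x, mem_singleton _, by rw [map_one, one_smul, mem_singleton_iff.1 hy]⟩
  · obtain ⟨c, hc1, hc2⟩ := exists_axis_cyc hX hG g x hx
    have hc2' : ∀ v : ℝ, g⁻¹ • c v = c (v - 1) := by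
      intro v
      rw [inv_smul_eq_iff, hc2, sub_add_cancel]
    have hc3 : ∀ (k : ℤ) (v : ℝ), g ^ k • c v = c (v + k) := by
      intro k
      induction k using Int.induction_on with
      | zero => intro v; simp
      | succ n ih =>
        intro v
        rw [zpow_add_one, mul_smul, hc2, ih]
        congr 1
        push_cast
        ring
      | pred n ih =>
        intro v
        rw [zpow_sub_one, mul_smul, hc2', ih]
        congr 1
        push_cast
        ring
    have hcc : Continuous c := by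
      apply LipschitzWith.continuous (K := ⟨dist x (g • x), dist_nonneg⟩)
      apply LipschitzWith.of_dist_le_mul
      intro v w
      rw [hc1, Real.dist_eq]
      exact le_rfl
    refine ⟨range c, ⟨⟨c 0, mem_range_self _⟩, ?_, ?_, ?_, ?_⟩⟩
    · have ha : AntilipschitzWith (⟨(dist x (g • x))⁻¹, by positivity⟩) c := by
        apply AntilipschitzWith.of_le_mul_dist
        intro v w
        rw [hc1, Real.dist_eq]
        show |v - w| ≤ (dist x (g • x))⁻¹ * (dist x (g • x) * |v - w|)
        rw [← mul_assoc, inv_mul_cancel₀ h0.ne', one_mul]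
      have hu : UniformContinuous c := by
        apply LipschitzWith.uniformContinuous (K := ⟨dist x (g • x), dist_nonneg⟩)
        apply LipschitzWith.of_dist_le_mul
        intro v w
        rw [hc1, Real.dist_eq]
        exact le_rfl
      exact (ha.isClosedEmbedding hu).isClosed_range
    · rintro _ ⟨v, rfl⟩ _ ⟨w, rfl⟩ m t ht0 ht1 hb
      have hb' : Btw (dst X) (c v) (c ((1 - t) * v + t * w)) (c w) t := by
        constructor
        · show dist (c v) (c ((1 - t) * v + t * w)) = t * dist (c v) (c w)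
          rw [hc1, hc1, show v - ((1 - t) * v + t * w) = t * (v - w) by ring, abs_mul,
            abs_of_nonneg ht0]
          ring
        · show dist (c ((1 - t) * v + t * w)) (c w) = (1 - t) * dist (c v) (c w)
          rw [hc1, hc1, show (1 - t) * v + t * w - w = (1 - t) * (v - w) by ring, abs_mul,
            abs_of_nonneg (by linarith : 0 ≤ 1 - t)]
          ring
      have h1 : dist m (c ((1 - t) * v + t * w)) = 0 :=
        hX.uniq (mem_univ _) (mem_univ _) (mem_univ _) (mem_univ _) ht0 ht1 hb hb'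
      rw [dist_eq_zero.1 h1]
      exact mem_range_self _
    · rintro h _ ⟨v, rfl⟩
      obtain ⟨k, hk⟩ := hφ h
      rw [hk, hc3]
      exact mem_range_self _
    · refine ⟨c '' Icc 0 1, image_subset_range _ _, isCompact_Icc.image hcc, ?_⟩
      rintro _ ⟨v, rfl⟩
      refine ⟨h₀ ^ ⌊v⌋, c (Int.fract v), ⟨Int.fract v, ⟨Int.fract_nonneg v,
        (Int.fract_lt_one v).le⟩, rfl⟩, ?_⟩
      rw [hφ', hc3, Int.fract_add_floor]

end CZH
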