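import Mathlib

/-!
# CZH: finitely generated subgroups of CAT(0) groups with a cyclic hierarchy (MP_f09202_al)

Definitions.  `X` is always the CAT(0) space of the big group `G`, `φ : H →* G` the embedding of the
small group; `H` acts on `X` through `φ` (we always write `φ h • x`).
-/

namespace CZH

universe u

open Set Pointwise

/-- `m` divides the pair `x, y` in the ratio `t : 1 - t` for the distance function `d`. -/
def Btw {W : Type u} (d : W → W → ℝ) (x m y : W) (t : ℝ) : Prop :=
  d x m = t * d x y ∧ d m y = (1 - t) * d x y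

/-- The set `S` with the pseudo-distance `d` is a CAT(0) space (Stewart form of the comparison). -/
structure C0 {W : Type u} (d : W → W → ℝ) (S : Set W) : Prop where
  self : ∀ x ∈ S, d x x = 0
  nn : ∀ x ∈ S, ∀ y ∈ S, 0 ≤ d x y
  comm : ∀ x ∈ S, ∀ y ∈ S, d x y = d y x
  tri : ∀ x ∈ S, ∀ y ∈ S, ∀ z ∈ S, d x z ≤ d x y + d y z
  geo : ∀ x ∈ S, ∀ y ∈ S, ∀ t : ℝ, 0 ≤ t → t ≤ 1 → ∃ m ∈ S, Btw d x m y t
  cmp : ∀ p ∈ S, ∀ x ∈ S, ∀ y ∈ S, ∀ m ∈ S, ∀ t : ℝ, 0 ≤ t → t ≤ 1 → Btw d x m y t →
    d p m ^ 2 ≤ (1 - t) * d p x ^ 2 + t * d p y ^ 2 - t * (1 - t) * d x y ^ 2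

/-- the distance of a metric space as a function -/
abbrev dst (X : Type u) [MetricSpace X] : X → X → ℝ := fun x y => dist x y

/-- A subset of a metric space that contains all points between two of its points. -/
def Cvx {X : Type u} [MetricSpace X] (A : Set X) : Prop :=
  ∀ x ∈ A, ∀ y ∈ A, ∀ m : X, ∀ t : ℝ, 0 ≤ t → t ≤ 1 → Btw (dst X) x m y t → m ∈ A

/-- The closed `ρ`-neighbourhood of `A` (points at distance `≤ ρ` from some point of `A`). -/
def Nb {X : Type u} [MetricSpace X] (ρ : ℝ) (A : Set X) : Set X := {x | ∃ a ∈ A, dist x a ≤ ρ}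

section act

variable {G X H : Type u} [Group G] [MetricSpace X] [MulAction G X] [Group H]

/-- `x` is at distance `≤ r` from the `H`-orbit of `o`. -/
def Near (φ : H →* G) (o : X) (r : ℝ) (x : X) : Prop := ∃ h : H, dist x (φ h • o) ≤ r

/-- `A` is a nonempty closed convex set, invariant and cocompact under `H`. -/
structure CC (φ : H →* G) (A : Set X) : Prop where
  ne : A.Nonempty
  closed : IsClosed A
  cvx : Cvx A
  inv : ∀ h : H, ∀ x ∈ A, φ h • x ∈ A
  cpt : ∃ K ⊆ A, IsCompact K ∧ ∀ x ∈ A, ∃ h : H, ∃ k ∈ K, φ h • k = x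

/-- `Z` is a CAT(0) space with an isometric cocompact action of `H`, an equivariant 1-Lipschitz map
`D : Z → X` and a section `s` of `D`, defined and equivariant on the `r`-neighbourhood of the orbit
`H o`, and isometric on the ball of radius `r` at `o`. -/
structure Mdl (φ : H →* G) (o : X) (r : ℝ) (Z : Type u) [MetricSpace Z] [MulAction H Z]
    (D : Z → X) (s : X → Z) : Prop where
  c0 : C0 (dst Z) univ
  isom : ∀ (h : H) (z z' : Z), dist (h • z) (h • z') = dist z z'
  cpt : ∃ K : Set Z, IsCompact K ∧ ∀ z : Z, ∃ h : H, ∃ k ∈ K, h • k = z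
  lip : ∀ z z' : Z, dist (D z) (D z') ≤ dist z z'
  equi : ∀ (h : H) (z : Z), D (h • z) = φ h • D z
  sec : ∀ x, Near φ o r x → D (s x) = x
  sequi : ∀ x, Near φ o r x → ∀ h : H, s (φ h • x) = h • s x
  siso : ∀ x y, dist x o ≤ r → dist y o ≤ r → dist (s x) (s y) = dist x y

/-- Property (LL): models exist at every scale `r`. -/
def LL (φ : H →* G) (o : X) : Prop :=
  ∀ r : ℝ, ∃ (Z : Type u) (_ : MetricSpace Z) (_ : MulAction H Z) (D : Z → X) (s : X → Z),
    Mdl φ o r Z D s

end act

/-- Finite cyclic hierarchies: `Hier 0 H`: `H` is cyclic; `Hier (n + 1) H`: `H` acts on a tree, the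
(setwise) stabilizers of the edges are cyclic, the stabilizers of the vertices are in `Hier n`. -/
def Hier : ℕ → ∀ (H : Type u) [Group H], Prop
  | 0, H, _ => IsCyclic H
  | n + 1, H, _ => ∃ (V : Type u) (T : SimpleGraph V) (_ : MulAction H V), T.IsTree ∧
      (∀ (h : H) (a b : V), T.Adj a b → T.Adj (h • a) (h • b)) ∧
      (∀ a b : V, T.Adj a b → IsCyclic (MulAction.stabilizer H ({a, b} : Set V))) ∧
      ∀ a : V, Hier n (MulAction.stabilizer H a)

/-- A CAT(0) space: geodesic, and for every geodesic triangle the distance from a vertex `p` to a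
point `m` of the opposite side `[x, y]` is at most the corresponding distance in a Euclidean
comparison triangle. -/
structure IsCAT0 (X : Type u) [MetricSpace X] : Prop where
  geodesic : ∀ x y : X, ∃ γ : ℝ → X, γ 0 = x ∧ γ 1 = y ∧
    ∀ s ∈ Icc (0 : ℝ) 1, ∀ t ∈ Icc (0 : ℝ) 1, dist (γ s) (γ t) = |s - t| * dist x y
  comparison : ∀ (p x y m : X) (p' x' y' m' : EuclideanSpace ℝ (Fin 2)),
    dist p' x' = dist p x → dist p' y' = dist p y → dist x' y' = dist x y →
    dist x m + dist m y = dist x y → dist x' m' = dist x m → dist m' y' = dist m y →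
    dist p m ≤ dist p' m'

/-- A geometric action: isometric, properly discontinuous (Bridson-Haefliger) and cocompact. -/
structure IsGeometric (G X : Type u) [Group G] [MetricSpace X] [MulAction G X] : Prop where
  isom : ∀ (g : G) (x y : X), dist (g • x) (g • y) = dist x y
  proper : ∀ x : X, ∃ r > 0,
    {g : G | (((fun y => g • y) '' Metric.ball x r) ∩ Metric.ball x r).Nonempty}.Finite
  cocompact : ∃ K : Set X, IsCompact K ∧ ∀ x : X, ∃ g : G, ∃ k ∈ K, g • k = x

/-- A CAT(0) group: a group acting geometrically on some (nonempty) CAT(0) space. -/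
def CAT0Group (G : Type u) [Group G] : Prop :=
  ∃ (X : Type u) (_ : MetricSpace X) (_ : MulAction G X), Nonempty X ∧ IsCAT0 X ∧ IsGeometric G X

end CZH
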