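import Pool.Agent.CZH.SubT

/-!
# CZH/FG: vertex stabilizers are finitely generated

`H` finitely generated acts on a tree `T`, the pointwise stabilizers of the edges are finitely
generated, finitely many orbits of vertices: then the stabilizers of the vertices are finitely generated.

## Proof
Let `S` be a finite generating set of `H`, `v₀ : V`, `F` finite meeting all orbits of vertices; `K ⊇ F`, `v₀`, `s • v₀`
(`s ∈ S`) finite and connected (`exists_finite_conn`).
An arrow is a triple `(a, h, b)` with `a, b ∈ K` and `h • a = b`.  Let `Γ` be the finite set of the arrows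
 (i) `(v₀, s, s • v₀)`, `s ∈ S`;
 (ii) for all pairs `(a, b)`, `(a', b')` of adjacent pairs in `K` that are in the same orbit, with one chosen `h`,
 `h • a = a'`, `h • b = b'`: `(a, h, a')` and `(b, h, b')`;
 (iii) for adjacent `a, b ∈ K` and `c` in a finite generating set of `stabilizer a ⊓ stabilizer b`: `(a, c, a)`,
 `(b, c, b)`.
`Gr a h b` (inductive predicate): generated by `Γ`, identities `(a, 1, a)` (`a ∈ K`), inverses
`(a, h, b) ↦ (b, h⁻¹, a)`, composition `(a, h, b), (b, h', c) ↦ (a, h' h, c)`.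
Claim: `Gr a h b` holds for every arrow.  Let `R` be the relation on `H × K`:
`(h, a) ≈ (h', a')` iff `Gr a (h'⁻¹ h) a'` (equivalence relation; `h • a = h' • a'`).
 (1) if `a ~ b`, `a' ~ b'` in `K`, `h • a = h' • a'` and `h • b = h' • b'` then `(h, a) ≈ (h', a')` and
 `(h, b) ≈ (h', b')`: by (ii) and (iii) (`h'⁻¹ h` is the chosen element times an element of the stabilizer).
 (2) a `step` `(h, a) → (h', a')`: `(h, a) ≈ (h', a')`, or `h = h'` and `a ~ a'` in `K`.  Any two elements of `H × K`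
 are joined by steps: `(h, a)` to `(h, v₀)` inside `K`; `(1, v₀)` to `(h, v₀)`: the set of such `h` is a subgroup
 (steps are invariant under left multiplication) and contains `s`: `(s, v₀) ≈ (1, s • v₀)` by (i) and
 `(1, s • v₀)` is joined to `(1, v₀)` inside `K`.
 (3) if `(h, a)` and `(h', a')` are joined by steps and `h • a = h' • a'` then `(h, a) ≈ (h', a')`: collect the
 `≈` steps: a chain `x₀ ≈ y₀ → x₁ ≈ y₁ → ... → x_n ≈ y_n` with `n` edge steps `y_i → x_{i+1}` (`y_i = (h, a)`,
 `x_{i+1} = (h, b)`, `a ~ b`); images in `T` give a closed walk of length `n`.  Strong induction on `n`: `n = 0`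
 clear; if `n > 0` the closed walk in the tree is not a path, it backtracks: for some `i` the images of
 `y_{i}`'s start and of `x_{i+2}` agree (Mathlib: `IsAcyclic`, a walk without backtracking is a path,
 `SimpleGraph.IsAcyclic.isPath_iff_isChain`, and a closed path has length `0`), and (1) applied to the edges
 `(y_i, x_{i+1})` and (reversed) `(y_{i+1}, x_{i+2})` gives `y_i ≈ x_{i+2}`: two edge steps are removed.
 Apply (3) to `(h, a)` and `(1, h • a)`: `Gr a h (h • a)`.
Finite generation: `a ∈ K`; for every `b ∈ K` in the orbit of `a` choose `τ_b` with `τ_b • a = b`, `τ_a = 1`.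
For every arrow `(b, h, c)` with `b`, so `c`, in the orbit of `a`, `τ_c⁻¹ h τ_b ∈ ⟨τ_{c'}⁻¹ γ τ_{b'} : (b', γ, c') ∈ Γ, b'
in the orbit⟩` by induction on `Gr`.  So `stabilizer a` (arrows `(a, h, a)`) is contained in this finitely
generated subgroup, and the generators are in the stabilizer.  For general `v : V`: `v = h • a`, `a ∈ F ⊆ K`, and
`stabilizer v = h (stabilizer a) h⁻¹` (`MulAction.stabilizer_smul_eq_stabilizer_map_conj`).
-/

namespace CZH

universe u v

open Set MulAction

/-- a locally injective homomorphism from a connected graph to a forest is injective -/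
theorem fg_chain {A : Type u} {V : Type v} {G : SimpleGraph A} {T : SimpleGraph V} (f : G →g T)
    (hloc : ∀ x y z, G.Adj x y → G.Adj x z → f y = f z → y = z) {u v : A} (p : G.Walk u v)
    (hp : p.IsPath) : List.IsChain (· ≠ ·) (p.map f).edges := by
  induction p with
  | nil => simp
  | @cons u w v h p' ih =>
    rw [SimpleGraph.Walk.cons_isPath_iff] at hp
    have h1 := ih hp.1
    cases p' with
    | nil => simp
    | @cons _ x _ h' p'' =>
      simp only [SimpleGraph.Walk.map_cons, SimpleGraph.Walk.edges_cons] at h1 ⊢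
      rw [List.isChain_cons_cons]
      refine ⟨?_, h1⟩
      intro he
      have hne : f u ≠ f w := (f.map_adj h).ne
      have hux : f u = f x := by
        rw [Sym2.eq_iff] at he
        rcases he with ⟨h2, _⟩ | ⟨h2, _⟩
        · exact absurd h2 hne
        · exact h2
      have := hloc w u x h.symm h' hux
      apply hp.2
      rw [this]
      simp

theorem fg_inj {A : Type u} {V : Type v} {G : SimpleGraph A} {T : SimpleGraph V} (f : G →g T)
    (hloc : ∀ x y z, G.Adj x y → G.Adj x z → f y = f z → y = z) (hG : G.Preconnected)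
    (hT : T.IsAcyclic) : Function.Injective f := by
  classical
  intro u v huv
  obtain ⟨p, hp⟩ := (hG u v).exists_isPath
  have h1 := fg_chain f hloc p hp
  rw [← hT.isPath_iff_isChain] at h1
  have h2 : ((p.map f).copy rfl huv.symm).IsPath := by
    rw [SimpleGraph.Walk.isPath_copy]
    exact h1
  rw [SimpleGraph.Walk.isPath_iff_eq_nil] at h2
  have h3 : ((p.map f).copy rfl huv.symm).length = 0 := by rw [h2]; rfl
  rw [SimpleGraph.Walk.length_copy, SimpleGraph.Walk.length_map] at h3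
  exact SimpleGraph.Walk.eq_of_length_eq_zero h3

/-- the arrows: `Gr a h b` is a set of triples with `a, b ∈ K`, `h • a = b`, closed under composition
and containing enough triples; then it contains all triples -/
theorem fg_full {H V : Type u} [Group H] [MulAction H V] (T : SimpleGraph V) (hT : T.IsAcyclic)
    (adj : ∀ (h : H) (a b : V), T.Adj a b → T.Adj (h • a) (h • b)) (K : Set V)
    (hK : ∀ a ∈ K, ∀ b ∈ K, Chain T K a b) (v₀ : V) (hv₀ : v₀ ∈ K) (S : Set H)
    (hS : Subgroup.closure S = ⊤) (hSK : ∀ s ∈ S, s • v₀ ∈ K) (Gr : V → H → V → Prop)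
    (gsmul : ∀ a h b, Gr a h b → h • a = b) (gid : ∀ a ∈ K, Gr a 1 a)
    (ginv : ∀ a h b, Gr a h b → Gr b h⁻¹ a)
    (gcomp : ∀ a h b h' c, Gr a h b → Gr b h' c → Gr a (h' * h) c)
    (gS : ∀ s ∈ S, Gr v₀ s (s • v₀))
    (gE : ∀ (a b a' b' : V) (h : H), a ∈ K → b ∈ K → a' ∈ K → b' ∈ K → T.Adj a b → T.Adj a' b' →
      h • a = a' → h • b = b' → Gr a h a')
    (a : V) (ha : a ∈ K) (b : V) (hb : b ∈ K) (h : H) (hab : h • a = b) : Gr a h b := by
  -- the equivalence relation
  let st : Setoid (H × K) :=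
    { r := fun x y => Gr x.2 (y.1⁻¹ * x.1) y.2
      iseqv := by
        refine ⟨fun x => ?_, fun {x y} hxy => ?_, fun {x y z} hxy hyz => ?_⟩
        · show Gr x.2 (x.1⁻¹ * x.1) x.2
          rw [inv_mul_cancel]
          exact gid _ x.2.2
        · show Gr y.2 (x.1⁻¹ * y.1) x.2
          have h1 := ginv _ _ _ hxy
          rwa [mul_inv_rev, inv_inv] at h1
        · show Gr x.2 (z.1⁻¹ * x.1) z.2
          have h1 := gcomp _ _ _ _ _ hxy hyz
          rwa [mul_assoc, mul_inv_cancel_left] at h1 }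
  have hst : ∀ x y : H × K, st.r x y ↔ Gr x.2 (y.1⁻¹ * x.1) y.2 := fun x y => Iff.rfl
  have himg : ∀ x y : H × K, st.r x y → x.1 • (x.2 : V) = y.1 • (y.2 : V) := by
    intro x y hxy
    have h1 := gsmul _ _ _ hxy
    rw [← h1, smul_smul, mul_inv_cancel_left]
  let pr : Quotient st → V := Quotient.lift (fun x : H × K => x.1 • (x.2 : V)) himg
  let mk : H × K → Quotient st := fun x => Quotient.mk st x
  have hpr : ∀ x, pr (mk x) = x.1 • (x.2 : V) := fun x => rfl
  have hmk : ∀ x y, mk x = mk y ↔ Gr x.2 (y.1⁻¹ * x.1) y.2 := by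
    intro x y
    constructor
    · intro hxy
      exact Quotient.exact hxy
    · intro hxy
      exact Quotient.sound hxy
  -- the graph
  let Γ : SimpleGraph (Quotient st) :=
    { Adj := fun X Y => ∃ (g : H) (x y : K), T.Adj x y ∧ X = mk (g, x) ∧ Y = mk (g, y)
      symm := ⟨fun X Y ⟨g, x, y, h1, h2, h3⟩ => ⟨g, y, x, h1.symm, h3, h2⟩⟩
      loopless := ⟨fun X ⟨g, x, y, h1, h2, h3⟩ => by
        have h4 : pr (mk (g, x)) = pr (mk (g, y)) := by rw [← h2, ← h3]
        rw [hpr, hpr] at h4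
        have h5 : (x : V) = y := smul_left_cancel g h4
        rw [h5] at h1
        exact h1.ne rfl⟩ }
  let f : Γ →g T :=
    { toFun := pr
      map_rel' := by
        rintro X Y ⟨g, x, y, h1, rfl, rfl⟩
        rw [hpr, hpr]
        exact adj g x y h1 }
  have hf : ∀ X, f X = pr X := fun _ => rfl
  have hloc : ∀ X Y Z, Γ.Adj X Y → Γ.Adj X Z → f Y = f Z → Y = Z := by
    rintro X Y Z ⟨g, x, y, h1, hX, rfl⟩ ⟨g', x', z, h1', hX', rfl⟩ he
    rw [hf, hf, hpr, hpr] at he
    have h2 : pr (mk (g, x)) = pr (mk (g', x')) := by rw [← hX, ← hX']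
    rw [hpr, hpr] at h2
    simp only at he h2
    rw [hmk]
    refine gE y x z x' (g'⁻¹ * g) y.2 x.2 z.2 x'.2 h1.symm h1'.symm ?_ ?_
    · rw [mul_smul, he, inv_smul_smul]
    · rw [mul_smul, h2, inv_smul_smul]
  -- connectedness
  have hinK : ∀ (g : H) (x y : V) (hx : x ∈ K) (hy : y ∈ K), Γ.Reachable (mk (g, ⟨x, hx⟩))
      (mk (g, ⟨y, hy⟩)) := by
    intro g x y hx hy
    have hc := hK x hx y hy
    unfold Chain at hc
    induction hc with
    | refl => exact SimpleGraph.Reachable.refl _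
    | @tail z w _ hzw ih =>
      refine (ih hzw.2.1).trans (SimpleGraph.Adj.reachable ?_)
      exact ⟨g, ⟨z, hzw.2.1⟩, ⟨w, hy⟩, hzw.1, rfl, rfl⟩
  have hgen : ∀ k : H, ∀ g : H, Γ.Reachable (mk (g * k, ⟨v₀, hv₀⟩)) (mk (g, ⟨v₀, hv₀⟩)) := by
    intro k
    have hk : k ∈ Subgroup.closure S := by rw [hS]; trivial
    induction hk using Subgroup.closure_induction with
    | mem s hs =>
      intro g
      have h1 : mk (g * s, ⟨v₀, hv₀⟩) = mk (g, ⟨s • v₀, hSK s hs⟩) := by
        rw [hmk]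
        simp only
        rw [inv_mul_cancel_left]
        exact gS s hs
      rw [h1]
      exact hinK g _ _ _ _
    | one =>
      intro g
      rw [mul_one]
    | mul x y _ _ hx hy =>
      intro g
      rw [← mul_assoc]
      exact (hy (g * x)).trans (hx g)
    | inv x _ hx =>
      intro g
      have h1 := hx (g * x⁻¹)
      rw [inv_mul_cancel_right] at h1
      exact h1.symm
  have hconn : Γ.Preconnected := by
    have key : ∀ X, Γ.Reachable X (mk (1, ⟨v₀, hv₀⟩)) := by
      intro X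
      obtain ⟨⟨g, x, hx⟩, rfl⟩ := Quotient.exists_rep X
      refine (hinK g x v₀ hx hv₀).trans ?_
      have h1 := hgen g 1
      rwa [one_mul] at h1
    intro X Y
    exact (key X).trans (key Y).symm
  have hinj := fg_inj f hloc hconn hT
  have h1 : mk (h, ⟨a, ha⟩) = mk (1, ⟨b, hb⟩) := by
    apply hinj
    rw [hf, hf, hpr, hpr]
    simp only
    rw [hab, one_smul]
  rw [hmk] at h1
  simpa using h1

theorem fg_stabilizer {H V : Type u} [Group H] [MulAction H V] (hfg : Group.FG H)
    (T : SimpleGraph V) (hT : T.IsTree)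
    (adj : ∀ (h : H) (a b : V), T.Adj a b → T.Adj (h • a) (h • b))
    (hF : ∃ F : Set V, F.Finite ∧ ∀ v, ∃ h : H, ∃ w ∈ F, h • w = v)
    (hE : ∀ a b, T.Adj a b → (stabilizer H a ⊓ stabilizer H b).FG) (v : V) :
    (stabilizer H v).FG := by
  classical
  obtain ⟨F, hFf, hFo⟩ := hF
  obtain ⟨S, hS, hSf⟩ := Group.fg_iff.mp hfg
  obtain ⟨v₀⟩ := hT.connected.nonempty
  obtain ⟨K, hKf, hKF, hKc⟩ := exists_finite_conn T hT.connected
    (F ∪ {v₀} ∪ (fun s : H => s • v₀) '' S)
    ((hFf.union (Set.finite_singleton _)).union (hSf.image _))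
  have hv₀ : v₀ ∈ K := hKF (Or.inl (Or.inr rfl))
  have hSK : ∀ s ∈ S, s • v₀ ∈ K := fun s hs => hKF (Or.inr ⟨s, hs, rfl⟩)
  have hFK : F ⊆ K := fun x hx => hKF (Or.inl (Or.inl hx))
  -- representatives of the orbits
  let rp : V → V := fun b => (Quotient.mk (orbitRel H V) b).out
  have hrp1 : ∀ b, ∃ t : H, t • rp b = b := by
    intro b
    have h1 : (orbitRel H V).r (rp b) b := Quotient.exact (Quotient.out_eq _)
    have h2 : (orbitRel H V).r b (rp b) := (orbitRel H V).symm' h1
    obtain ⟨t, ht⟩ := h2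
    exact ⟨t, ht⟩
  have hrp2 : ∀ (h : H) (b : V), rp (h • b) = rp b := by
    intro h b
    have h1 : (Quotient.mk (orbitRel H V) (h • b)) = Quotient.mk (orbitRel H V) b :=
      Quotient.sound ⟨h, rfl⟩
    show (Quotient.mk (orbitRel H V) (h • b)).out = _
    rw [h1]
  choose τ hτ using hrp1
  -- the chosen elements
  let h0 : V × V × V × V → H := fun q =>
    if hq : ∃ h : H, h • q.1 = q.2.2.1 ∧ h • q.2.1 = q.2.2.2 then hq.choose else 1
  have hh0 : ∀ (a b a' b' : V) (h : H), h • a = a' → h • b = b' →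
      h0 (a, b, a', b') • a = a' ∧ h0 (a, b, a', b') • b = b' := by
    intro a b a' b' h h1 h2
    have hq : ∃ h : H, h • a = a' ∧ h • b = b' := ⟨h, h1, h2⟩
    have h3 : h0 (a, b, a', b') = hq.choose := dif_pos hq
    rw [h3]
    exact hq.choose_spec
  let C : V × V → Set H := fun q =>
    if hq : T.Adj q.1 q.2 then ((Subgroup.fg_iff _).mp (hE q.1 q.2 hq)).choose else ∅
  have hC : ∀ a b, T.Adj a b → Subgroup.closure (C (a, b)) = stabilizer H a ⊓ stabilizer H b ∧
      (C (a, b)).Finite := by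
    intro a b hab
    have h3 : C (a, b) = ((Subgroup.fg_iff _).mp (hE a b hab)).choose := dif_pos hab
    rw [h3]
    exact ((Subgroup.fg_iff _).mp (hE a b hab)).choose_spec
  have hCf : ∀ q, (C q).Finite := by
    rintro ⟨a, b⟩
    by_cases hab : T.Adj a b
    · exact (hC a b hab).2
    · have h3 : C (a, b) = ∅ := dif_neg hab
      rw [h3]
      exact Set.finite_empty
  -- the finite set of arrows
  let A1 : Set (V × H × V) := (fun s => (v₀, s, s • v₀)) '' S
  let A2 : Set (V × H × V) := (fun q : V × V × V × V => (q.1, h0 q, h0 q • q.1)) ''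
    (K ×ˢ (K ×ˢ (K ×ˢ K)))
  let A3 : Set (V × H × V) := ⋃ q ∈ K ×ˢ K, (fun c => (q.1, c, c • q.1)) '' C q
  let A : Set (V × H × V) := A1 ∪ A2 ∪ A3
  have hAf : A.Finite := by
    refine ((hSf.image _).union ?_).union ?_
    · exact (hKf.prod (hKf.prod (hKf.prod hKf))).image _
    · exact (hKf.prod hKf).biUnion (fun q _ => (hCf q).image _)
  have hAs : ∀ t ∈ A, t.2.1 • t.1 = t.2.2 := by
    rintro t ((⟨s, _, rfl⟩ | ⟨q, _, rfl⟩) | ht)
    · rfl
    · rfl
    · obtain ⟨q, hq⟩ := Set.mem_iUnion.mp ht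
      obtain ⟨_, c, _, rfl⟩ := Set.mem_iUnion.mp hq
      rfl
  let gens : V → Set H := fun r =>
    (fun t : V × H × V => (τ t.2.2)⁻¹ * t.2.1 * τ t.1) '' {t | t ∈ A ∧ rp t.1 = r}
  let L : V → Subgroup H := fun r => Subgroup.closure (gens r)
  have hLfg : ∀ r, (L r).FG := fun r =>
    (Subgroup.fg_iff _).mpr ⟨gens r, rfl, (hAf.subset (fun t ht => ht.1)).image _⟩
  let Gr : V → H → V → Prop := fun b h c => b ∈ K ∧ c ∈ K ∧ h • b = c ∧
    (τ c)⁻¹ * h * τ b ∈ L (rp b)
  have gid : ∀ a ∈ K, Gr a 1 a := by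
    intro a ha
    refine ⟨ha, ha, one_smul _ _, ?_⟩
    rw [mul_one, inv_mul_cancel]
    exact one_mem _
  have ginv : ∀ a h b, Gr a h b → Gr b h⁻¹ a := by
    rintro a h b ⟨h1, h2, h3, h4⟩
    refine ⟨h2, h1, by rw [← h3, inv_smul_smul], ?_⟩
    have h5 : rp b = rp a := by rw [← h3, hrp2]
    rw [h5]
    have h6 := inv_mem h4
    have h7 : ((τ b)⁻¹ * h * τ a)⁻¹ = (τ a)⁻¹ * h⁻¹ * τ b := by group
    rwa [h7] at h6
  have gcomp : ∀ a h b h' c, Gr a h b → Gr b h' c → Gr a (h' * h) c := by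
    rintro a h b h' c ⟨h1, h2, h3, h4⟩ ⟨_, k2, k3, k4⟩
    refine ⟨h1, k2, by rw [mul_smul, h3, k3], ?_⟩
    have h5 : rp b = rp a := by rw [← h3, hrp2]
    rw [h5] at k4
    have h6 := mul_mem k4 h4
    have h7 : (τ c)⁻¹ * h' * τ b * ((τ b)⁻¹ * h * τ a) = (τ c)⁻¹ * (h' * h) * τ a := by group
    rwa [h7] at h6
  have gA : ∀ t ∈ A, t.1 ∈ K → t.2.2 ∈ K → Gr t.1 t.2.1 t.2.2 := by
    intro t ht h1 h2
    exact ⟨h1, h2, hAs t ht, Subgroup.subset_closure ⟨t, ⟨ht, rfl⟩, rfl⟩⟩
  have gS : ∀ s ∈ S, Gr v₀ s (s • v₀) := fun s hs =>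
    gA (v₀, s, s • v₀) (Or.inl (Or.inl ⟨s, hs, rfl⟩)) hv₀ (hSK s hs)
  have gE : ∀ (a b a' b' : V) (h : H), a ∈ K → b ∈ K → a' ∈ K → b' ∈ K → T.Adj a b →
      T.Adj a' b' → h • a = a' → h • b = b' → Gr a h a' := by
    intro a b a' b' h ha hb ha' hb' hab _ h1 h2
    obtain ⟨k1, k2⟩ := hh0 a b a' b' h h1 h2
    set g := h0 (a, b, a', b') with hg
    have e1 : Gr a g a' := by
      have h3 := gA (a, g, g • a) (Or.inl (Or.inr ⟨(a, b, a', b'), ⟨ha, hb, ha', hb'⟩, rfl⟩))
        ha (by rw [k1]; exact ha')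
      simp only at h3
      rwa [k1] at h3
    have e2 : g⁻¹ * h ∈ stabilizer H a ⊓ stabilizer H b := by
      rw [Subgroup.mem_inf, mem_stabilizer_iff, mem_stabilizer_iff]
      refine ⟨?_, ?_⟩
      · rw [mul_smul, h1, ← k1, inv_smul_smul]
      · rw [mul_smul, h2, ← k2, inv_smul_smul]
    have e3 : ∀ c ∈ Subgroup.closure (C (a, b)), Gr a c a := by
      intro c hc
      induction hc using Subgroup.closure_induction with
      | mem c hc =>
        have h4 : c ∈ stabilizer H a ⊓ stabilizer H b := by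
          rw [← (hC a b hab).1]
          exact Subgroup.subset_closure hc
        have h5 : c • a = a := (Subgroup.mem_inf.mp h4).1
        have h3 := gA (a, c, c • a) (Or.inr (Set.mem_iUnion.mpr ⟨(a, b),
          Set.mem_iUnion.mpr ⟨⟨ha, hb⟩, c, hc, rfl⟩⟩)) ha (by rw [h5]; exact ha)
        simp only at h3
        rwa [h5] at h3
      | one => exact gid a ha
      | mul x y _ _ hx hy => exact gcomp _ _ _ _ _ hy hx
      | inv x _ hx => exact ginv _ _ _ hx
    rw [← (hC a b hab).1] at e2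
    have e4 := gcomp _ _ _ _ _ (e3 _ e2) e1
    rwa [mul_inv_cancel_left] at e4
  have hfull := fg_full T hT.isAcyclic adj K hKc v₀ hv₀ S hS hSK Gr (fun a h b hh => hh.2.2.1)
    gid ginv gcomp gS gE
  -- the stabilizers of the representatives
  obtain ⟨h, w, hw, rfl⟩ := hFo v
  have hwK := hFK hw
  have hst : stabilizer H (rp w) = L (rp w) := by
    apply le_antisymm
    · intro g hg
      rw [mem_stabilizer_iff] at hg
      have h1 : (τ w * g * (τ w)⁻¹) • w = w := by
        have h2 : (τ w)⁻¹ • w = rp w := by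
          rw [inv_smul_eq_iff]
          exact (hτ w).symm
        rw [mul_smul, mul_smul, h2, hg, hτ]
      have h3 := hfull w hwK w hwK _ h1
      have h4 := h3.2.2.2
      have h5 : (τ w)⁻¹ * (τ w * g * (τ w)⁻¹) * τ w = g := by group
      rwa [h5] at h4
    · refine (Subgroup.closure_le _).mpr ?_
      rintro x ⟨t, ⟨ht, hr⟩, rfl⟩
      have h1 := hAs t ht
      show (τ t.2.2)⁻¹ * t.2.1 * τ t.1 ∈ stabilizer H (rp w)
      rw [mem_stabilizer_iff, mul_smul, mul_smul]
      have h2 : rp t.2.2 = rp w := by rw [← h1, hrp2, hr]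
      have h3 : τ t.1 • rp w = t.1 := by
        rw [← hr]; exact hτ _
      rw [h3, h1]
      have h4 : τ t.2.2 • rp w = t.2.2 := by
        rw [← h2]; exact hτ _
      rw [inv_smul_eq_iff, h4]
  have hv : h • w = (h * τ w) • rp w := by rw [mul_smul, hτ]
  rw [hv, stabilizer_smul_eq_stabilizer_map_conj, hst]
  obtain ⟨S', hS', hSf'⟩ := (Subgroup.fg_iff _).mp (hLfg (rp w))
  rw [← hS', MonoidHom.map_closure]
  exact (Subgroup.fg_iff _).mpr ⟨_, rfl, hSf'.image _⟩

end CZH
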