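import Pool.Agent.CZH.FamDefs
import Pool.Agent.CZH.Local

/-!
# CZH/FamA: the vertex spaces of a family: CAT(0), isometric sections, equivariance

Notation: `i = iv v`, `g = hv v`, so `g • rep i = v`; `sW v x = pt i g (s i (φ g⁻¹ • x))`.

## Proofs
`fib`: fix `v`. The map `co : w ↦ k • z` where `w = pt i (g * k) z` (for `π w = v`; `i = iv v` by `ivr`,
`k = g⁻¹ h` is in the stabilizer of `rep i`) is distance preserving from the fibre onto `Z i`: use
`C0.transfer`, or better the opposite direction `C0.image`-like: every `w` in the fibre is at distance `0`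
from `pt i g (co w)`.  Direct proof is also easy: `same` and `δ_pt'` for the pairs; for three or four points of
the fibre of `v` write all of them as `pt (iv v) (g * k_j) z_j` (`v = π w` and `same (pt (iv v) g _) w`), then
`δ (pt i (g k_1) z_1) (pt i (g k_2) z_2) = dist (k_1 • z_1) (k_2 • z_2)` (`δ_pt`, `mdl.isom`) and use
`(mdl i).c0` for the points `k_j • z_j`; for `geo` the point `pt i g m`.
`δ_pt2` is this formula.
`δ_smul`: `δ_pt` with `(k h)⁻¹ (k h') = h⁻¹ h'`.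
`Dlip`: `same`, `δ_pt'`: `dist (φ h • D z) (φ (h k) • D z') = dist (D z) (φ k • D z') = dist (D z) (D (k • z'))
≤ dist z (k • z')`.
`nearU`: `φ g⁻¹ • x ∈ U (g⁻¹ • a) (g⁻¹ • b)` (`Ueq`), `g⁻¹ • a = rep i`, `near`.
`Ds`: `nearU` gives `Near .. (r' - 1)`, so `Near .. r'`, `(mdl i).sec`.
`iso`: with `g = hv a`, `i = iv a`, `U' = U (rep i) (g⁻¹ • b)`, `sW a x = pt i g (s i (φ g⁻¹ • x))`, so by `δ_pt`
the left side is `dist (s i x') (s i y')`, `x' = φ g⁻¹ • x`, `y' = φ g⁻¹ • y` in `U'`. Apply `local_iso` to `U'` and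
`s i`: if `x', y' ∈ U'` and `dist x' y' ≤ 1` then `x'` is `Near (r'-1)`: `dist x' (φ k • o) ≤ r' - 1`, `k` in the
stabilizer, so `φ k⁻¹ • x'`, `φ k⁻¹ • y'` are in the ball of radius `r'` at `o`, `siso` and `sequi`
(`s i (φ k⁻¹ • x') = k⁻¹ • s i x'`, both points are `Near r'`), `isom`.
`se`: `k • sW v x = pt i (k g) (s i x')`, `sW (k • v) (φ k • x) = pt i g' (s i (φ g'⁻¹ k g • x'))`, where
`g' = hv (k • v)` (`iv (k • v) = iv v = i` by `ivr`, `hvr`), `x' = φ g⁻¹ • x`, `c = g'⁻¹ k g` stabilizes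
`rep i`; `δ = dist (s i x') (c⁻¹ • s i (φ c • x'))` (`δ_pt`) `= 0` by `sequi`.  (Take care with the
dependence on `iv (k • v) = iv v`: generalise, e.g. prove first: for all `j g'` with `g' • rep j = k • v` the
distance from `k • sW v x` to `pt j g' (s j (φ g'⁻¹ • φ k • x))` is `0`; there `j = iv v` can be substituted.)
-/

namespace CZH

universe u

open Set MulAction

namespace Fam

variable {G X H V : Type u} [Group G] [MetricSpace X] [MulAction G X] [Group H] {φ : H →* G}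
  {o : X} [MulAction H V] (F : Fam φ o V)

theorem δ_pt2 (i : F.R) (g : H) (k₁ k₂ : stabilizer H (F.rep i)) (z₁ z₂ : F.Z i) :
    F.δ (F.pt i (g * k₁) z₁) (F.pt i (g * k₂) z₂) = dist (k₁ • z₁) (k₂ • z₂) := by
  have e : (g * (k₁ : H)) * ((k₁⁻¹ * k₂ : stabilizer H (F.rep i)) : H) = g * k₂ := by
    rw [Subgroup.coe_mul, Subgroup.coe_inv, mul_assoc, mul_inv_cancel_left]
  rw [← e, F.δ_pt' i (g * k₁) z₁ z₂ (k₁⁻¹ * k₂), ← (F.mdl i).isom k₁, ← mul_smul,
    mul_inv_cancel_left]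

/-- normal form of the points of the fibre over `v` -/
theorem normal (v : V) (w : F.W) (e : F.π w = v) :
    ∃ (k : stabilizer H (F.rep (F.iv v))) (z : F.Z (F.iv v)),
      w = F.pt (F.iv v) (F.hv v * k) z := by
  obtain ⟨j, h, z, rfl⟩ := F.exists_pt w
  rw [F.π_pt] at e
  have hj : F.iv v = j := by rw [← e, F.ivr]
  subst hj
  refine ⟨⟨(F.hv v)⁻¹ * h, ?_⟩, z, ?_⟩
  · rw [mem_stabilizer_iff, mul_smul, e]
    nth_rewrite 2 [← F.hvr v]
    rw [← mul_smul, inv_mul_cancel, one_smul]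
  · show F.pt (F.iv v) h z = F.pt (F.iv v) (F.hv v * ((F.hv v)⁻¹ * h)) z
    rw [mul_inv_cancel_left]

theorem π_normal (v : V) (k : stabilizer H (F.rep (F.iv v))) (z : F.Z (F.iv v)) :
    F.π (F.pt (F.iv v) (F.hv v * k) z) = v := by
  rw [F.π_pt, mul_smul, k.2, F.hvr]

theorem fib (v : V) : C0 F.δ {w | F.π w = v} := by
  have hc := (F.mdl (F.iv v)).c0
  constructor
  · intro x hx
    obtain ⟨k, z, rfl⟩ := F.normal v x hx
    rw [F.δ_pt2, dist_self]
  · intro x hx y hy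
    obtain ⟨k, z, rfl⟩ := F.normal v x hx
    obtain ⟨k', z', rfl⟩ := F.normal v y hy
    rw [F.δ_pt2]
    exact dist_nonneg
  · intro x hx y hy
    obtain ⟨k, z, rfl⟩ := F.normal v x hx
    obtain ⟨k', z', rfl⟩ := F.normal v y hy
    rw [F.δ_pt2, F.δ_pt2, dist_comm]
  · intro x hx y hy z hz
    obtain ⟨k, z, rfl⟩ := F.normal v x hx
    obtain ⟨k', z', rfl⟩ := F.normal v y hy
    obtain ⟨k'', z'', rfl⟩ := F.normal v _ hz
    rw [F.δ_pt2, F.δ_pt2, F.δ_pt2]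
    exact dist_triangle _ _ _
  · intro x hx y hy t ht0 ht1
    obtain ⟨k, z, rfl⟩ := F.normal v x hx
    obtain ⟨k', z', rfl⟩ := F.normal v y hy
    obtain ⟨m, -, h1, h2⟩ := hc.geo (k • z) (mem_univ _) (k' • z') (mem_univ _) t ht0 ht1
    refine ⟨F.pt (F.iv v) (F.hv v * (1 : stabilizer H (F.rep (F.iv v)))) m,
      F.π_normal v 1 m, ?_, ?_⟩
    · rw [F.δ_pt2, F.δ_pt2, one_smul]; exact h1
    · rw [F.δ_pt2, F.δ_pt2, one_smul]; exact h2
  · intro p hp x hx y hy m hm t ht0 ht1 hb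
    obtain ⟨kp, zp, rfl⟩ := F.normal v p hp
    obtain ⟨k, z, rfl⟩ := F.normal v x hx
    obtain ⟨k', z', rfl⟩ := F.normal v y hy
    obtain ⟨km, zm, rfl⟩ := F.normal v m hm
    obtain ⟨h1, h2⟩ := hb
    rw [F.δ_pt2, F.δ_pt2] at h1 h2
    rw [F.δ_pt2, F.δ_pt2, F.δ_pt2, F.δ_pt2]
    exact hc.cmp _ (mem_univ _) _ (mem_univ _) _ (mem_univ _) _ (mem_univ _) t ht0 ht1 ⟨h1, h2⟩

theorem δ_smul (k : H) (w w' : F.W) (e : F.π w = F.π w') : F.δ (k • w) (k • w') = F.δ w w' := by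
  obtain ⟨i, h, z, z', k', rfl, rfl⟩ := F.same w w' e
  rw [F.smul_pt, F.smul_pt, ← mul_assoc, F.δ_pt', F.δ_pt']

theorem π_s (v : V) (x : X) : F.π (F.sW v x) = v := F.hvr v

theorem π_smul (k : H) (w : F.W) : F.π (k • w) = k • F.π w := by
  obtain ⟨i, h, z, rfl⟩ := F.exists_pt w
  rw [F.smul_pt, F.π_pt, F.π_pt, mul_smul]

theorem D_smul (k : H) (w : F.W) : F.DW (k • w) = φ k • F.DW w := by
  obtain ⟨i, h, z, rfl⟩ := F.exists_pt w
  rw [F.smul_pt, F.DW_pt, F.DW_pt, map_mul, mul_smul]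

theorem Dlip (hG : ∀ (g : G) (x y : X), dist (g • x) (g • y) = dist x y) (w w' : F.W)
    (e : F.π w = F.π w') : dist (F.DW w) (F.DW w') ≤ F.δ w w' := by
  obtain ⟨i, h, z, z', k, rfl, rfl⟩ := F.same w w' e
  rw [F.DW_pt, F.DW_pt, F.δ_pt', map_mul, mul_smul, hG]
  have h1 := (F.mdl i).lip z (k • z')
  rw [(F.mdl i).equi] at h1
  exact h1

theorem inv_hv (a : V) : (F.hv a)⁻¹ • a = F.rep (F.iv a) := by
  nth_rewrite 2 [← F.hvr a]
  rw [← mul_smul, inv_mul_cancel, one_smul]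

theorem mem_U' (a b : V) (h : F.T.Adj a b) (x : X) (hx : x ∈ F.U a b) :
    φ (F.hv a)⁻¹ • x ∈ F.U (F.rep (F.iv a)) ((F.hv a)⁻¹ • b) := by
  have := F.Ueq (F.hv a)⁻¹ a b x h hx
  rwa [F.inv_hv] at this

theorem adj' (a b : V) (h : F.T.Adj a b) : F.T.Adj (F.rep (F.iv a)) ((F.hv a)⁻¹ • b) := by
  have := F.adj (F.hv a)⁻¹ a b h
  rwa [F.inv_hv] at this

theorem nearU (a b : V) (h : F.T.Adj a b) (x : X) (hx : x ∈ F.U a b) :
    Near (φ.comp (stabilizer H (F.rep (F.iv a))).subtype) o (F.r' - 1) (φ (F.hv a)⁻¹ • x) :=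
  F.near (F.iv a) _ (F.adj' a b h) _ (F.mem_U' a b h x hx)

/-- the section property at `v` for points in the range of the model -/
theorem D_s (v : V) (x : X)
    (hx : Near (φ.comp (stabilizer H (F.rep (F.iv v))).subtype) o F.r' (φ (F.hv v)⁻¹ • x)) :
    F.DW (F.sW v x) = x := by
  show φ (F.hv v) • F.D (F.iv v) (F.s (F.iv v) (φ (F.hv v)⁻¹ • x)) = x
  rw [(F.mdl (F.iv v)).sec _ hx, map_inv, smul_inv_smul]

theorem Ds (a b : V) (h : F.T.Adj a b) (x : X) (hx : x ∈ F.U a b) : F.DW (F.sW a x) = x := by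
  refine F.D_s a x ?_
  obtain ⟨k, hk⟩ := F.nearU a b h x hx
  exact ⟨k, hk.trans (by linarith)⟩

theorem iso (hX : C0 (dst X) univ) (hG : ∀ (g : G) (x y : X), dist (g • x) (g • y) = dist x y)
    (a b : V) (h : F.T.Adj a b) (x : X) (hx : x ∈ F.U a b) (y : X) (hy : y ∈ F.U a b) :
    F.δ (F.sW a x) (F.sW a y) = dist x y := by
  have hM := F.mdl (F.iv a)
  have key : ∀ x ∈ F.U (F.rep (F.iv a)) ((F.hv a)⁻¹ • b),
      ∀ y ∈ F.U (F.rep (F.iv a)) ((F.hv a)⁻¹ • b),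
      dist (F.s (F.iv a) x) (F.s (F.iv a) y) = dist x y := by
    refine local_iso hX hM.c0 _ (F.Ucvx _ _ (F.adj' a b h)) (F.s (F.iv a)) ?_
    intro x hx y hy hxy
    obtain ⟨k, hk⟩ := F.near (F.iv a) _ (F.adj' a b h) x hx
    have nx : Near (φ.comp (stabilizer H (F.rep (F.iv a))).subtype) o F.r' x :=
      ⟨k, hk.trans (by linarith)⟩
    have ny : Near (φ.comp (stabilizer H (F.rep (F.iv a))).subtype) o F.r' y := by
      refine ⟨k, (dist_triangle y x _).trans ?_⟩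
      rw [dist_comm y x]
      linarith
    set ψ := φ.comp (stabilizer H (F.rep (F.iv a))).subtype with hψ
    have hx' : dist (ψ k⁻¹ • x) o ≤ F.r' := by
      have : dist (ψ k⁻¹ • x) o = dist x (ψ k • o) := by
        rw [← hG (ψ k) (ψ k⁻¹ • x) o, ← mul_smul, ← map_mul, mul_inv_cancel, map_one, one_smul]
      rw [this]; linarith
    have hy' : dist (ψ k⁻¹ • y) o ≤ F.r' := by
      have : dist (ψ k⁻¹ • y) o = dist y (ψ k • o) := by
        rw [← hG (ψ k) (ψ k⁻¹ • y) o, ← mul_smul, ← map_mul, mul_inv_cancel, map_one, one_smul]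
      rw [this]
      have h1 := dist_triangle y x (ψ k • o)
      rw [dist_comm y x] at h1
      linarith
    have h1 := hM.siso _ _ hx' hy'
    rw [hM.sequi x nx k⁻¹, hM.sequi y ny k⁻¹, hM.isom, hG] at h1
    exact h1
  show F.δ (F.pt _ _ _) (F.pt _ _ _) = _
  have h1 := F.δ_pt2 (F.iv a) (F.hv a) 1 1 (F.s (F.iv a) (φ (F.hv a)⁻¹ • x))
    (F.s (F.iv a) (φ (F.hv a)⁻¹ • y))
  rw [Subgroup.coe_one, mul_one, one_smul, one_smul] at h1
  rw [h1, key _ (F.mem_U' a b h x hx) _ (F.mem_U' a b h y hy), hG]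

theorem se_aux (i : F.R) (g g' k : H) (e : g' • F.rep i = (k * g) • F.rep i) (x : X)
    (hx : Near (φ.comp (stabilizer H (F.rep i)).subtype) o F.r' (φ g⁻¹ • x)) :
    F.δ (k • F.pt i g (F.s i (φ g⁻¹ • x))) (F.pt i g' (F.s i (φ g'⁻¹ • φ k • x))) = 0 := by
  have m : (k * g)⁻¹ * g' ∈ stabilizer H (F.rep i) := by
    rw [mem_stabilizer_iff, mul_smul, e, ← mul_smul, inv_mul_cancel, one_smul]
  have m' : g'⁻¹ * (k * g) ∈ stabilizer H (F.rep i) := by
    have := (stabilizer H (F.rep i)).inv_mem m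
    rwa [mul_inv_rev, inv_inv] at this
  rw [F.smul_pt, F.δ_pt i (k * g) g' _ _ m]
  have h1 : φ g'⁻¹ • φ k • x =
      (φ.comp (stabilizer H (F.rep i)).subtype) ⟨g'⁻¹ * (k * g), m'⟩ • (φ g⁻¹ • x) := by
    show φ g'⁻¹ • φ k • x = φ (g'⁻¹ * (k * g)) • (φ g⁻¹ • x)
    rw [← mul_smul, ← mul_smul, ← map_mul, ← map_mul]
    congr 2
    group
  rw [h1, (F.mdl i).sequi _ hx, ← mul_smul]
  have h2 : (⟨(k * g)⁻¹ * g', m⟩ : stabilizer H (F.rep i)) * ⟨g'⁻¹ * (k * g), m'⟩ = 1 := by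
    apply Subtype.ext
    show (k * g)⁻¹ * g' * (g'⁻¹ * (k * g)) = 1
    group
  rw [h2, one_smul, dist_self]

theorem se (k : H) (v : V) (x : X)
    (hx : Near (φ.comp (stabilizer H (F.rep (F.iv v))).subtype) o F.r' (φ (F.hv v)⁻¹ • x)) :
    F.δ (k • F.sW v x) (F.sW (k • v) (φ k • x)) = 0 := by
  have key : ∀ (j : F.R) (g' : H), j = F.iv v → g' • F.rep j = k • v →
      F.δ (k • F.sW v x) (F.pt j g' (F.s j (φ g'⁻¹ • φ k • x))) = 0 := by
    rintro j g' rfl e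
    refine F.se_aux (F.iv v) (F.hv v) g' k ?_ x hx
    rw [e, mul_smul, F.hvr]
  refine key (F.iv (k • v)) (F.hv (k • v)) ?_ (F.hvr _)
  have h1 := F.ivr (k * F.hv v) (F.iv v)
  rwa [mul_smul, F.hvr] at h1

end Fam

end CZH
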