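import Pool.Agent.CZH.TotC0

/-!
# CZH/Fin: from a tree of spaces with group action to a model

## Proof
`exists_quot` for `dd` (`dd_self`, .., `TSA.dd_act`) gives `Q`, `q`; `C0 (dst Q) univ` by `C0_dd` and
`C0.image`/`C0.transfer` (`q` surjective and distance preserving).
Below `q w = q w'` whenever `dd w w' = 0`, in particular when `π w = π w'` and `δ w w' = 0` (`dd_fib`).
* `isom`: `q` surjective, `TSA.dd_act`.
* `cpt`: `K' = ⋃ i, (q ∘ e i) '' K i` is compact (finite union, `q ∘ e i` is `1`-Lipschitz by `dd_fib`, `he`),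
  every `q w` is `h • q (e i k)` by `hcov`.
* `D`: `Q → X` with `D' (q w) = D w`: well defined, `1`-Lipschitz by `dd_D` (e.g. `D' z = D (choose w with
  q w = z)`); equivariant by `De`.
* `s`: for `x` with `Near φ o r x` choose `h` with `dist x (φ h • o) ≤ r` and put
  `s x = h • q (S.s v₀ (φ h⁻¹ • x))`; outside put anything, e.g. the same formula with `h = 1`.
  Key claim (*): if `dist x (φ h • o) ≤ r` and `dist x (φ h' • o) ≤ r` then
  `h • q (S.s v₀ (φ h⁻¹ • x)) = h' • q (S.s v₀ (φ h'⁻¹ • x))`.  Proof: put `f = h⁻¹ h'`,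
  `y = φ h'⁻¹ • x`, so `φ h⁻¹ • x = φ f • y`, `dist y o ≤ r`, `dist (φ f • y) o ≤ r`, hence
  `dist (φ f • o) o ≤ 2 r`.  Have to show `q (S.s v₀ (φ f • y)) = f • q (S.s v₀ y)`; by `hse`
  `f • q (S.s v₀ y) = q (S.s (f • v₀) (φ f • y))`, and `q (S.s v₀ x') = q (S.s (f • v₀) x')` for
  `x' = φ f • y ∈ closedBall o r` by `hpath` (induction on the chain with `dd_glue`).
  `sequi`: for `k : H`, `x` near: `k h` is a possible choice for `φ k • x`; (*).
  `sec`: `D' (s x) = φ h • D (S.s v₀ (φ h⁻¹ • x)) = x` by `De`, `hDs`.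
  `siso`: for `x, y ∈ closedBall o r`, by (*) `s x = q (S.s v₀ x)`, `s y = q (S.s v₀ y)`, `hball`, `dd_fib`.
-/

namespace CZH

universe u

open Set

theorem mdl_of_TSA {G H V W X : Type u} [Group G] [Group H] [MetricSpace X] [ProperSpace X]
    [MulAction G X] [MulAction H V] [MulAction H W] (φ : H →* G) (S : TS V W X) (hS : TSA φ S)
    (hG : ∀ (g : G) (x y : X), dist (g • x) (g • y) = dist x y) (o : X) (r : ℝ) (v₀ : V)
    (ι : Type u) [Finite ι] (Y : ι → Type u) [∀ i, MetricSpace (Y i)] (e : ∀ i, Y i → W)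
    (K : ∀ i, Set (Y i)) (hK : ∀ i, IsCompact (K i))
    (he : ∀ i y y', S.π (e i y) = S.π (e i y') ∧ S.δ (e i y) (e i y') ≤ dist y y')
    (hcov : ∀ w : W, ∃ (h : H) (i : ι), ∃ k ∈ K i,
      S.π w = S.π (h • e i k) ∧ S.δ w (h • e i k) = 0)
    (hball : ∀ x y, dist x o ≤ r → dist y o ≤ r → S.δ (S.s v₀ x) (S.s v₀ y) = dist x y)
    (hDs : ∀ x, dist x o ≤ r → S.D (S.s v₀ x) = x)
    (hse : ∀ (h : H) (x : X), dist x o ≤ r → S.δ (h • S.s v₀ x) (S.s (h • v₀) (φ h • x)) = 0)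
    (hpath : ∀ f : H, dist (φ f • o) o ≤ 2 * r → Relation.ReflTransGen
      (fun a b => S.T.Adj a b ∧ ∀ x, dist x o ≤ r → x ∈ S.U a b) v₀ (f • v₀)) :
    ∃ (Z : Type u) (_ : MetricSpace Z) (_ : MulAction H Z) (D : Z → X) (s : X → Z),
      Mdl φ o r Z D s := by
  classical
  obtain ⟨Q, mQ, aQ, q, hqs, hqd, hqe⟩ := exists_quot (H := H) S.dd S.dd_self S.dd_nn S.dd_comm
    S.dd_tri (fun h w w' => hS.dd_act h w w')
  have q_eq : ∀ w w', S.dd w w' = 0 → q w = q w' := fun w w' h => by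
    rw [← dist_eq_zero, hqd, h]
  have q_fib : ∀ w w', S.π w = S.π w' → S.δ w w' = 0 → q w = q w' :=
    fun w w' h1 h2 => q_eq _ _ (by rw [S.dd_fib w w' h1, h2])
  have D_wd : ∀ w w', q w = q w' → S.D w = S.D w' := by
    intro w w' h
    have h1 := S.dd_D w w'
    rw [← hqd, h, dist_self] at h1
    exact dist_le_zero.1 h1
  obtain ⟨D', hD'⟩ : ∃ D' : Q → X, ∀ w, D' (q w) = S.D w :=
    ⟨fun z => S.D (hqs z).choose, fun w => D_wd _ _ (hqs (q w)).choose_spec⟩
  have hchain : ∀ (a b : V), Relation.ReflTransGen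
      (fun a b => S.T.Adj a b ∧ ∀ x, dist x o ≤ r → x ∈ S.U a b) a b →
      ∀ x, dist x o ≤ r → q (S.s a x) = q (S.s b x) := by
    intro a b hab
    induction hab with
    | refl => intro x _; rfl
    | tail _ h ih =>
      intro x hx
      rw [ih x hx]
      exact q_eq _ _ (S.dd_glue _ _ h.1 x (h.2 x hx))
  have hback : ∀ (x : X) (h : H), dist x (φ h • o) ≤ r → dist (φ h⁻¹ • x) o ≤ r := by
    intro x h hx
    have h1 := hG (φ h⁻¹) x (φ h • o)
    rw [smul_smul (φ h⁻¹) (φ h), ← map_mul, inv_mul_cancel, map_one, one_smul] at h1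
    rw [h1]
    exact hx
  have key : ∀ (x : X) (h h' : H), dist x (φ h • o) ≤ r → dist x (φ h' • o) ≤ r →
      h • q (S.s v₀ (φ h⁻¹ • x)) = h' • q (S.s v₀ (φ h'⁻¹ • x)) := by
    intro x h h' hx hx'
    have hy := hback x h' hx'
    have hy2 := hback x h hx
    have hfy : φ (h⁻¹ * h') • (φ h'⁻¹ • x) = φ h⁻¹ • x := by
      rw [smul_smul, ← map_mul, mul_assoc, mul_inv_cancel, mul_one]
    have hfo : dist (φ (h⁻¹ * h') • o) o ≤ 2 * r := by
      have h1 := hG (φ (h⁻¹ * h')) o (φ h'⁻¹ • x)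
      rw [hfy] at h1
      have h2 := dist_triangle (φ (h⁻¹ * h') • o) (φ h⁻¹ • x) o
      rw [dist_comm] at hy
      linarith
    have h1 := hchain _ _ (hpath _ hfo) (φ h⁻¹ • x) hy2
    have h2 : q ((h⁻¹ * h') • S.s v₀ (φ h'⁻¹ • x)) =
        q (S.s ((h⁻¹ * h') • v₀) (φ (h⁻¹ * h') • (φ h'⁻¹ • x))) := by
      apply q_fib
      · rw [hS.πe, S.πs, S.πs]
      · exact hse _ _ hy
    rw [hfy] at h2
    rw [h1, ← h2, hqe, smul_smul, mul_inv_cancel_left]
  obtain ⟨s', hs'⟩ : ∃ s' : X → Q, ∀ x h, dist x (φ h • o) ≤ r →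
      s' x = h • q (S.s v₀ (φ h⁻¹ • x)) := by
    refine ⟨fun x => if hx : Near φ o r x then
      hx.choose • q (S.s v₀ (φ hx.choose⁻¹ • x)) else q (S.s v₀ x), ?_⟩
    intro x h hx
    have hn : Near φ o r x := ⟨h, hx⟩
    simp only [dif_pos hn]
    exact key x _ _ hn.choose_spec hx
  have hisom : ∀ (h : H) (z z' : Q), dist (h • z) (h • z') = dist z z' := by
    intro h z z'
    obtain ⟨w, rfl⟩ := hqs z
    obtain ⟨w', rfl⟩ := hqs z'
    rw [← hqe, ← hqe, hqd, hqd, hS.dd_act]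
  have hball1 : ∀ x, dist x o ≤ r → s' x = q (S.s v₀ x) := by
    intro x hx
    have h1 := hs' x 1 (by rw [map_one, one_smul]; exact hx)
    rw [inv_one, map_one, one_smul, one_smul] at h1
    exact h1
  refine ⟨Q, mQ, aQ, D', s', ?_, hisom, ?_, ?_, ?_, ?_, ?_, ?_⟩
  · have h1 := (S.C0_dd).image (d' := dst Q) q (fun w _ w' _ => hqd w w')
    rwa [Set.image_univ, hqs.range_eq] at h1
  · refine ⟨⋃ i, (fun y => q (e i y)) '' K i, ?_, ?_⟩
    · refine isCompact_iUnion fun i => (hK i).image ?_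
      have hl : LipschitzWith 1 (fun y => q (e i y)) := by
        refine LipschitzWith.of_dist_le_mul fun y y' => ?_
        rw [hqd, S.dd_fib _ _ (he i y y').1, NNReal.coe_one, one_mul]
        exact (he i y y').2
      exact hl.continuous
    · intro z
      obtain ⟨w, rfl⟩ := hqs z
      obtain ⟨h, i, k, hk, h1, h2⟩ := hcov w
      refine ⟨h, q (e i k), Set.mem_iUnion.2 ⟨i, ⟨k, hk, rfl⟩⟩, ?_⟩
      rw [← hqe]
      exact (q_fib _ _ h1 h2).symm
  · intro z z'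
    obtain ⟨w, rfl⟩ := hqs z
    obtain ⟨w', rfl⟩ := hqs z'
    rw [hD', hD', hqd]
    exact S.dd_D w w'
  · intro h z
    obtain ⟨w, rfl⟩ := hqs z
    rw [← hqe, hD', hD', hS.De]
  · rintro x ⟨h, hx⟩
    rw [hs' x h hx, ← hqe, hD', hS.De, hDs _ (hback x h hx), smul_smul, ← map_mul,
      mul_inv_cancel, map_one, one_smul]
  · rintro x ⟨k, hx⟩ h
    have h1 : dist (φ h • x) (φ (h * k) • o) ≤ r := by
      rw [map_mul, mul_smul, hG]
      exact hx
    rw [hs' (φ h • x) (h * k) h1, hs' x k hx, mul_smul, smul_smul (φ (h * k)⁻¹), ← map_mul]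
    have h2 : (h * k)⁻¹ * h = k⁻¹ := by group
    rw [h2]
  · intro x y hx hy
    rw [hball1 x hx, hball1 y hy, hqd, S.dd_fib _ _ (by rw [S.πs, S.πs])]
    exact hball x y hx hy

end CZH
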