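import Pool.Agent.CZH.FamA
import Pool.Agent.CZH.Fin

/-!
# CZH/FamB: a family gives a tree of spaces with group action, and a model for `H`

## Proof of `Fam.exists_mdl`
`mdl_of_TSA` for `F.toTS`: `ι = F.R`, `Y i = F.Z i`, `e i z = F.pt i 1 z`, `K i` from `(F.mdl i).cpt`
(`he`: same fibre, `δ_pt'` with `k = 1`; `hcov`: `w = pt i h z`, `z = k • z₀`, take `h * k`, `i`, `z₀`:
`δ (pt i h z) (pt i (h k) z₀) = dist z (k • z₀) = 0`).  For `dist x o ≤ r` the point `φ (hv v₀)⁻¹ • x` is at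
distance `≤ r + dist (φ (hv v₀)⁻¹ • o) o ≤ r'` from `o` (`hr`), so `Near .. r'` with `h = 1`; `hball` by
`δ_pt` and `siso`; `hDs` by `D_s`; `hse` by `se`.
-/

namespace CZH

universe u

open Set MulAction

namespace Fam

variable {G X H V : Type u} [Group G] [MetricSpace X] [MulAction G X] [Group H] {φ : H →* G}
  {o : X} [MulAction H V] (F : Fam φ o V)

/-- the tree of spaces of a family -/
noncomputable def toTS (hX : C0 (dst X) univ)
    (hG : ∀ (g : G) (x y : X), dist (g • x) (g • y) = dist x y) : TS V F.W X where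
  T := F.T
  tree := F.tree
  π := F.π
  δ := F.δ
  s := F.sW
  D := F.DW
  U := F.U
  πs := F.π_s
  fib := F.fib
  Usymm := F.Usymm
  Une := F.Une
  Ucl := F.Ucl
  Ucv := by
    intro a b h x hx y hy t ht0 ht1
    obtain ⟨m, -, hm⟩ := hX.geo x (mem_univ x) y (mem_univ y) t ht0 ht1
    exact ⟨m, F.Ucvx a b h x hx y hy m t ht0 ht1 hm, hm⟩
  iso := F.iso hX hG
  Dlip := F.Dlip hG
  Ds := F.Ds

theorem Near.mono {φ : H →* G} {o : X} {r r' : ℝ} {x : X} (h : Near φ o r x) (hr : r ≤ r') :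
    Near φ o r' x := by
  obtain ⟨k, hk⟩ := h
  exact ⟨k, hk.trans hr⟩

theorem toTSA (hX : C0 (dst X) univ)
    (hG : ∀ (g : G) (x y : X), dist (g • x) (g • y) = dist x y) : TSA φ (F.toTS hX hG) where
  adj := F.adj
  πe := F.π_smul
  δe := F.δ_smul
  De := F.D_smul
  Ue := F.Ueq
  se := by
    intro h a b x hab hx
    exact F.se h a x (Near.mono (F.nearU a b hab x hx) (by linarith))

theorem exists_mdl [ProperSpace X] (hX : C0 (dst X) univ)
    (hG : ∀ (g : G) (x y : X), dist (g • x) (g • y) = dist x y) [Finite F.R] (r : ℝ) (v₀ : V)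
    (hr : r + dist (φ (F.hv v₀)⁻¹ • o) o ≤ F.r')
    (hpath : ∀ f : H, dist (φ f • o) o ≤ 2 * r → Relation.ReflTransGen
      (fun a b => F.T.Adj a b ∧ ∀ x, dist x o ≤ r → x ∈ F.U a b) v₀ (f • v₀)) :
    ∃ (Z : Type u) (_ : MetricSpace Z) (_ : MulAction H Z) (D : Z → X) (s : X → Z),
      Mdl φ o r Z D s := by
  have hnear : ∀ x, dist x o ≤ r → dist (φ (F.hv v₀)⁻¹ • x) o ≤ F.r' := by
    intro x hx
    have := dist_triangle (φ (F.hv v₀)⁻¹ • x) (φ (F.hv v₀)⁻¹ • o) o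
    rw [hG] at this
    linarith
  have hnear' : ∀ x, dist x o ≤ r → Near (φ.comp (stabilizer H (F.rep (F.iv v₀))).subtype) o F.r'
      (φ (F.hv v₀)⁻¹ • x) := by
    intro x hx
    exact ⟨1, by rw [map_one, one_smul]; exact hnear x hx⟩
  choose K hK hKc using fun i => (F.mdl i).cpt
  refine mdl_of_TSA φ (F.toTS hX hG) (F.toTSA hX hG) hG o r v₀ F.R F.Z
    (fun i z => F.pt i 1 z) K hK ?_ ?_ ?_ ?_ ?_ hpath
  · intro i y y'
    refine ⟨rfl, ?_⟩
    have := F.δ_pt' i 1 y y' 1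
    rw [one_smul] at this
    have e : F.pt i (1 * ((1 : stabilizer H (F.rep i)) : H)) y' = F.pt i 1 y' := by
      rw [Subgroup.coe_one, mul_one]
    rw [e] at this
    exact this.le
  · intro w
    obtain ⟨i, h, z, rfl⟩ := F.exists_pt w
    obtain ⟨k, z₀, hz₀, hk⟩ := hKc i z
    refine ⟨h * k, i, z₀, hz₀, ?_, ?_⟩
    · show F.π (F.pt i h z) = F.π (F.pt i (h * k * 1) z₀)
      rw [mul_one, F.π_pt, F.π_pt, mul_smul]
      have : (k : H) • F.rep i = F.rep i := k.2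
      rw [this]
    · show F.δ (F.pt i h z) (F.pt i (h * k * 1) z₀) = 0
      rw [mul_one, F.δ_pt', hk, dist_self]
  · intro x y hx hy
    show F.δ (F.pt _ _ _) (F.pt _ _ _) = _
    have := F.δ_pt' (F.iv v₀) (F.hv v₀) (F.s (F.iv v₀) (φ (F.hv v₀)⁻¹ • x))
      (F.s (F.iv v₀) (φ (F.hv v₀)⁻¹ • y)) 1
    rw [one_smul, Subgroup.coe_one, mul_one] at this
    rw [this, (F.mdl _).siso _ _ (hnear x hx) (hnear y hy), hG]
  · intro x hx
    exact F.D_s v₀ x (hnear' x hx)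
  · intro h x hx
    exact F.se h v₀ x (hnear' x hx)

end Fam

end CZH
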