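import Pool.Agent.CZH.TSDefs

/-!
# CZH/FamDefs: a family of vertex models over a tree with group action (definitions, basic lemmas)

`F : Fam φ o V` packages the data of the inductive step: a tree `T` on `V` with `H`-action, orbit
representatives `rep i`, models `Z i` (radius `r'`) of the stabilizers of the representatives, and
the edge sets `U a b ⊆ X`.  The disjoint union of the vertex spaces is `F.W = Σ i, H × Z i`, the
point `⟨i, (h, z)⟩` lies over the vertex `h • rep i` and `⟨i, (h * k, z)⟩` is at distance `0` from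
`⟨i, (h, k • z)⟩` for `k` in the stabilizer of `rep i`.
-/

namespace CZH

universe u

open Set MulAction

structure Fam {G X H : Type u} [Group G] [MetricSpace X] [MulAction G X] [Group H] (φ : H →* G)
    (o : X) (V : Type u) [MulAction H V] where
  T : SimpleGraph V
  tree : T.IsTree
  adj : ∀ (h : H) (a b : V), T.Adj a b → T.Adj (h • a) (h • b)
  R : Type u
  rep : R → V
  iv : V → R
  hv : V → H
  hvr : ∀ v, hv v • rep (iv v) = v
  ivr : ∀ (h : H) (i : R), iv (h • rep i) = i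
  Z : R → Type u
  [ms : ∀ i, MetricSpace (Z i)]
  [ma : ∀ i, MulAction (stabilizer H (rep i)) (Z i)]
  D : ∀ i, Z i → X
  s : ∀ i, X → Z i
  r' : ℝ
  mdl : ∀ i, Mdl (φ.comp (stabilizer H (rep i)).subtype) o r' (Z i) (D i) (s i)
  U : V → V → Set X
  Usymm : ∀ a b, U a b = U b a
  Une : ∀ a b, T.Adj a b → (U a b).Nonempty
  Ucl : ∀ a b, T.Adj a b → IsClosed (U a b)
  Ucvx : ∀ a b, T.Adj a b → Cvx (U a b)
  Ueq : ∀ (h : H) (a b : V) (x : X), T.Adj a b → x ∈ U a b → φ h • x ∈ U (h • a) (h • b)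
  near : ∀ i b, T.Adj (rep i) b → ∀ x ∈ U (rep i) b,
    Near (φ.comp (stabilizer H (rep i)).subtype) o (r' - 1) x

attribute [instance] Fam.ms Fam.ma

namespace Fam

variable {G X H V : Type u} [Group G] [MetricSpace X] [MulAction G X] [Group H] {φ : H →* G}
  {o : X} [MulAction H V] (F : Fam φ o V)

/-- the disjoint union of the vertex spaces -/
def W : Type u := Σ i : F.R, H × F.Z i

instance : MulAction H F.W where
  smul k w := ⟨w.1, (k * w.2.1, w.2.2)⟩
  one_smul w := by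
    obtain ⟨i, h, z⟩ := w
    show (⟨i, (1 * h, z)⟩ : F.W) = ⟨i, (h, z)⟩
    rw [one_mul]
  mul_smul k k' w := by
    obtain ⟨i, h, z⟩ := w
    show (⟨i, (k * k' * h, z)⟩ : F.W) = ⟨i, (k * (k' * h), z)⟩
    rw [mul_assoc]

def pt (i : F.R) (h : H) (z : F.Z i) : F.W := ⟨i, (h, z)⟩

theorem smul_pt (k : H) (i : F.R) (h : H) (z : F.Z i) :
    k • F.pt i h z = F.pt i (k * h) z := rfl

theorem exists_pt (w : F.W) : ∃ i h z, w = F.pt i h z := ⟨w.1, w.2.1, w.2.2, rfl⟩

/-- the vertex of a point -/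
def π (w : F.W) : V := w.2.1 • F.rep w.1

theorem π_pt (i : F.R) (h : H) (z : F.Z i) : F.π (F.pt i h z) = h • F.rep i := rfl

/-- the map to `X` -/
def DW (w : F.W) : X := φ w.2.1 • F.D w.1 w.2.2

theorem DW_pt (i : F.R) (h : H) (z : F.Z i) : F.DW (F.pt i h z) = φ h • F.D i z := rfl

/-- the section over the vertex `v` -/
def sW (v : V) (x : X) : F.W := F.pt (F.iv v) (F.hv v) (F.s (F.iv v) (φ (F.hv v)⁻¹ • x))

open Classical in
/-- the distance in the fibres of `π` -/
noncomputable def δ (w w' : F.W) : ℝ :=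
  if e : w'.1 = w.1 then
    if m : w.2.1⁻¹ * w'.2.1 ∈ stabilizer H (F.rep w.1) then
      dist w.2.2 ((⟨w.2.1⁻¹ * w'.2.1, m⟩ : stabilizer H (F.rep w.1)) •
        (cast (congrArg F.Z e) w'.2.2 : F.Z w.1))
    else 0
  else 0

theorem δ_pt (i : F.R) (h h' : H) (z z' : F.Z i) (m : h⁻¹ * h' ∈ stabilizer H (F.rep i)) :
    F.δ (F.pt i h z) (F.pt i h' z') =
      dist z ((⟨h⁻¹ * h', m⟩ : stabilizer H (F.rep i)) • z') := by
  unfold δ
  rw [dif_pos (show (F.pt i h' z').1 = (F.pt i h z).1 from rfl)]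
  rw [dif_pos (show (F.pt i h z).2.1⁻¹ * (F.pt i h' z').2.1 ∈
    stabilizer H (F.rep (F.pt i h z).1) from m)]
  rfl

/-- two points of the same fibre in normal form -/
theorem same (w w' : F.W) (e : F.π w = F.π w') : ∃ (i : F.R) (h : H) (z z' : F.Z i)
    (k : stabilizer H (F.rep i)), w = F.pt i h z ∧ w' = F.pt i (h * k) z' := by
  obtain ⟨i, h, z, rfl⟩ := F.exists_pt w
  obtain ⟨j, h', z', rfl⟩ := F.exists_pt w'
  rw [F.π_pt, F.π_pt] at e
  have hij : i = j := by
    rw [← F.ivr h i, e, F.ivr h' j]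
  subst hij
  refine ⟨i, h, z, z', ⟨h⁻¹ * h', ?_⟩, rfl, ?_⟩
  · rw [mem_stabilizer_iff, mul_smul, ← e, ← mul_smul, inv_mul_cancel, one_smul]
  · show F.pt i h' z' = F.pt i (h * (h⁻¹ * h')) z'
    rw [mul_inv_cancel_left]

theorem δ_pt' (i : F.R) (h : H) (z z' : F.Z i) (k : stabilizer H (F.rep i)) :
    F.δ (F.pt i h z) (F.pt i (h * k) z') = dist z (k • z') := by
  have m : h⁻¹ * (h * (k : H)) ∈ stabilizer H (F.rep i) := by
    rw [inv_mul_cancel_left]; exact k.2
  rw [F.δ_pt i h (h * k) z z' m]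
  congr 2
  exact Subtype.ext (inv_mul_cancel_left h (k : H))

end Fam

end CZH
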