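import Pool.Agent.CZH.Defs

/-!
# CZH/HierF: formal properties of cyclic hierarchies

## Proofs
`Hier.of_injective`: induction on `n`.  `n = 0`: a group with an injective homomorphism to a cyclic group is
cyclic (`isCyclic_of_injective`).  `n + 1`: same tree, `K` acts on `V` through `f` (`MulAction.compHom V f`);
the stabilizer in `K` of a set or vertex maps injectively to the stabilizer in `H` (restriction of `f`).
`Hier.of_cyclic`: induction on `n`: `V = PUnit`, `T = ⊥` (a tree), trivial action, no edges, the stabilizer is
isomorphic to (or: is a subgroup of) the cyclic group.
`Hier.mono`: `Hier n H → Hier (n + 1) H`: the same with `V = PUnit` and `Hier.of_injective` for the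
stabilizer.
-/

namespace CZH

universe u

open Set Pointwise MulAction

theorem Hier.of_injective (n : ℕ) : ∀ (H K : Type u) [Group H] [Group K] (f : K →* H),
    Function.Injective f → Hier n H → Hier n K := by
  induction n with
  | zero =>
    intro H K _ _ f hf h
    have h' : IsCyclic H := h
    show IsCyclic K
    exact isCyclic_of_injective f hf
  | succ n ih =>
    intro H K _ _ f hf h
    obtain ⟨V, T, inst, hT, adj, hc, hs⟩ := h
    refine ⟨V, T, MulAction.compHom V f, hT, fun k a b hab => adj (f k) a b hab, ?_, ?_⟩
    · intro a b hab
      letI := MulAction.compHom V f
      have h1 := hc a b hab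
      let g : stabilizer K ({a, b} : Set V) →* stabilizer H ({a, b} : Set V) :=
        (f.comp (stabilizer K ({a, b} : Set V)).subtype).codRestrict _ (fun k => by
          have hk := k.2
          rw [mem_stabilizer_iff] at hk ⊢
          exact hk)
      have hg : Function.Injective g := by
        intro x y hxy
        have h2 : f x.1 = f y.1 := congrArg Subtype.val hxy
        exact Subtype.ext (hf h2)
      exact isCyclic_of_injective g hg
    · intro a
      letI := MulAction.compHom V f
      let g : stabilizer K a →* stabilizer H a :=
        (f.comp (stabilizer K a).subtype).codRestrict _ (fun k => by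
          have hk := k.2
          rw [mem_stabilizer_iff] at hk ⊢
          exact hk)
      have hg : Function.Injective g := by
        intro x y hxy
        have h2 : f x.1 = f y.1 := congrArg Subtype.val hxy
        exact Subtype.ext (hf h2)
      exact ih (stabilizer H a) (stabilizer K a) g hg (hs a)

/-- the trivial action on a point -/
private def ptAct (H : Type u) [Group H] : MulAction H PUnit.{u + 1} where
  smul _ a := a
  one_smul _ := rfl
  mul_smul _ _ _ := rfl

theorem Hier.of_cyclic (n : ℕ) (H : Type u) [Group H] (h : IsCyclic H) : Hier n H := by
  induction n generalizing H with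
  | zero => exact h
  | succ n ih =>
    letI := ptAct H
    refine ⟨PUnit.{u + 1}, ⊥, ptAct H, SimpleGraph.IsTree.of_subsingleton, ?_, ?_, ?_⟩
    · intro h a b hab
      exact absurd hab (by simp)
    · intro a b hab
      exact absurd hab (by simp)
    · intro a
      exact ih (stabilizer H a) inferInstance

theorem Hier.mono (n : ℕ) (H : Type u) [Group H] (h : Hier n H) : Hier (n + 1) H := by
  letI := ptAct H
  refine ⟨PUnit.{u + 1}, ⊥, ptAct H, SimpleGraph.IsTree.of_subsingleton, ?_, ?_, ?_⟩
  · intro h a b hab
    exact absurd hab (by simp)
  · intro a b hab
    exact absurd hab (by simp)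
  · intro a
    exact Hier.of_injective n H _ (stabilizer H a).subtype Subtype.val_injective h

end CZH
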