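import Pool.Agent.CZH.FreeTree
import Pool.Agent.CZH.HierF

/-!
# CZH/FreeHier: free-by-cyclic groups with triangular monodromy have a cyclic hierarchy

## Proofs
`TT_edge_cyclic`: the homomorphism `stabilizer → Multiplicative ℤ`, `m ↦ m.right`, is injective
(`isCyclic_of_injective`).  Let `m` be in the kernel, `m = inl q`, `m • {a, b} = {a, b}`; by `TT_adj_nf`
`a = (inl f) Δ`, `b = (inl (f x)) Δ`, `x = x_j^±`, `ℓ j = k`.  After exchanging `a` and `b` (`f' = f x`, `x' = x⁻¹`) we may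
assume `x = of j`.  Put `p = f⁻¹ q f`.
 `m a = a`, `m b = b`: `p ∈ Fk ℓ k` and `x⁻¹ p x ∈ Fk ℓ k` (`mk_eq`), so `p = 1` by `fix_one`, `q = 1`.
 `m a = b`, `m b = a`: `mk_eq` gives `x⁻¹ p ∈ Fk ℓ k` and `p x ∈ Fk ℓ k`; `p = x a'`, `a' ∈ Fk ℓ k`, `x a' x ∈ Fk ℓ k`:
 contradiction with `not_swap`.
`TT_vertex`: `a = g Δ`; `m ↦ g⁻¹ m g` maps `stabilizer` into `Δ` and so to `Gk h k` (injective homomorphism).
`hier_Gk`: induction on `k`. `k = 0`: `Fk ℓ 0 = ⊥` (closure of the empty set), `g ↦ g.right` is an injective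
homomorphism `Gk h 0 → Multiplicative ℤ`. `k + 1`: `V = VV h k`, `T = TT h k`, `TT_isTree`, `TT_smul`, `TT_edge_cyclic`,
`TT_vertex` and `Hier.of_injective`.
`fg_le_Gk`: every element of `FreeGroup ι` is in some `Fk ℓ k` (`FreeGroup.induction_on` or closure induction with
`Fk_mono`), take the maximum over a finite generating set of `H`.
-/

namespace CZH

universe u

open Set Pointwise MulAction

variable {ι : Type u} {ℓ : ι → ℕ} {φ : MulAut (FreeGroup ι)}

private theorem edge_core {k : ℕ} (q f : FreeGroup ι) (j : ι) (hj : ℓ j = k)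
    (H : (f⁻¹ * (q * f) ∈ Fk ℓ k ∧
        (f * FreeGroup.of j)⁻¹ * (q * (f * FreeGroup.of j)) ∈ Fk ℓ k) ∨
      ((f * FreeGroup.of j)⁻¹ * (q * f) ∈ Fk ℓ k ∧
        f⁻¹ * (q * (f * FreeGroup.of j)) ∈ Fk ℓ k)) : q = 1 := by
  rcases H with ⟨h1, h2⟩ | ⟨h1, h2⟩
  · have e : (f * FreeGroup.of j)⁻¹ * (q * (f * FreeGroup.of j)) =
        (FreeGroup.of j)⁻¹ * (f⁻¹ * (q * f)) * FreeGroup.of j := by group
    rw [e] at h2
    have h3 := fix_one _ j hj.ge h1 h2
    have e2 : q = f * (f⁻¹ * (q * f)) * f⁻¹ := by group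
    rw [e2, h3]; group
  · exfalso
    have e : f⁻¹ * (q * (f * FreeGroup.of j)) =
        FreeGroup.of j * ((f * FreeGroup.of j)⁻¹ * (q * f)) * FreeGroup.of j := by group
    rw [e] at h2
    exact not_swap _ j hj.ge h1 h2

/-- the action on the cosets in terms of the left components -/
private theorem smul_eq (h : Tri ℓ φ) (k : ℕ) (m : Gk h (k + 1)) (hm : (m : GG φ).right = 1)
    (f f' : FreeGroup ι) (hf : f ∈ Fk ℓ (k + 1)) (hf' : f' ∈ Fk ℓ (k + 1))
    (e : m • (iin h (k + 1) f hf : VV h k) = (iin h (k + 1) f' hf' : VV h k)) :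
    f'⁻¹ * ((m : GG φ).left * f) ∈ Fk ℓ k := by
  have e1 : (iin h (k + 1) f' hf' : VV h k) = ((m * iin h (k + 1) f hf : Gk h (k + 1)) : VV h k) :=
    e.symm
  rw [mk_eq] at e1
  have e2 : ((iin h (k + 1) f' hf' : GG φ)⁻¹ * ((m * iin h (k + 1) f hf : Gk h (k + 1)) : GG φ)).left
      = f'⁻¹ * ((m : GG φ).left * f) := by
    have e3 : (m : GG φ) = SemidirectProduct.inl (m : GG φ).left := by
      apply SemidirectProduct.ext
      · rfl
      · exact hm
    have e4 : (iin h (k + 1) f' hf' : GG φ)⁻¹ * ((m * iin h (k + 1) f hf : Gk h (k + 1)) : GG φ) =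
        SemidirectProduct.inl (f'⁻¹ * ((m : GG φ).left * f)) := by
      rw [map_mul, map_inv, map_mul, ← e3]
      rfl
    rw [e4]
    rfl
  rw [e2] at e1
  exact e1

theorem TT_edge_cyclic (h : Tri ℓ φ) (k : ℕ) (a b : VV h k) (hab : (TT h k).Adj a b) :
    IsCyclic (stabilizer (Gk h (k + 1)) ({a, b} : Set (VV h k))) := by
  let F : stabilizer (Gk h (k + 1)) ({a, b} : Set (VV h k)) →* Multiplicative ℤ :=
    (SemidirectProduct.rightHom.comp (Gk h (k + 1)).subtype).comp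
      (stabilizer (Gk h (k + 1)) ({a, b} : Set (VV h k))).subtype
  refine isCyclic_of_injective F ?_
  rw [injective_iff_map_eq_one]
  rintro ⟨m, hm⟩ hF
  have hr : (m : GG φ).right = 1 := hF
  have hq : (m : GG φ).left = 1 := by
    rw [mem_stabilizer_iff] at hm
    have hpair : ({m • a, m • b} : Set (VV h k)) = {a, b} := by
      rw [← hm, Set.smul_set_insert, Set.smul_set_singleton]
    have hcases : (m • a = a ∧ m • b = b) ∨ (m • a = b ∧ m • b = a) :=
      Set.pair_eq_pair_iff.1 hpair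
    obtain ⟨f, x, j, hf, hfx, hj, hx, rfl, rfl⟩ := TT_adj_nf h k a b hab
    rcases hx with rfl | rfl
    · refine edge_core (ℓ := ℓ) (k := k) _ f j hj ?_
      rcases hcases with ⟨h1, h2⟩ | ⟨h1, h2⟩
      · exact Or.inl ⟨smul_eq h k m hr _ _ _ _ h1, smul_eq h k m hr _ _ _ _ h2⟩
      · exact Or.inr ⟨smul_eq h k m hr _ _ _ _ h1, smul_eq h k m hr _ _ _ _ h2⟩
    · refine edge_core (ℓ := ℓ) (k := k) _ (f * (FreeGroup.of j)⁻¹) j hj ?_
      rw [inv_mul_cancel_right]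
      rcases hcases with ⟨h1, h2⟩ | ⟨h1, h2⟩
      · exact Or.inl ⟨smul_eq h k m hr _ _ _ _ h2, smul_eq h k m hr _ _ _ _ h1⟩
      · exact Or.inr ⟨smul_eq h k m hr _ _ _ _ h2, smul_eq h k m hr _ _ _ _ h1⟩
  apply Subtype.ext
  apply Subtype.ext
  exact SemidirectProduct.ext hq hr

theorem TT_vertex (h : Tri ℓ φ) (k : ℕ) (a : VV h k) :
    ∃ f : stabilizer (Gk h (k + 1)) a →* Gk h k, Function.Injective f := by
  obtain ⟨g, rfl⟩ := QuotientGroup.mk_surjective a
  have key : ∀ m : stabilizer (Gk h (k + 1)) (g : VV h k),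
      (g : GG φ)⁻¹ * (((m : Gk h (k + 1)) : GG φ) * (g : GG φ)) ∈ Gk h k := by
    rintro ⟨m, hm⟩
    rw [mem_stabilizer_iff] at hm
    have e1 : (g : VV h k) = ((m * g : Gk h (k + 1)) : VV h k) := hm.symm
    rw [mk_eq] at e1
    exact e1
  refine ⟨{ toFun := fun m => ⟨_, key m⟩, map_one' := ?_, map_mul' := ?_ }, ?_⟩
  · apply Subtype.ext
    show (g : GG φ)⁻¹ * ((1 : GG φ) * (g : GG φ)) = 1
    group
  · intro m m'
    apply Subtype.ext
    show (g : GG φ)⁻¹ * ((((m : Gk h (k + 1)) : GG φ) * ((m' : Gk h (k + 1)) : GG φ)) * (g : GG φ)) =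
      ((g : GG φ)⁻¹ * (((m : Gk h (k + 1)) : GG φ) * (g : GG φ))) *
      ((g : GG φ)⁻¹ * (((m' : Gk h (k + 1)) : GG φ) * (g : GG φ)))
    group
  · intro m m' e
    have e1 : (g : GG φ)⁻¹ * (((m : Gk h (k + 1)) : GG φ) * (g : GG φ)) =
        (g : GG φ)⁻¹ * (((m' : Gk h (k + 1)) : GG φ) * (g : GG φ)) := congrArg Subtype.val e
    exact Subtype.ext (Subtype.ext (mul_right_cancel (mul_left_cancel e1)))

theorem hier_Gk (h : Tri ℓ φ) : ∀ k : ℕ, Hier k (Gk h k) := by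
  intro k
  induction k with
  | zero =>
    show IsCyclic (Gk h 0)
    have h0 : Fk ℓ 0 = ⊥ := by
      rw [Fk, Subgroup.closure_eq_bot_iff]
      rintro x ⟨i, hi, -⟩
      exact absurd hi (Nat.not_lt_zero _)
    let F : Gk h 0 →* Multiplicative ℤ := SemidirectProduct.rightHom.comp (Gk h 0).subtype
    refine isCyclic_of_injective F ?_
    rw [injective_iff_map_eq_one]
    rintro ⟨m, hm⟩ hF
    have hr : m.right = 1 := hF
    rw [mem_Gk, h0, Subgroup.mem_bot] at hm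
    apply Subtype.ext
    exact SemidirectProduct.ext hm hr
  | succ k ih =>
    refine ⟨VV h k, TT h k, inferInstance, TT_isTree h k, TT_smul h k, TT_edge_cyclic h k, ?_⟩
    intro a
    obtain ⟨f, hf⟩ := TT_vertex h k a
    exact Hier.of_injective k _ _ f hf ih

theorem fg_le_Gk (h : Tri ℓ φ) (H : Subgroup (GG φ)) (hfg : H.FG) : ∃ k, H ≤ Gk h k := by
  have key : ∀ x : FreeGroup ι, ∃ k, x ∈ Fk ℓ k := by
    intro x
    induction x using FreeGroup.induction_on with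
    | C1 => exact ⟨0, one_mem _⟩
    | of i => exact ⟨ℓ i + 1, of_mem_Fk (Nat.lt_succ_self _)⟩
    | inv_of i ih =>
      obtain ⟨k, hk⟩ := ih
      exact ⟨k, inv_mem hk⟩
    | mul x y hx hy =>
      obtain ⟨k, hk⟩ := hx
      obtain ⟨l, hl⟩ := hy
      exact ⟨max k l, mul_mem (Fk_mono (le_max_left _ _) hk) (Fk_mono (le_max_right _ _) hl)⟩
  choose lv hlv using key
  obtain ⟨S, rfl⟩ := hfg
  refine ⟨S.sup (fun g => lv g.left), ?_⟩
  rw [Subgroup.closure_le]
  intro g hg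
  show g.left ∈ Fk ℓ _
  exact Fk_mono (Finset.le_sup (f := fun g : GG φ => lv g.left) hg) (hlv _)

end CZH
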