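import Pool.Agent.CZH.Main
import Pool.Agent.CZH.FreeHier

/-!
# CZH/Final: the two theorems of the hand-ins (assembly)
-/

namespace CZH

universe u

open Set Pointwise MulAction

/-- Finite hierarchies over cyclic and over convex cocompact subgroups.  `G` acts on `X`, and
`φ : H →* G` is a homomorphism.  `MHier X 0 H φ`: `H` is cyclic, or `H` acts cocompactly (through
`φ`) on a nonempty closed convex subset of `X`.  `MHier X (n + 1) H φ`: `H` acts on a tree, the
(setwise) stabilizer of every edge is cyclic or acts cocompactly on a nonempty closed convex subset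
of `X`, and the stabilizers of the vertices satisfy `MHier X n`. -/
def MHier {G : Type u} (X : Type u) [Group G] [MetricSpace X] [MulAction G X] :
    ℕ → ∀ (H : Type u) [Group H], (H →* G) → Prop
  | 0, H, _, φ => IsCyclic H ∨ ∃ A : Set X, CC φ A
  | n + 1, H, _, φ => ∃ (V : Type u) (T : SimpleGraph V) (_ : MulAction H V), T.IsTree ∧
      (∀ (h : H) (a b : V), T.Adj a b → T.Adj (h • a) (h • b)) ∧
      (∀ a b : V, T.Adj a b → IsCyclic (stabilizer H ({a, b} : Set V)) ∨
        ∃ A : Set X, CC (φ.comp (stabilizer H ({a, b} : Set V)).subtype) A) ∧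
      ∀ a : V, MHier X n (stabilizer H a) (φ.comp (stabilizer H a).subtype)

theorem MHier.rhier {G X : Type u} [Group G] [MetricSpace X] [MulAction G X] [ProperSpace X]
    [Nonempty X] (hX : C0 (dst X) univ) (hG : IsGeometric G X) : ∀ (n : ℕ) (H : Type u) [Group H]
    (φ : H →* G), MHier X n H φ → RHier X n H φ := by
  intro n
  induction n with
  | zero =>
    intro H _ φ hH
    rcases hH with hH | hH
    · exact CC_cyclic hX hG hH φ
    · exact hH
  | succ n ih =>
    rintro H _ φ ⟨V, T, _, hT, adj, hE, hst⟩
    refine ⟨V, T, inferInstance, hT, adj, ?_, fun a => ih _ _ (hst a)⟩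
    intro a b hab
    rcases hE a b hab with h | h
    · exact CC_cyclic hX hG h _
    · exact h

/-- Relative hierarchy theorem -/
theorem cat0_of_mhier {G X : Type u} [Group G] [MetricSpace X] [MulAction G X]
    [hne : Nonempty X] (hX : IsCAT0 X) (hG : IsGeometric G X) {H : Type u}
    [Group H] (hfg : Group.FG H) (φ : H →* G) (hφ : Function.Injective φ) (n : ℕ)
    (hH : MHier X n H φ) : CAT0Group H := by
  have : ProperSpace X := hG.proper_space hX.c0
  exact cat0_of_rhier hX hG hfg φ hφ n (hH.rhier hX.c0 hG)

/-- finitely generated subgroups of free-by-cyclic groups with triangular monodromy that embed in a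
CAT(0) group are CAT(0) -/
theorem cat0_of_triangular {ι : Type u} (ℓ : ι → ℕ) (φ : MulAut (FreeGroup ι)) (h : Tri ℓ φ)
    (H : Subgroup (GG φ)) (hfg : H.FG) {G : Type u} [Group G] (hG : CAT0Group G) (ψ : H →* G)
    (hψ : Function.Injective ψ) : CAT0Group H := by
  obtain ⟨k, hk⟩ := fg_le_Gk h H hfg
  have hH : Hier k H := Hier.of_injective k _ _ (Subgroup.inclusion hk)
    (Subgroup.inclusion_injective hk) (hier_Gk h k)
  exact cat0_of_hier hG ((Group.fg_iff_subgroup_fg H).mpr hfg) k hH ψ hψ

end CZH
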