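import Pool.Agent.CZH.Defs

/-!
# CZH/FreeDefs: free-by-cyclic groups with a triangular monodromy

`FreeGroup ι` with levels `ℓ : ι → ℕ`; `Fk ℓ k` is the free factor generated by the basis elements of
level `< k`.  An automorphism `φ` is triangular (`Tri ℓ φ`) if `φ x_i = u x_(σ i)^(±1) v` with
`u, v ∈ Fk ℓ (ℓ i)` and `σ` a permutation of the basis that preserves the levels.

## Proofs
`Tri.map_Fk`: closure induction on `x`; a generator `x_i`, `ℓ i < k`, goes to `u x_(σ i)^± v`, all in `Fk ℓ k`.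
`Tri.inv_map_Fk`: induction on `k`: for `ℓ i < k + 1` apply `φ⁻¹` to `φ x_j = u x_i^± v`, `j = σ⁻¹ i`:
`(φ⁻¹ x_i)^± = (φ⁻¹ u)⁻¹ x_j (φ⁻¹ v)⁻¹`, `u, v ∈ Fk ℓ (ℓ j)`, `ℓ j = ℓ i ≤ k`, use the induction hypothesis.
`Tri.mul`: `(φ ψ) x_i = φ(u) (φ x_(σ i))^± φ(v)`, levels of `σ_φ (σ_ψ i)` are equal.  `Tri.inv`: as in `inv_map_Fk`
with `inv_map_Fk` at level `ℓ i`.  `Tri.zpow`: induction on the integer (`zpow_natCast`, `zpow_negSucc`).
-/

namespace CZH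

universe u

open Set

variable {ι : Type u}

/-- the free factor generated by the basis elements of level `< k` -/
def Fk (ℓ : ι → ℕ) (k : ℕ) : Subgroup (FreeGroup ι) :=
  Subgroup.closure {x | ∃ i, ℓ i < k ∧ FreeGroup.of i = x}

/-- triangular automorphisms of a free group with respect to the levels `ℓ` -/
def Tri (ℓ : ι → ℕ) (φ : MulAut (FreeGroup ι)) : Prop :=
  ∃ σ : Equiv.Perm ι, (∀ i, ℓ (σ i) = ℓ i) ∧
    ∀ i, ∃ u ∈ Fk ℓ (ℓ i), ∃ v ∈ Fk ℓ (ℓ i),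
      φ (FreeGroup.of i) = u * FreeGroup.of (σ i) * v ∨
      φ (FreeGroup.of i) = u * (FreeGroup.of (σ i))⁻¹ * v

theorem Fk_mono {ℓ : ι → ℕ} {k l : ℕ} (h : k ≤ l) : Fk ℓ k ≤ Fk ℓ l := by
  apply Subgroup.closure_mono
  rintro x ⟨i, hi, rfl⟩
  exact ⟨i, lt_of_lt_of_le hi h, rfl⟩

theorem of_mem_Fk {ℓ : ι → ℕ} {k : ℕ} {i : ι} (h : ℓ i < k) : FreeGroup.of i ∈ Fk ℓ k :=
  Subgroup.subset_closure ⟨i, h, rfl⟩

theorem Tri.map_Fk {ℓ : ι → ℕ} {φ : MulAut (FreeGroup ι)} (h : Tri ℓ φ) (k : ℕ)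
    (x : FreeGroup ι) (hx : x ∈ Fk ℓ k) : φ x ∈ Fk ℓ k := by
  obtain ⟨σ, hσ, hφ⟩ := h
  unfold Fk at hx
  induction hx using Subgroup.closure_induction with
  | mem x hx =>
    obtain ⟨i, hi, rfl⟩ := hx
    obtain ⟨u, hu, v, hv, e⟩ := hφ i
    have hu' := Fk_mono hi.le hu
    have hv' := Fk_mono hi.le hv
    have hs : FreeGroup.of (σ i) ∈ Fk ℓ k := of_mem_Fk (by rw [hσ]; exact hi)
    rcases e with e | e
    · rw [e]; exact mul_mem (mul_mem hu' hs) hv'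
    · rw [e]; exact mul_mem (mul_mem hu' (inv_mem hs)) hv'
  | one => rw [map_one]; exact one_mem _
  | mul x y _ _ hx hy => rw [map_mul]; exact mul_mem hx hy
  | inv x _ hx => rw [map_inv]; exact inv_mem hx

theorem Tri.inv_map_Fk {ℓ : ι → ℕ} {φ : MulAut (FreeGroup ι)} (h : Tri ℓ φ) (k : ℕ)
    (x : FreeGroup ι) (hx : x ∈ Fk ℓ k) : φ⁻¹ x ∈ Fk ℓ k := by
  obtain ⟨σ, hσ, hφ⟩ := h
  induction k generalizing x with
  | zero =>
    have : x = 1 := by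
      unfold Fk at hx
      have e : {x : FreeGroup ι | ∃ i, ℓ i < 0 ∧ FreeGroup.of i = x} = ∅ := by
        ext y
        simp
      rw [e, Subgroup.closure_empty] at hx
      exact Subgroup.mem_bot.mp hx
    rw [this, map_one]
    exact one_mem _
  | succ k ih =>
    unfold Fk at hx
    induction hx using Subgroup.closure_induction with
    | mem x hx =>
      obtain ⟨i, hi, rfl⟩ := hx
      obtain ⟨u, hu, v, hv, e⟩ := hφ (σ.symm i)
      rw [Equiv.apply_symm_apply] at e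
      have hl : ℓ (σ.symm i) = ℓ i := by
        rw [← hσ (σ.symm i), Equiv.apply_symm_apply]
      rw [hl] at hu hv
      have hk : ℓ i ≤ k := Nat.lt_succ_iff.mp hi
      have hu' : φ⁻¹ u ∈ Fk ℓ (k + 1) := Fk_mono (Nat.le_succ k) (ih u (Fk_mono hk hu))
      have hv' : φ⁻¹ v ∈ Fk ℓ (k + 1) := Fk_mono (Nat.le_succ k) (ih v (Fk_mono hk hv))
      have hj : FreeGroup.of (σ.symm i) ∈ Fk ℓ (k + 1) := of_mem_Fk (by rw [hl]; exact hi)
      have h0 : φ⁻¹ (φ (FreeGroup.of (σ.symm i))) = FreeGroup.of (σ.symm i) :=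
        MulAut.inv_apply_self _ _ _
      rcases e with e | e
      · rw [e, map_mul, map_mul] at h0
        have : φ⁻¹ (FreeGroup.of i) = (φ⁻¹ u)⁻¹ * FreeGroup.of (σ.symm i) * (φ⁻¹ v)⁻¹ := by
          rw [← h0]; group
        rw [this]
        exact mul_mem (mul_mem (inv_mem hu') hj) (inv_mem hv')
      · rw [e, map_mul, map_mul, map_inv] at h0
        have : φ⁻¹ (FreeGroup.of i) = φ⁻¹ v * (FreeGroup.of (σ.symm i))⁻¹ * φ⁻¹ u := by
          rw [← h0]; group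
        rw [this]
        exact mul_mem (mul_mem hv' (inv_mem hj)) hu'
    | one => rw [map_one]; exact one_mem _
    | mul x y _ _ hx hy => rw [map_mul]; exact mul_mem hx hy
    | inv x _ hx => rw [map_inv]; exact inv_mem hx

theorem Tri.one (ℓ : ι → ℕ) : Tri ℓ (1 : MulAut (FreeGroup ι)) := by
  refine ⟨1, fun i => rfl, fun i => ⟨1, one_mem _, 1, one_mem _, Or.inl ?_⟩⟩
  simp

theorem Tri.mul {ℓ : ι → ℕ} {φ ψ : MulAut (FreeGroup ι)} (h : Tri ℓ φ) (h' : Tri ℓ ψ) :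
    Tri ℓ (φ * ψ) := by
  have hmap := fun k x hx => h.map_Fk k x hx
  obtain ⟨σ, hσ, hφ⟩ := h
  obtain ⟨τ, hτ, hψ⟩ := h'
  refine ⟨σ * τ, fun i => by rw [Equiv.Perm.mul_apply, hσ, hτ], fun i => ?_⟩
  obtain ⟨u, hu, v, hv, e⟩ := hψ i
  obtain ⟨u', hu', v', hv', e'⟩ := hφ (τ i)
  rw [hτ] at hu' hv'
  rw [MulAut.mul_apply, Equiv.Perm.mul_apply]
  have hu1 := hmap _ u hu
  have hv1 := hmap _ v hv
  rcases e with e | e <;> rcases e' with e' | e'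
  · refine ⟨φ u * u', mul_mem hu1 hu', v' * φ v, mul_mem hv' hv1, Or.inl ?_⟩
    rw [e, map_mul, map_mul, e']
    group
  · refine ⟨φ u * u', mul_mem hu1 hu', v' * φ v, mul_mem hv' hv1, Or.inr ?_⟩
    rw [e, map_mul, map_mul, e']
    group
  · refine ⟨φ u * v'⁻¹, mul_mem hu1 (inv_mem hv'), u'⁻¹ * φ v, mul_mem (inv_mem hu') hv1,
      Or.inr ?_⟩
    rw [e, map_mul, map_mul, map_inv, e']
    group
  · refine ⟨φ u * v'⁻¹, mul_mem hu1 (inv_mem hv'), u'⁻¹ * φ v, mul_mem (inv_mem hu') hv1,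
      Or.inl ?_⟩
    rw [e, map_mul, map_mul, map_inv, e']
    group

theorem Tri.inv {ℓ : ι → ℕ} {φ : MulAut (FreeGroup ι)} (h : Tri ℓ φ) : Tri ℓ φ⁻¹ := by
  have hmap := fun k x hx => h.inv_map_Fk k x hx
  obtain ⟨σ, hσ, hφ⟩ := h
  have hl : ∀ i, ℓ (σ.symm i) = ℓ i := by
    intro i
    rw [← hσ (σ.symm i), Equiv.apply_symm_apply]
  refine ⟨σ.symm, hl, fun i => ?_⟩
  obtain ⟨u, hu, v, hv, e⟩ := hφ (σ.symm i)
  rw [Equiv.apply_symm_apply] at e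
  rw [hl] at hu hv
  have hu' := hmap _ u hu
  have hv' := hmap _ v hv
  have h0 : φ⁻¹ (φ (FreeGroup.of (σ.symm i))) = FreeGroup.of (σ.symm i) :=
    MulAut.inv_apply_self _ _ _
  rcases e with e | e
  · rw [e, map_mul, map_mul] at h0
    refine ⟨(φ⁻¹ u)⁻¹, inv_mem hu', (φ⁻¹ v)⁻¹, inv_mem hv', Or.inl ?_⟩
    rw [← h0]; group
  · rw [e, map_mul, map_mul, map_inv] at h0
    refine ⟨φ⁻¹ v, hv', φ⁻¹ u, hu', Or.inr ?_⟩
    rw [← h0]; group

theorem Tri.zpow {ℓ : ι → ℕ} {φ : MulAut (FreeGroup ι)} (h : Tri ℓ φ) (n : ℤ) :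
    Tri ℓ (φ ^ n) := by
  have hpow : ∀ m : ℕ, Tri ℓ (φ ^ m) := by
    intro m
    induction m with
    | zero => rw [pow_zero]; exact Tri.one ℓ
    | succ m ih => rw [pow_succ]; exact ih.mul h
  cases n with
  | ofNat m => rw [Int.ofNat_eq_natCast, zpow_natCast]; exact hpow m
  | negSucc m => rw [zpow_negSucc]; exact (hpow (m + 1)).inv

/-- the free-by-cyclic group `F ⋊ ℤ` with monodromy `φ` -/
abbrev GG (φ : MulAut (FreeGroup ι)) : Type u :=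
  FreeGroup ι ⋊[zpowersHom (MulAut (FreeGroup ι)) φ] (Multiplicative ℤ)

theorem Tri.act_mem {ℓ : ι → ℕ} {φ : MulAut (FreeGroup ι)} (h : Tri ℓ φ) (k : ℕ)
    (n : Multiplicative ℤ) {x : FreeGroup ι} (hx : x ∈ Fk ℓ k) :
    zpowersHom (MulAut (FreeGroup ι)) φ n x ∈ Fk ℓ k := by
  rw [zpowersHom_apply]
  exact (h.zpow _).map_Fk k x hx

/-- the subgroup `Fk ⋊ ℤ` -/
def Gk {ℓ : ι → ℕ} {φ : MulAut (FreeGroup ι)} (h : Tri ℓ φ) (k : ℕ) : Subgroup (GG φ) where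
  carrier := {g | g.left ∈ Fk ℓ k}
  mul_mem' := by
    intro a b ha hb
    show (a * b).left ∈ Fk ℓ k
    rw [SemidirectProduct.mul_left]
    exact mul_mem ha (h.act_mem k _ hb)
  one_mem' := by
    show (1 : GG φ).left ∈ Fk ℓ k
    rw [SemidirectProduct.one_left]
    exact one_mem _
  inv_mem' := by
    intro a ha
    show a⁻¹.left ∈ Fk ℓ k
    rw [SemidirectProduct.inv_left]
    exact h.act_mem k _ (inv_mem ha)

theorem mem_Gk {ℓ : ι → ℕ} {φ : MulAut (FreeGroup ι)} (h : Tri ℓ φ) (k : ℕ) (g : GG φ) :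
    g ∈ Gk h k ↔ g.left ∈ Fk ℓ k := Iff.rfl

end CZH
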