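import Pool.Agent.CZH.Defs

/-!
# CZH/TreeCrit: a criterion for trees (Mathlib only)

## Proof
Suppose there is a cycle (`SimpleGraph.Walk.IsCycle`).  Take a vertex `v` of the cycle with `lev v` maximal and
rotate the cycle so that it starts at `v` (`Walk.rotate`).  The two neighbours `a` (second vertex) and `b`
(penultimate vertex) of `v` on the cycle are different (`IsCycle.snd_ne_penultimate`).  `lev a, lev b ≤ lev v`, so the
hypothesis for the edges `a v`, `b v` gives `a = par v` and `b = par v` (the other alternative says
`lev v < lev a`): contradiction.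
-/

namespace CZH

universe u

theorem isAcyclic_of_par {V : Type u} (T : SimpleGraph V) (lev : V → ℕ) (par : V → V)
    (h : ∀ a b, T.Adj a b → (a = par b ∧ lev a < lev b) ∨ (b = par a ∧ lev b < lev a)) :
    T.IsAcyclic := by
  classical
  intro v₀ c hc
  obtain ⟨v, hv, hmax⟩ := Finset.exists_max_image c.support.toFinset lev
    ⟨v₀, by simp⟩
  rw [List.mem_toFinset] at hv
  have hc' := hc.rotate hv
  have hmax' : ∀ w ∈ (c.rotate v hv).support, lev w ≤ lev v := by
    intro w hw
    rw [SimpleGraph.Walk.mem_support_rotate_iff] at hw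
    exact hmax w (List.mem_toFinset.2 hw)
  have hn := hc'.not_nil
  have key : ∀ a ∈ (c.rotate v hv).support, T.Adj v a → a = par v := by
    intro a ha hadj
    rcases h v a hadj with ⟨-, h2⟩ | ⟨h1, -⟩
    · exact absurd (hmax' a ha) (not_le.2 h2)
    · exact h1
  have h1 := key _ ((c.rotate v hv).getVert_mem_support 1) ((c.rotate v hv).adj_snd hn)
  have h2 := key _ ((c.rotate v hv).getVert_mem_support _)
    ((c.rotate v hv).adj_penultimate hn).symm
  exact hc'.snd_ne_penultimate (h1.trans h2.symm)

end CZH
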