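import Pool.Agent.CZH.FreeWord
import Pool.Agent.CZH.TreeCrit

/-!
# CZH/FreeTree: the coset tree of `F_(k+1) ⋊ ℤ` over `F_k ⋊ ℤ`

`Γ = Gk h (k+1)`, `Δ = (Gk h k).subgroupOf Γ`, vertices `Γ ⧸ Δ`, edges `g Δ ~ g x_j Δ` for `g ∈ Γ`, `ℓ j = k`
(`x_j = inl (of j)`).

## Proofs
`TT_smul`: `m • (g Δ) = (m g) Δ` (`MulAction.Quotient.smul_mk` / `rfl`), injectivity of `m •`.
`mk_eq`: `QuotientGroup.eq`, membership in `Δ` is `left ∈ Fk ℓ k`; left of `g⁻¹ g'`.
`left_of_eq`: if `(g : Γ ⧸ Δ) = g'` then `g' = g * δ`, `δ.left ∈ Fk ℓ k`, `g'.left = g.left * θ(g.right) δ.left`, and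
`θ(..) δ.left ∈ Fk ℓ k` (`Tri.act_mem`).
`TT_adj_nf`: let `a = g Δ`, `b = g x_j Δ` (or the other way round), `g = (f₀, n)`: `(g x_j).left = f₀ * θ(n) x_j` and
`θ(n)` is `φ ^ n` (`zpowersHom_apply`), triangular (`Tri.zpow`): `θ(n) x_j = u x_(j')^± v`, `ℓ j' = k`, `u, v ∈ Fk ℓ k`
(`ℓ j = k`). `f = f₀ u`, `x = x_(j')^±`: `g Δ = (inl f) Δ` and `g x_j Δ = inl (f x) Δ` by `mk_eq`.  In the other
orientation (`a = g x_j Δ`, `b = g Δ`): `f' = f x`, `x' = x⁻¹`.
`TT_isTree`: acyclic by `isAcyclic_of_par` with `lf v = ((Quotient.out v : Γ) : GG φ).left`,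
`lev v = (can ℓ k (lf v)).length`, `par v = if hm : pr ℓ k (lf v) ∈ Fk ℓ (k+1) then mk ⟨inl (pr ..), hm⟩ else v`.
For `v = mk ⟨inl f, _⟩`: `lf v = f * a` with `a ∈ Fk ℓ k` (`left_of_eq`), so `can ℓ k (lf v) = can ℓ k f`
(`can_mul_low`) and `pr ℓ k (lf v) = pr ℓ k f`. Use `TT_adj_nf` and `can_step`.
Connected: nonempty; all vertices are reachable from `mk 1`: `mk g = mk (inl g.left)` (`mk_eq`), and for
`f ∈ Fk ℓ (k+1)` induction (`Subgroup.closure_induction_right` or an induction that multiplies by one generator or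
its inverse on the right): `mk (inl (f x_i^±))` is equal to `mk (inl f)` if `ℓ i < k` (`mk_eq`) and adjacent or equal
to it if `ℓ i = k` (for `x_i⁻¹`: `g = inl (f x_i⁻¹)`, `g x_i = inl f`).
-/

namespace CZH

universe u

open Set MulAction

variable {ι : Type u} {ℓ : ι → ℕ} {φ : MulAut (FreeGroup ι)}

/-- the vertex set -/
abbrev VV (h : Tri ℓ φ) (k : ℕ) : Type u :=
  ↥(Gk h (k + 1)) ⧸ (Gk h k).subgroupOf (Gk h (k + 1))

/-- the element `inl f` of `Gk h k` for `f ∈ Fk ℓ k` -/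
def iin (h : Tri ℓ φ) (k : ℕ) (f : FreeGroup ι) (hf : f ∈ Fk ℓ k) : Gk h k :=
  ⟨SemidirectProduct.inl f, hf⟩

/-- the coset tree -/
def TT (h : Tri ℓ φ) (k : ℕ) : SimpleGraph (VV h k) where
  Adj a b := a ≠ b ∧ ∃ (g : Gk h (k + 1)) (j : ι) (hj : ℓ j = k),
    (a = (g : VV h k) ∧
      b = ((g * iin h (k + 1) (FreeGroup.of j) (of_mem_Fk (hj ▸ Nat.lt_succ_self _)) :
        Gk h (k + 1)) : VV h k)) ∨
    (b = (g : VV h k) ∧
      a = ((g * iin h (k + 1) (FreeGroup.of j) (of_mem_Fk (hj ▸ Nat.lt_succ_self _)) :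
        Gk h (k + 1)) : VV h k))
  symm := by
    constructor
    rintro a b ⟨hab, g, j, hj, h1 | h1⟩
    · exact ⟨hab.symm, g, j, hj, Or.inr h1⟩
    · exact ⟨hab.symm, g, j, hj, Or.inl h1⟩
  loopless := ⟨fun a ha => ha.1 rfl⟩

theorem TT_smul (h : Tri ℓ φ) (k : ℕ) (m : Gk h (k + 1)) (a b : VV h k)
    (hab : (TT h k).Adj a b) : (TT h k).Adj (m • a) (m • b) := by
  obtain ⟨hne, g, j, hj, h1⟩ := hab
  refine ⟨fun e => hne (MulAction.injective m e), m * g, j, hj, ?_⟩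
  have e2 : ∀ y : Gk h (k + 1), m • ((g * y : Gk h (k + 1)) : VV h k) =
      ((m * g * y : Gk h (k + 1)) : VV h k) := by
    intro y
    rw [mul_assoc]
    rfl
  rcases h1 with ⟨rfl, rfl⟩ | ⟨rfl, rfl⟩
  · exact Or.inl ⟨rfl, e2 _⟩
  · exact Or.inr ⟨rfl, e2 _⟩

theorem mk_eq (h : Tri ℓ φ) (k : ℕ) (g g' : Gk h (k + 1)) :
    (g : VV h k) = (g' : VV h k) ↔ ((g : GG φ)⁻¹ * (g' : GG φ)).left ∈ Fk ℓ k := by
  rw [QuotientGroup.eq, Subgroup.mem_subgroupOf, mem_Gk]
  rfl

theorem left_of_eq (h : Tri ℓ φ) (k : ℕ) (g g' : Gk h (k + 1))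
    (e : (g : VV h k) = (g' : VV h k)) :
    ∃ a ∈ Fk ℓ k, (g' : GG φ).left = (g : GG φ).left * a := by
  rw [mk_eq] at e
  refine ⟨_, h.act_mem k (g : GG φ).right e, ?_⟩
  have h1 : (g' : GG φ) = (g : GG φ) * ((g : GG φ)⁻¹ * (g' : GG φ)) := by group
  conv_lhs => rw [h1, SemidirectProduct.mul_left]

private theorem mk_eq2 (h : Tri ℓ φ) (k : ℕ) (g g' : Gk h (k + 1))
    (e : ((g : GG φ).left)⁻¹ * (g' : GG φ).left ∈ Fk ℓ k) : (g : VV h k) = (g' : VV h k) := by
  rw [mk_eq, SemidirectProduct.mul_left, SemidirectProduct.inv_left, SemidirectProduct.inv_right,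
    ← map_mul]
  exact h.act_mem k _ e

private theorem iin_congr (h : Tri ℓ φ) (k : ℕ) {f f' : FreeGroup ι} (hf : f ∈ Fk ℓ k)
    (hf' : f' ∈ Fk ℓ k) (e : f = f') : iin h k f hf = iin h k f' hf' := by
  subst e
  rfl

private theorem iin_mul (h : Tri ℓ φ) (k : ℕ) {f f' : FreeGroup ι} (hf : f ∈ Fk ℓ k)
    (hf' : f' ∈ Fk ℓ k) : iin h k f hf * iin h k f' hf' = iin h k (f * f') (mul_mem hf hf') := by
  apply Subtype.ext
  exact (map_mul SemidirectProduct.inl f f').symm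

/-- normal form of the edges -/
theorem TT_adj_nf (h : Tri ℓ φ) (k : ℕ) (a b : VV h k) (hab : (TT h k).Adj a b) :
    ∃ (f x : FreeGroup ι) (j : ι) (hf : f ∈ Fk ℓ (k + 1)) (hfx : f * x ∈ Fk ℓ (k + 1)),
      ℓ j = k ∧ (x = FreeGroup.of j ∨ x = (FreeGroup.of j)⁻¹) ∧
      a = (iin h (k + 1) f hf : VV h k) ∧ b = (iin h (k + 1) (f * x) hfx : VV h k) := by
  obtain ⟨hne, g, j, hj, h1⟩ := hab
  -- the shape of the translated generator
  obtain ⟨σ, hσ, hform⟩ := h.zpow (Multiplicative.toAdd (g : GG φ).right)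
  obtain ⟨u, hu, v, hv, huv⟩ := hform j
  rw [hj] at hu hv
  obtain ⟨x, hx, hθ⟩ : ∃ x : FreeGroup ι, (x = FreeGroup.of (σ j) ∨ x = (FreeGroup.of (σ j))⁻¹) ∧
      (φ ^ (Multiplicative.toAdd (g : GG φ).right)) (FreeGroup.of j) = u * x * v := by
    rcases huv with huv | huv
    · exact ⟨_, Or.inl rfl, huv⟩
    · exact ⟨_, Or.inr rfl, huv⟩
  have hσk : ℓ (σ j) = k := (hσ j).trans hj
  have hof : FreeGroup.of (σ j) ∈ Fk ℓ (k + 1) := of_mem_Fk (hσk ▸ Nat.lt_succ_self _)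
  have hxm : x ∈ Fk ℓ (k + 1) := by
    rcases hx with rfl | rfl
    · exact hof
    · exact inv_mem hof
  have hf0 : (g : GG φ).left ∈ Fk ℓ (k + 1) := g.2
  have hf : (g : GG φ).left * u ∈ Fk ℓ (k + 1) := mul_mem hf0 (Fk_mono (Nat.le_succ k) hu)
  have hfx : (g : GG φ).left * u * x ∈ Fk ℓ (k + 1) := mul_mem hf hxm
  have e1 : (g : VV h k) = (iin h (k + 1) ((g : GG φ).left * u) hf : VV h k) := by
    apply mk_eq2
    show ((g : GG φ).left)⁻¹ * ((g : GG φ).left * u) ∈ Fk ℓ k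
    rw [inv_mul_cancel_left]
    exact hu
  have e2 : ((g * iin h (k + 1) (FreeGroup.of j) (of_mem_Fk (hj ▸ Nat.lt_succ_self _)) :
        Gk h (k + 1)) : VV h k) = (iin h (k + 1) ((g : GG φ).left * u * x) hfx : VV h k) := by
    apply mk_eq2
    have e3 : ((g * iin h (k + 1) (FreeGroup.of j) (of_mem_Fk (hj ▸ Nat.lt_succ_self _)) :
        Gk h (k + 1)) : GG φ).left = (g : GG φ).left * (u * x * v) := by
      rw [← hθ]
      rfl
    rw [e3]
    show ((g : GG φ).left * (u * x * v))⁻¹ * ((g : GG φ).left * u * x) ∈ Fk ℓ k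
    have e4 : ((g : GG φ).left * (u * x * v))⁻¹ * ((g : GG φ).left * u * x) = v⁻¹ := by group
    rw [e4]
    exact inv_mem hv
  rcases h1 with ⟨ha, hb⟩ | ⟨hb, ha⟩
  · exact ⟨_, x, σ j, hf, hfx, hσk, hx, ha.trans e1, hb.trans e2⟩
  · have e5 : (g : GG φ).left * u * x * x⁻¹ = (g : GG φ).left * u := mul_inv_cancel_right _ _
    refine ⟨_, x⁻¹, σ j, hfx, by rw [e5]; exact hf, hσk, ?_, ha.trans e2, ?_⟩
    · rcases hx with rfl | rfl
      · exact Or.inr rfl
      · exact Or.inl (inv_inv _)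
    · rw [hb, e1]
      exact congrArg _ (iin_congr h (k + 1) _ _ e5.symm)

open Classical in
theorem TT_isTree (h : Tri ℓ φ) (k : ℕ) : (TT h k).IsTree := by
  refine ⟨?_, ?_⟩
  · -- connected
    have key : ∀ (f : FreeGroup ι) (hf : f ∈ Fk ℓ (k + 1)),
        (TT h k).Reachable ((1 : Gk h (k + 1)) : VV h k) (iin h (k + 1) f hf : VV h k) := by
      intro f hf
      induction hf using Subgroup.closure_induction_right with
      | one =>
        have e : (iin h (k + 1) 1 (one_mem _) : VV h k) = ((1 : Gk h (k + 1)) : VV h k) := by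
          apply congrArg
          apply Subtype.ext
          exact map_one SemidirectProduct.inl
        rw [e]
      | mul_right x hx y hy ih =>
        obtain ⟨i, hi, rfl⟩ := hy
        refine ih.trans ?_
        by_cases he : (iin h (k + 1) x hx : VV h k) = (iin h (k + 1) (x * FreeGroup.of i)
            (mul_mem hx (Subgroup.subset_closure ⟨i, hi, rfl⟩)) : VV h k)
        · rw [he]
        · have hik : ℓ i = k := by
            by_contra hc
            apply he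
            apply mk_eq2
            show x⁻¹ * (x * FreeGroup.of i) ∈ Fk ℓ k
            rw [inv_mul_cancel_left]
            exact of_mem_Fk (by omega)
          refine SimpleGraph.Adj.reachable ⟨he, iin h (k + 1) x hx, i, hik, Or.inl ⟨rfl, ?_⟩⟩
          rw [iin_mul]
      | mul_inv_cancel x hx y hy ih =>
        obtain ⟨i, hi, rfl⟩ := hy
        refine ih.trans ?_
        by_cases he : (iin h (k + 1) x hx : VV h k) = (iin h (k + 1) (x * (FreeGroup.of i)⁻¹)
            (mul_mem hx (inv_mem (Subgroup.subset_closure ⟨i, hi, rfl⟩))) : VV h k)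
        · rw [he]
        · have hik : ℓ i = k := by
            by_contra hc
            apply he
            apply mk_eq2
            show x⁻¹ * (x * (FreeGroup.of i)⁻¹) ∈ Fk ℓ k
            rw [inv_mul_cancel_left]
            exact inv_mem (of_mem_Fk (by omega))
          refine SimpleGraph.Adj.reachable ⟨he, iin h (k + 1) (x * (FreeGroup.of i)⁻¹)
            (mul_mem hx (inv_mem (Subgroup.subset_closure ⟨i, hi, rfl⟩))), i, hik, Or.inr ⟨rfl, ?_⟩⟩
          rw [iin_mul]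
          exact congrArg _ (iin_congr h (k + 1) _ _ (inv_mul_cancel_right _ _).symm)
    have key2 : ∀ v : VV h k, (TT h k).Reachable ((1 : Gk h (k + 1)) : VV h k) v := by
      intro v
      obtain ⟨g, rfl⟩ := QuotientGroup.mk_surjective v
      have e : (g : VV h k) = (iin h (k + 1) (g : GG φ).left g.2 : VV h k) := by
        apply mk_eq2
        show ((g : GG φ).left)⁻¹ * (g : GG φ).left ∈ Fk ℓ k
        rw [inv_mul_cancel]
        exact one_mem _
      have := key (g : GG φ).left g.2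
      rwa [← e] at this
    haveI : Nonempty (VV h k) := ⟨((1 : Gk h (k + 1)) : VV h k)⟩
    exact ⟨fun a b => (key2 a).symm.trans (key2 b)⟩
  · -- acyclic
    let lf : VV h k → FreeGroup ι := fun v => ((Quotient.out v : Gk h (k + 1)) : GG φ).left
    let lev : VV h k → ℕ := fun v => (can ℓ k (lf v)).length
    let par : VV h k → VV h k := fun v =>
      if hm : pr ℓ k (lf v) ∈ Fk ℓ (k + 1) then (iin h (k + 1) (pr ℓ k (lf v)) hm : VV h k) else v
    have hcan : ∀ (f : FreeGroup ι) (hf : f ∈ Fk ℓ (k + 1)),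
        can ℓ k (lf (iin h (k + 1) f hf : VV h k)) = can ℓ k f := by
      intro f hf
      obtain ⟨a, ha, e⟩ := left_of_eq h k (iin h (k + 1) f hf)
        (Quotient.out (iin h (k + 1) f hf : VV h k)) (QuotientGroup.out_eq' _).symm
      show can ℓ k ((Quotient.out (iin h (k + 1) f hf : VV h k) : Gk h (k + 1)) : GG φ).left = _
      rw [e]
      exact can_mul_low _ _ ha
    have hpr : ∀ (f : FreeGroup ι) (hf : f ∈ Fk ℓ (k + 1)),
        pr ℓ k (lf (iin h (k + 1) f hf : VV h k)) = pr ℓ k f := by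
      intro f hf
      rw [pr, pr, hcan]
    have hpar : ∀ (f f' : FreeGroup ι) (hf : f ∈ Fk ℓ (k + 1)) (hf' : f' ∈ Fk ℓ (k + 1)),
        pr ℓ k f = f' → par (iin h (k + 1) f hf : VV h k) = (iin h (k + 1) f' hf' : VV h k) := by
      intro f f' hf hf' e
      have hm : pr ℓ k (lf (iin h (k + 1) f hf : VV h k)) ∈ Fk ℓ (k + 1) := by
        rw [hpr, e]; exact hf'
      show (if hm : pr ℓ k (lf (iin h (k + 1) f hf : VV h k)) ∈ Fk ℓ (k + 1) then
        (iin h (k + 1) (pr ℓ k (lf (iin h (k + 1) f hf : VV h k))) hm : VV h k) else _) = _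
      rw [dif_pos hm]
      exact congrArg _ (iin_congr h (k + 1) _ _ ((hpr f hf).trans e))
    refine isAcyclic_of_par (TT h k) lev par ?_
    intro a b hab
    obtain ⟨f, x, j, hf, hfx, hj, hx, rfl, rfl⟩ := TT_adj_nf h k a b hab
    rcases can_step f x j hj.ge hx with ⟨h1, h2⟩ | ⟨h1, h2⟩
    · left
      refine ⟨(hpar _ _ hfx hf h1).symm, ?_⟩
      show (can ℓ k (lf _)).length < (can ℓ k (lf _)).length
      rw [hcan, hcan]
      exact h2
    · right
      refine ⟨(hpar _ _ hf hfx h1).symm, ?_⟩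
      show (can ℓ k (lf _)).length < (can ℓ k (lf _)).length
      rw [hcan, hcan]
      exact h2

end CZH
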