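import Pool.Agent.CZH.FreeDefs

/-!
# CZH/FreeWord: reduced words modulo the right action of the free factor `Fk ℓ k`

`can ℓ k g`: the reduced word of `g` with the trailing letters of level `< k` removed.

## Proofs (a letter `(i, e)` is low if `ℓ i < k`)
Key computation: for a letter `(j, e)`, `toWord (g * mk [(j, e)])` is `toWord g ++ [(j, e)]` if the last letter of
`toWord g` is not `(j, !e)` (the concatenation is reduced: `IsReduced` is a chain condition, `IsReduced.reduce_eq`,
`toWord_mk`, `mk_toWord`), and if `toWord g = L' ++ [(j, !e)]` it is `L'` (`g * mk [(j,e)] = mk L'` and `L'` is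
reduced as a part of a reduced word).
`can_mul_low`: closure induction on `a` (`Subgroup.closure_induction` with `g` general: the set of `a` with
`∀ g, can (g * a) = can g` is a subgroup containing the low generators): for a low generator `x_i` the two cases of
the key computation: `(toWord g ++ [low]).rdropWhile low = (toWord g).rdropWhile low`, and
`(L' ++ [low]).rdropWhile = L'.rdropWhile`.
`can_low`: `can 1 = []` and `can_mul_low`.
`mk_can`: `toWord g = can g ++ t` with all letters of `t` low (`List.rdropWhile_append_takeWhile`-type fact: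
`List.rdropWhile`, `List.rtakeWhile`), so `a = mk t ∈ Fk ℓ k`.
`can_step`: `x = mk [(j, e)]`, `(j, e)` not low.  Case 1: `toWord (g x) = toWord g ++ [(j,e)]`, last letter not low,
so `can (g x) = toWord g ++ [(j,e)]`, `dropLast = toWord g`, `mk (toWord g) = g`,
`length (can g) ≤ length (toWord g) < length (can (g x))`.  Case 2: `toWord g = L' ++ [(j,!e)] = can g`,
`pr g = mk L' = g x`, `length (can (g x)) ≤ length L' < length (can g)`.
`not_swap`: apply the homomorphism `FreeGroup.lift (fun i => if i = j then Multiplicative.ofAdd (1:ℤ) else 1)` : the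
elements of `Fk ℓ k` go to `1`, `of j * a * of j` goes to `ofAdd 2`.
`fix_one`: suppose `a ≠ 1`. Then the last letter of `toWord a⁻¹`.. direct: `toWord ((of j)⁻¹ * a) = (j, false) :: toWord a`
(reduced: the first letter of `toWord a` is low so it is not a `j` letter), its last letter is low so it is not
`(j, false)`; so by the key computation `toWord ((of j)⁻¹ * a * of j)` ends with `(j, true)` which is not low; so its `can`
is not `[]`, contradiction with `can_low`.  (All letters of `toWord a` are low for `a ∈ Fk ℓ k`: from `mk_can`/`can_low`: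
`can a = []` says exactly this, `List.rdropWhile_eq_nil_iff`.)
-/

namespace CZH

universe u

open Set

variable {ι : Type u}

open Classical in
/-- the reduced word of `g` without the trailing letters of level `< k` -/
noncomputable def can (ℓ : ι → ℕ) (k : ℕ) (g : FreeGroup ι) : List (ι × Bool) :=
  g.toWord.rdropWhile (fun p => decide (ℓ p.1 < k))

/-- the parent element: drop the last letter of `can` -/
noncomputable def pr (ℓ : ι → ℕ) (k : ℕ) (g : FreeGroup ι) : FreeGroup ι :=
  FreeGroup.mk (can ℓ k g).dropLast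

private theorem mk_cancel (p : ι × Bool) :
    FreeGroup.mk [(p.1, !p.2)] * FreeGroup.mk [p] = (1 : FreeGroup ι) := by
  have h1 : (FreeGroup.mk [p])⁻¹ = FreeGroup.mk [(p.1, !p.2)] := by
    rw [FreeGroup.inv_mk]
    rfl
  rw [← h1, inv_mul_cancel]

open Classical in
/-- multiplication by a letter -/
private theorem step_cases (g : FreeGroup ι) (p : ι × Bool) :
    (g * FreeGroup.mk [p]).toWord = g.toWord ++ [p] ∨
      ∃ L', g.toWord = L' ++ [(p.1, !p.2)] ∧ (g * FreeGroup.mk [p]).toWord = L' := by
  have hred : FreeGroup.IsReduced g.toWord := FreeGroup.isReduced_toWord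
  by_cases hlast : ∃ L', g.toWord = L' ++ [(p.1, !p.2)]
  · right
    obtain ⟨L', hL'⟩ := hlast
    refine ⟨L', hL', ?_⟩
    have h1 : g * FreeGroup.mk [p] = FreeGroup.mk L' := by
      conv_lhs => rw [← FreeGroup.mk_toWord (x := g), hL', ← FreeGroup.mul_mk]
      rw [mul_assoc, mk_cancel, mul_one]
    rw [h1, FreeGroup.toWord_mk]
    apply FreeGroup.IsReduced.reduce_eq
    rw [hL'] at hred
    exact List.IsChain.left_of_append hred
  · left
    have h1 : g * FreeGroup.mk [p] = FreeGroup.mk (g.toWord ++ [p]) := by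
      conv_lhs => rw [← FreeGroup.mk_toWord (x := g)]
      rw [FreeGroup.mul_mk]
    rw [h1, FreeGroup.toWord_mk]
    apply FreeGroup.IsReduced.reduce_eq
    rw [FreeGroup.IsReduced, List.isChain_append]
    refine ⟨hred, List.isChain_singleton _, ?_⟩
    intro x hx y hy e
    simp only [List.head?_cons, Option.mem_def, Option.some.injEq] at hy
    subst hy
    by_contra hne
    apply hlast
    have h2 : ∃ L', g.toWord = L' ++ [x] := by
      rw [Option.mem_def, List.getLast?_eq_some_iff] at hx
      exact hx
    obtain ⟨L'', hL''⟩ := h2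
    refine ⟨L'', ?_⟩
    rw [hL'']
    have h3 : x = (p.1, !p.2) := Prod.ext e (Bool.eq_not_iff.2 hne)
    rw [h3]

theorem can_mul_low {ℓ : ι → ℕ} {k : ℕ} (g a : FreeGroup ι) (ha : a ∈ Fk ℓ k) :
    can ℓ k (g * a) = can ℓ k g := by
  classical
  have key : ∀ a ∈ Fk ℓ k, ∀ g : FreeGroup ι, can ℓ k (g * a) = can ℓ k g := by
    intro a ha
    induction ha using Subgroup.closure_induction with
    | mem x hx =>
      obtain ⟨i, hi, rfl⟩ := hx
      intro g
      have e : (FreeGroup.of i : FreeGroup ι) = FreeGroup.mk [(i, true)] := rfl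
      rw [e]
      rcases step_cases g (i, true) with h | ⟨L', h1, h2⟩
      · rw [can, h, List.rdropWhile_concat_pos _ _ _ (by simpa using hi)]
        rfl
      · rw [can, h2, can, h1, List.rdropWhile_concat_pos _ _ _ (by simpa using hi)]
    | one =>
      intro g
      rw [mul_one]
    | mul x y _ _ hx hy =>
      intro g
      rw [← mul_assoc, hy, hx]
    | inv x _ hx =>
      intro g
      have := hx (g * x⁻¹)
      rw [inv_mul_cancel_right] at this
      exact this.symm
  exact key a ha g

theorem can_low {ℓ : ι → ℕ} {k : ℕ} (a : FreeGroup ι) (ha : a ∈ Fk ℓ k) : can ℓ k a = [] := by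
  classical
  have h1 := can_mul_low (1 : FreeGroup ι) a ha
  rw [one_mul] at h1
  rw [h1, can, FreeGroup.toWord_one, List.rdropWhile_nil]

private theorem mk_mem {ℓ : ι → ℕ} {k : ℕ} (t : List (ι × Bool)) (ht : ∀ p ∈ t, ℓ p.1 < k) :
    FreeGroup.mk t ∈ Fk ℓ k := by
  induction t with
  | nil => exact one_mem _
  | cons p t ih =>
    have e : FreeGroup.mk (p :: t) = FreeGroup.mk [p] * FreeGroup.mk t := by
      rw [FreeGroup.mul_mk]; rfl
    rw [e]
    refine mul_mem ?_ (ih fun q hq => ht q (List.mem_cons_of_mem _ hq))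
    have hp := ht p List.mem_cons_self
    obtain ⟨i, b⟩ := p
    cases b
    · have e2 : FreeGroup.mk [(i, false)] = (FreeGroup.of i)⁻¹ := by
        rw [FreeGroup.of, FreeGroup.inv_mk]; rfl
      rw [e2]
      exact inv_mem (of_mem_Fk hp)
    · exact of_mem_Fk hp

theorem mk_can (ℓ : ι → ℕ) (k : ℕ) (g : FreeGroup ι) :
    ∃ a ∈ Fk ℓ k, g = FreeGroup.mk (can ℓ k g) * a := by
  classical
  refine ⟨FreeGroup.mk (g.toWord.rtakeWhile (fun p => decide (ℓ p.1 < k))), ?_, ?_⟩
  · apply mk_mem
    intro p hp
    have := List.mem_rtakeWhile_imp hp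
    simpa using this
  · rw [can, FreeGroup.mul_mk, List.rdropWhile_append_rtakeWhile, FreeGroup.mk_toWord]

/-- multiplication by a letter of level `≥ k`: one of the two elements is the parent of the other -/
theorem can_step {ℓ : ι → ℕ} {k : ℕ} (g x : FreeGroup ι) (j : ι) (hj : k ≤ ℓ j)
    (hx : x = FreeGroup.of j ∨ x = (FreeGroup.of j)⁻¹) :
    (pr ℓ k (g * x) = g ∧ (can ℓ k g).length < (can ℓ k (g * x)).length) ∨
    (pr ℓ k g = g * x ∧ (can ℓ k (g * x)).length < (can ℓ k g).length) := by
  classical
  obtain ⟨e, rfl⟩ : ∃ e : Bool, x = FreeGroup.mk [(j, e)] := by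
    rcases hx with rfl | rfl
    · exact ⟨true, rfl⟩
    · refine ⟨false, ?_⟩
      rw [FreeGroup.of, FreeGroup.inv_mk]; rfl
  rcases step_cases g (j, e) with h | ⟨L', h1, h2⟩
  · left
    have hc : can ℓ k (g * FreeGroup.mk [(j, e)]) = g.toWord ++ [(j, e)] := by
      rw [can, h, List.rdropWhile_concat_neg _ _ _ (by simpa using hj)]
    refine ⟨?_, ?_⟩
    · rw [pr, hc, List.dropLast_concat, FreeGroup.mk_toWord]
    · rw [hc, List.length_append, List.length_singleton]
      exact Nat.lt_succ_of_le (List.rdropWhile_prefix _ _).length_le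
  · right
    have hc : can ℓ k g = L' ++ [(j, !e)] := by
      rw [can, h1, List.rdropWhile_concat_neg _ _ _ (by simpa using hj)]
    refine ⟨?_, ?_⟩
    · rw [pr, hc, List.dropLast_concat, ← h2, FreeGroup.mk_toWord]
    · rw [hc, List.length_append, List.length_singleton, can, h2]
      exact Nat.lt_succ_of_le (List.rdropWhile_prefix _ _).length_le

theorem not_swap {ℓ : ι → ℕ} {k : ℕ} (a : FreeGroup ι) (j : ι) (hj : k ≤ ℓ j)
    (ha : a ∈ Fk ℓ k) : FreeGroup.of j * a * FreeGroup.of j ∉ Fk ℓ k := by
  classical
  intro hc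
  let f : FreeGroup ι →* Multiplicative ℤ :=
    FreeGroup.lift fun i => if i = j then Multiplicative.ofAdd (1 : ℤ) else 1
  have hker : ∀ y ∈ Fk ℓ k, f y = 1 := by
    have hle : Fk ℓ k ≤ f.ker := by
      rw [Fk, Subgroup.closure_le]
      rintro y ⟨i, hi, rfl⟩
      show f (FreeGroup.of i) = 1
      have hij : i ≠ j := by
        rintro rfl
        omega
      simp [f, hij]
    intro y hy
    exact hle hy
  have h1 := hker _ hc
  rw [map_mul, map_mul, hker a ha, mul_one] at h1
  have h2 : f (FreeGroup.of j) = Multiplicative.ofAdd (1 : ℤ) := by simp [f]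
  rw [h2, ← ofAdd_add] at h1
  have h3 := congrArg Multiplicative.toAdd h1
  simp at h3

theorem fix_one {ℓ : ι → ℕ} {k : ℕ} (a : FreeGroup ι) (j : ι) (hj : k ≤ ℓ j)
    (ha : a ∈ Fk ℓ k) (h : (FreeGroup.of j)⁻¹ * a * FreeGroup.of j ∈ Fk ℓ k) : a = 1 := by
  classical
  by_contra hne
  have hlow : ∀ p ∈ a.toWord, ℓ p.1 < k := by
    have h1 := can_low a ha
    rw [can, List.rdropWhile_eq_nil_iff] at h1
    intro p hp
    simpa using h1 p hp
  have hnil : a.toWord ≠ [] := by
    intro h0
    apply hne
    rw [← FreeGroup.mk_toWord (x := a), h0]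
    rfl
  -- the word of `x_j⁻¹ a`
  have hw : ((FreeGroup.of j)⁻¹ * a).toWord = (j, false) :: a.toWord := by
    have e1 : (FreeGroup.of j)⁻¹ * a = FreeGroup.mk ((j, false) :: a.toWord) := by
      conv_lhs => rw [← FreeGroup.mk_toWord (x := a)]
      rw [FreeGroup.of, FreeGroup.inv_mk, FreeGroup.mul_mk]
      rfl
    rw [e1, FreeGroup.toWord_mk]
    apply FreeGroup.IsReduced.reduce_eq
    rw [FreeGroup.IsReduced, List.isChain_cons]
    refine ⟨?_, FreeGroup.isReduced_toWord⟩
    intro y hy e
    exfalso
    have h1 := hlow y (List.mem_of_mem_head? hy)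
    simp only at e
    rw [← e] at h1
    omega
  have e2 : (FreeGroup.of j : FreeGroup ι) = FreeGroup.mk [(j, true)] := rfl
  have hc := can_low _ h
  rw [e2] at hc
  rw [e2] at hw
  rcases step_cases ((FreeGroup.mk [(j, true)])⁻¹ * a) (j, true) with h1 | ⟨L', h1, h2⟩
  · rw [can, h1, List.rdropWhile_concat_neg _ _ _ (by simpa using hj)] at hc
    simp at hc
  · rw [hw] at h1
    -- the last letter of the word is a letter of `a`
    have h3 : ((j, false) :: a.toWord).getLast (by simp) = (j, false) := by
      have : ((j, false) :: a.toWord).getLast? = some (j, false) := by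
        rw [h1]; simp
      rw [List.getLast?_eq_some_getLast (by simp)] at this
      exact Option.some.inj this
    rw [List.getLast_cons hnil] at h3
    have h4 := hlow _ (List.getLast_mem hnil)
    rw [h3] at h4
    simp only at h4
    omega

end CZH
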