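import Pool.Agent.CZH.Basic

/-!
# CZH/Geo: consequences of a geometric action

## Proofs
`proper_space`.  (1) Every point `x` has a compact ball: let `K` be compact with `G K = X` and
`r > 0` for `x` from `proper`.  For every `k ∈ K` ... simplest route: show that for each `x` there is `ε > 0` with
`{g | g K ∩ ball x ε ≠ ∅}` finite; then `closedBall x (ε/2) ⊆ ⋃_{g in a finite set} g K` is a closed subset of a
compact set.  For this (Bridson-Haefliger I.8.3): suppose `g_n k_n → x` with infinitely many different `g_n`,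
`k_n ∈ K`; a subsequence of `k_n` converges to `k ∈ K`; then `g_n k → x` (isometries); so for `n, m` large
`g_n k, g_m k ∈ ball x r'`, `g_n g_m⁻¹` maps the point `g_m k` of `ball x r` to `g_n k ∈ ball x r`, and the set
`{g | g ball x r ∩ ball x r ≠ ∅}` is finite: `g_n g_m⁻¹` (fix `m`) takes finitely many values, so `g_n` takes
finitely many values: contradiction.
A formulation without sequences: for `k ∈ K` let `r_k` be the radius from `proper` at `x` if `k` is in the
closure of the orbit of `x`..., choose what is easiest.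
(2) Uniform radius: `δ > 0` such that all balls `closedBall y δ` are compact: for `k ∈ K` with `closedBall k ε_k`
compact, finitely many `ball k_i (ε_i/2)` cover `K`, `δ = min ε_i/2`; translate by `G`.
(3) `closedBall x (n δ/2)` is compact for all `n : ℕ`: induction; `closedBall x ((n+1) δ/2)` is contained in
the union of `closedBall y_j δ` for finitely many `y_j` with `closedBall x (n δ/2) ⊆ ⋃ ball y_j (δ/2)`,
because by `geo` every point `z` with `dist x z ≤ (n+1)δ/2` has a point `y` with
`dist x y ≤ nδ/2`, `dist y z ≤ δ/2`.  Then `ProperSpace.of_isCompact_closedBall_of_le` or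
`⟨fun x r => ..⟩`.
`finite_disp`: `closedBall o r` is compact, cover it by finitely many balls `ball x_i (r_i)` (radii from
`proper` at `x_i`); if `g • o ∈ closedBall o r`, then `g • o ∈ ball x_i r_i` for some `i`; for two such `g, g'`
with the same `i`: `g' g⁻¹` maps `g • o ∈ ball x_i r_i` to `g' • o ∈ ball x_i r_i`: finitely many `g' g⁻¹`.
-/

namespace CZH

universe u

open Set

variable {G X : Type u} [Group G] [MetricSpace X] [MulAction G X]

theorem IsGeometric.finite_orbit (hG : IsGeometric G X) (k : X) :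
    ∃ ε > 0, ∀ x : X, {g : G | dist (g • k) x < ε}.Finite := by
  obtain ⟨r, hr, hfin⟩ := hG.proper k
  refine ⟨r / 2, by positivity, fun x => ?_⟩
  rcases Set.eq_empty_or_nonempty {g : G | dist (g • k) x < r / 2} with h | ⟨g0, hg0⟩
  · rw [h]; exact Set.finite_empty
  · refine (hfin.image fun g => g0 * g).subset fun g hg => ⟨g0⁻¹ * g, ?_, by simp⟩
    refine ⟨(g0⁻¹ * g) • k, ⟨k, Metric.mem_ball_self hr, rfl⟩, ?_⟩
    rw [Metric.mem_ball, mul_smul]
    have h1 : dist (g0⁻¹ • g • k) k = dist (g • k) (g0 • k) := by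
      rw [← hG.isom g0 (g0⁻¹ • g • k) k, smul_inv_smul]
    rw [h1]
    have h2 := dist_triangle_right (g • k) (g0 • k) x
    have h3 : dist (g • k) x < r / 2 := hg
    have h4 : dist (g0 • k) x < r / 2 := hg0
    linarith

theorem IsGeometric.finite_near (hG : IsGeometric G X) (K : Set X) (hK : IsCompact K) (x : X) :
    ∃ ε > 0, {g : G | ∃ k ∈ K, dist (g • k) x < ε}.Finite := by
  choose e he hfin using fun k => hG.finite_orbit k
  obtain ⟨t, -, ht⟩ := hK.elim_nhds_subcover (fun k => Metric.ball k (e k / 2))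
    (fun k _ => Metric.ball_mem_nhds k (half_pos (he k)))
  obtain ⟨δ, hδ, hδt⟩ : ∃ δ > 0, ∀ k ∈ t, δ ≤ e k / 2 := by
    rcases t.eq_empty_or_nonempty with h | h
    · exact ⟨1, one_pos, by simp [h]⟩
    · obtain ⟨k0, hk0, hmin⟩ := t.exists_min_image (fun k => e k / 2) h
      exact ⟨e k0 / 2, half_pos (he k0), hmin⟩
  refine ⟨δ, hδ, ?_⟩
  refine (Set.Finite.biUnion t.finite_toSet (fun k _ => hfin k x)).subset ?_
  rintro g ⟨y, hy, hyx⟩
  obtain ⟨k, hk, hyk⟩ := Set.mem_iUnion₂.mp (ht hy)
  refine Set.mem_iUnion₂.mpr ⟨k, hk, ?_⟩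
  have h1 : dist (g • k) (g • y) < e k / 2 := by
    rw [hG.isom, dist_comm]; exact hyk
  have h2 := dist_triangle (g • k) (g • y) x
  have h3 := hδt k hk
  show dist (g • k) x < e k
  linarith

theorem IsGeometric.cont (hG : IsGeometric G X) (g : G) : Continuous fun x : X => g • x :=
  (Isometry.of_dist_eq (hG.isom g)).continuous

theorem IsGeometric.small_ball (hG : IsGeometric G X) (x : X) :
    ∃ ε > 0, IsCompact (Metric.closedBall x ε) := by
  obtain ⟨K, hK, hcov⟩ := hG.cocompact
  obtain ⟨ε, hε, hfin⟩ := hG.finite_near K hK x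
  refine ⟨ε / 2, half_pos hε, ?_⟩
  have h1 : IsCompact (⋃ g ∈ {g : G | ∃ k ∈ K, dist (g • k) x < ε}, (fun y : X => g • y) '' K) :=
    hfin.isCompact_biUnion fun g _ => hK.image (hG.cont g)
  refine h1.of_isClosed_subset Metric.isClosed_closedBall fun y hy => ?_
  obtain ⟨g, k, hk, hgk⟩ := hcov y
  refine Set.mem_iUnion₂.mpr ⟨g, ⟨k, hk, ?_⟩, k, hk, hgk⟩
  rw [hgk]
  have : dist y x ≤ ε / 2 := hy
  linarith

theorem IsGeometric.proper_space (hX : C0 (dst X) univ) (hG : IsGeometric G X) :
    ProperSpace X := by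
  obtain ⟨δ, hδ, hball⟩ : ∃ δ > 0, ∀ y : X, IsCompact (Metric.closedBall y δ) := by
    obtain ⟨K, hK, hcov⟩ := hG.cocompact
    choose e he hc using fun k => hG.small_ball k
    obtain ⟨t, -, ht⟩ := hK.elim_nhds_subcover (fun k => Metric.ball k (e k / 2))
      (fun k _ => Metric.ball_mem_nhds k (half_pos (he k)))
    obtain ⟨δ, hδ, hδt⟩ : ∃ δ > 0, ∀ k ∈ t, δ ≤ e k / 2 := by
      rcases t.eq_empty_or_nonempty with h | h
      · exact ⟨1, one_pos, by simp [h]⟩
      · obtain ⟨k0, hk0, hmin⟩ := t.exists_min_image (fun k => e k / 2) h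
        exact ⟨e k0 / 2, half_pos (he k0), hmin⟩
    refine ⟨δ, hδ, fun y => ?_⟩
    obtain ⟨g, k, hk, rfl⟩ := hcov y
    obtain ⟨k', hk', hkk'⟩ := Set.mem_iUnion₂.mp (ht hk)
    have h1 : IsCompact (Metric.closedBall k δ) := by
      refine (hc k').of_isClosed_subset Metric.isClosed_closedBall fun z hz => ?_
      have h2 : dist z k ≤ δ := hz
      have h3 : dist k k' < e k' / 2 := hkk'
      have h4 := dist_triangle z k k'
      have h5 := hδt k' hk'
      show dist z k' ≤ e k'
      linarith
    refine (h1.image (hG.cont g)).of_isClosed_subset Metric.isClosed_closedBall fun z hz => ?_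
    refine ⟨g⁻¹ • z, ?_, smul_inv_smul g z⟩
    show dist (g⁻¹ • z) k ≤ δ
    rw [← hG.isom g, smul_inv_smul]
    exact hz
  have hind : ∀ (x : X) (n : ℕ), IsCompact (Metric.closedBall x (n * (δ / 2))) := by
    intro x n
    induction n with
    | zero =>
      simp only [Nat.cast_zero, zero_mul, Metric.closedBall_zero]
      exact isCompact_singleton
    | succ n ih =>
      obtain ⟨t, -, ht⟩ := ih.elim_nhds_subcover (fun y => Metric.ball y (δ / 2))
        (fun y _ => Metric.ball_mem_nhds y (half_pos hδ))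
      have h1 : IsCompact (⋃ y ∈ (t : Set X), Metric.closedBall y δ) :=
        t.finite_toSet.isCompact_biUnion fun y _ => hball y
      refine h1.of_isClosed_subset Metric.isClosed_closedBall fun z hz => ?_
      have hz' : dist z x ≤ ((n + 1 : ℕ) : ℝ) * (δ / 2) := hz
      push_cast at hz'
      obtain ⟨y, hxy, hyz⟩ : ∃ y : X, dist y x ≤ n * (δ / 2) ∧ dist z y ≤ δ / 2 := by
        rcases le_or_gt (dist z x) (n * (δ / 2)) with h | h
        · exact ⟨z, h, by rw [dist_self]; positivity⟩
        · have hn0 : (0 : ℝ) ≤ n * (δ / 2) := by positivity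
          have hpos : 0 < dist z x := hn0.trans_lt h
          obtain ⟨y, -, hy1, hy2⟩ := hX.geo x (mem_univ _) z (mem_univ _)
            (n * (δ / 2) / dist z x) (by positivity) ((div_le_one hpos).mpr h.le)
          have hy1' : dist x y = n * (δ / 2) / dist z x * dist x z := hy1
          have hy2' : dist y z = (1 - n * (δ / 2) / dist z x) * dist x z := hy2
          rw [dist_comm x z] at hy1' hy2'
          rw [div_mul_cancel₀ _ hpos.ne'] at hy1'
          rw [sub_mul, one_mul, div_mul_cancel₀ _ hpos.ne'] at hy2'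
          refine ⟨y, by rw [dist_comm, hy1'], ?_⟩
          rw [dist_comm, hy2']
          linarith
      obtain ⟨w, hw, hyw⟩ := Set.mem_iUnion₂.mp (ht (show y ∈ Metric.closedBall x _ from hxy))
      refine Set.mem_iUnion₂.mpr ⟨w, hw, ?_⟩
      have h3 : dist y w < δ / 2 := hyw
      have h4 := dist_triangle z y w
      show dist z w ≤ δ
      linarith
  refine ⟨fun x r => ?_⟩
  obtain ⟨n, hn⟩ := exists_nat_ge (r / (δ / 2))
  refine (hind x n).of_isClosed_subset Metric.isClosed_closedBall
    (Metric.closedBall_subset_closedBall ?_)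
  rwa [div_le_iff₀ (half_pos hδ)] at hn

theorem IsGeometric.finite_disp [ProperSpace X] (hG : IsGeometric G X) (o : X) (r : ℝ) :
    {g : G | dist (g • o) o ≤ r}.Finite := by
  choose e he hfin using hG.proper
  obtain ⟨t, -, ht⟩ := (isCompact_closedBall o r).elim_nhds_subcover
    (fun p => Metric.ball p (e p)) (fun p _ => Metric.ball_mem_nhds p (he p))
  have h1 : ∀ p : X, {g : G | g • o ∈ Metric.ball p (e p)}.Finite := by
    intro p
    rcases Set.eq_empty_or_nonempty {g : G | g • o ∈ Metric.ball p (e p)} with h | ⟨g0, hg0⟩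
    · rw [h]; exact Set.finite_empty
    · refine ((hfin p).image fun g => g * g0).subset fun g hg => ⟨g * g0⁻¹, ?_, by simp⟩
      refine ⟨g • o, ⟨g0 • o, hg0, ?_⟩, hg⟩
      show (g * g0⁻¹) • g0 • o = g • o
      rw [mul_smul, inv_smul_smul]
  refine (Set.Finite.biUnion t.finite_toSet (fun p _ => h1 p)).subset fun g hg => ?_
  obtain ⟨p, hp, hgp⟩ := Set.mem_iUnion₂.mp (ht (show g • o ∈ Metric.closedBall o r from hg))
  exact Set.mem_iUnion₂.mpr ⟨p, hp, hgp⟩

end CZH
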