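import Pool.Agent.CZH.Defs

/-!
# CZH/Stew: the derivative argument and the composition of Stewart inequalities, Mathlib only

## Proofs
`stewS`. If `E = 0`: the claim is `F Z² ≤ F Y²`, by `hE0`. If `F = 0`: `E Z² ≤ E P²`, by `hF0`. Otherwise for
`s ∈ (0, 1]` put `w₁ = s(Y² - E² - Z²) + s²Z²`, `w₂ = s(P² - F² - Z²) + s²Z²`; then `d₁² ≤ E² + w₁`,
`d₂² ≤ F² + w₂`, and `d₁ ≤ E + w₁/(2E)` (because `d₁² ≤ E² + w₁ ≤ (E + w₁/(2E))²` and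
`E + w₁/(2E) ≥ 0` since `w₁ ≥ -E²`), the same for `d₂`; so `F w₁ + E w₂ ≥ 0`; divide by `s` and let `s → 0`:
`F(Y² - E² - Z²) + E(P² - F² - Z²) ≥ 0`, which is the claim.
`stewComp`. Substitute the second hypothesis in the first; if `κ = 0` then `t = 0` (first hypothesis is stated
in the form multiplied by `κ`).
-/

namespace CZH

private theorem stew_aux {E d w : ℝ} (hE : 0 < E) (hd : 0 ≤ d) (h : d ^ 2 ≤ E ^ 2 + w) :
    2 * E * d ≤ 2 * E ^ 2 + w := by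
  have h1 : 0 ≤ E ^ 2 + w := le_trans (sq_nonneg d) h
  have h2 : 0 ≤ 2 * E ^ 2 + w := by nlinarith
  have h3 : (2 * E * d) ^ 2 ≤ (2 * E ^ 2 + w) ^ 2 := by nlinarith [sq_nonneg w, sq_nonneg E]
  exact le_of_sq_le_sq h3 h2

theorem stewS (E F Y P Z : ℝ) (hE : 0 ≤ E) (hF : 0 ≤ F) (hY : 0 ≤ Y) (hP : 0 ≤ P) (hZ : 0 ≤ Z)
    (hE0 : E = 0 → Z ≤ Y) (hF0 : F = 0 → Z ≤ P)
    (h : ∀ s : ℝ, 0 < s → s ≤ 1 → ∃ d₁ d₂ : ℝ, 0 ≤ d₁ ∧ 0 ≤ d₂ ∧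
      d₁ ^ 2 ≤ (1 - s) * E ^ 2 + s * Y ^ 2 - s * (1 - s) * Z ^ 2 ∧
      d₂ ^ 2 ≤ (1 - s) * F ^ 2 + s * P ^ 2 - s * (1 - s) * Z ^ 2 ∧ E + F ≤ d₁ + d₂) :
    (E + F) * Z ^ 2 ≤ E * P ^ 2 + F * Y ^ 2 - E * F * (E + F) := by
  rcases hE.eq_or_lt with hE' | hE'
  · have h1 := pow_le_pow_left₀ hZ (hE0 hE'.symm) 2
    rw [← hE']
    nlinarith
  rcases hF.eq_or_lt with hF' | hF'
  · have h1 := pow_le_pow_left₀ hZ (hF0 hF'.symm) 2
    rw [← hF']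
    nlinarith
  set X : ℝ := F * (Y ^ 2 - E ^ 2 - Z ^ 2) + E * (P ^ 2 - F ^ 2 - Z ^ 2) with hX
  set K : ℝ := (E + F) * Z ^ 2 with hK
  have hK0 : 0 ≤ K := by positivity
  have key : ∀ s : ℝ, 0 < s → s ≤ 1 → 0 ≤ X + s * K := by
    intro s hs hs1
    obtain ⟨d₁, d₂, h1, h2, h3, h4, h5⟩ := h s hs hs1
    have a1 := stew_aux (w := s * (Y ^ 2 - E ^ 2 - Z ^ 2) + s ^ 2 * Z ^ 2) hE' h1 (by linarith)
    have a2 := stew_aux (w := s * (P ^ 2 - F ^ 2 - Z ^ 2) + s ^ 2 * Z ^ 2) hF' h2 (by linarith)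
    have a3 : 0 ≤ s * (X + s * K) := by
      have b1 := mul_le_mul_of_nonneg_left a1 hF
      have b2 := mul_le_mul_of_nonneg_left a2 hE
      have b3 := mul_le_mul_of_nonneg_left h5 (show 0 ≤ 2 * E * F by positivity)
      rw [hX, hK]
      linarith
    exact nonneg_of_mul_nonneg_right a3 hs
  have hX0 : 0 ≤ X := by
    by_contra hc
    push Not at hc
    have hs : 0 < min 1 (-X / (2 * (K + 1))) := lt_min one_pos (div_pos (by linarith) (by linarith))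
    have h1 := key _ hs (min_le_left _ _)
    have h2 : min 1 (-X / (2 * (K + 1))) * K ≤ -X / (2 * (K + 1)) * K :=
      mul_le_mul_of_nonneg_right (min_le_right _ _) hK0
    have h3 : -X / (2 * (K + 1)) * K ≤ -X / 2 := by
      rw [div_mul_eq_mul_div, div_le_div_iff₀ (by linarith) (by norm_num)]
      nlinarith
    linarith
  rw [hX] at hX0
  linarith

/-- Stewart at `z` (ratio `κ` on a side of length `L`) and Stewart at `m` on `[x, z]` (ratio `θ`) give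
Stewart at `m` on the whole side (ratio `κ θ`). `A, B, C, M` are the distances of the vertex to
`x, y, z, m`. -/
theorem stewComp (A B C M κ θ L : ℝ) (hθ : 0 ≤ θ)
    (h1 : C ^ 2 ≤ (1 - κ) * A ^ 2 + κ * B ^ 2 - κ * (1 - κ) * L ^ 2)
    (h2 : M ^ 2 ≤ (1 - θ) * A ^ 2 + θ * C ^ 2 - θ * (1 - θ) * (κ * L) ^ 2) :
    M ^ 2 ≤ (1 - κ * θ) * A ^ 2 + κ * θ * B ^ 2 - κ * θ * (1 - κ * θ) * L ^ 2 := by
  nlinarith [mul_le_mul_of_nonneg_left h1 hθ]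

end CZH
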