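import Pool.Agent.CZH.Real
import Pool.Agent.CZH.Stew
import Pool.Agent.CZH.Basic

/-!
# CZH/Glue: Reshetnyak's gluing theorem (internal form)

`A`, `B` are CAT(0) subsets of a metric space `Q`, `C ⊆ A ∩ B` contains for any two of its points a
point at every parameter, and every `a ∈ A`, `b ∈ B` are joined through a point of `C`.  Then `A ∪ B`
is CAT(0).

## Proof
Write `cmp(p; x, y, m, t)` for the inequality wanted.
Uniqueness: if `x, y ∈ C`, `m ∈ A` (or `B`), `Btw x m y t` then `m ∈ C` (`hC` and `C0.uniq`, distance zero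
means equality).
* (M) If `x, y ∈ A`, `m ∈ B`, `Btw x m y t`, then `m ∈ C ⊆ A`: take `c₁, c₂ ∈ C` with
  `d(x,m) = d(x,c₁) + d(c₁,m)`, `d(m,y) = d(m,c₂) + d(c₂,y)`; then `d(c₁,c₂) = d(c₁,m) + d(m,c₂)` (triangle
  inequalities), so `m` is between `c₁` and `c₂` in `B`, so `m ∈ C`.  (If `d(c₁,c₂) = 0` then `m = c₁`.)
* T0: `p, x, y ∈ A`: then `m ∈ A` by (M), and `hA.cmp`.
* S0: `a ∈ A`, `b ∈ B`, `z, p ∈ C`, `d(a,b) = d(a,z) + d(z,b)`: `(E+F)Z² ≤ E P² + F Y² - EF(E+F)` with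
  `E = d(z,a)`, `F = d(b,z)`, `Y = d(p,a)`, `P = d(p,b)`, `Z = d(p,z)`: `stewS`, for `s` take `u ∈ C` at
  parameter `s` on `[z,p]`, `d₁ = d(a,u)`, `d₂ = d(b,u)` (T0 in `A` and in `B`), `E + F = d(a,b) ≤ d₁ + d₂`.
* T1': `b ∈ B`, `a ∈ A`, `c ∈ C`, `m ∈ A` at parameter `t` on `[c,a]` (from `c`): `cmp(b; c, a, m, t)`.
  Take `z ∈ C` with `d(b,a) = d(b,z) + d(z,a)`.  `alex` with `P = d(c,b)`, `Y = d(c,a)`, `Z = d(c,z)`,
  `E = d(z,a)`, `F = d(b,z)` (`hS` = S0 with `p = c`) gives `τ`; let `u ∈ C` at parameter `τ` on `[c,z]`; then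
  `d(b,u)² ≤ (1-τ)P² + τF² - τ(1-τ)Z²` (T0 in `B`), `d(u,a)² ≤ (1-τ)Y² + τE² - τ(1-τ)Z²`, `d(u,c) = τ Z`,
  `d(u,m)² ≤ (1-t)τ²Z² + t d(u,a)² - t(1-t)Y²` (T0 in `A`), and `d(b,m) ≤ d(b,u) + d(u,m) ≤ RHS`; square.
* T2c: `p, a ∈ A`, `b ∈ B`, `z ∈ C`, `d(a,b) = d(a,z) + d(z,b)`: same inequality as S0: `stewS` with `u ∈ A` at
  parameter `s` on `[z,p]`; `d(a,u)` by T0, `d(b,u)` by T1' (`c = z`, `a = p`).
* T1: `b ∈ B`, `x, y, m ∈ A`: as T1' with `c` replaced by `x`: `P = d(x,b)`, `Y = d(x,y)`, `Z = d(x,z)`,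
  `z ∈ C` on `[b,y]`, `hS` = T2c with `p = x`, `u ∈ A` at parameter `τ` on `[x,z]`; `d(b,u)` by T1' (side
  `[z,x]`, `z ∈ C`, parameter `1-τ` from `z`), `d(u,m)` by T0.
* T2: `p ∈ A`, `x ∈ A`, `y ∈ B`, `m` at parameter `t` on `[x,y]`.
  If `m ∈ A`: take `z ∈ C` with `d(m,y) = d(m,z) + d(z,y)`; then `d(x,y) = d(x,z) + d(z,y)` and
  `d(x,z) = d(x,m) + d(m,z)`; T2c at `z` gives Stewart at `z` (ratio `κ = d(x,z)/d(x,y)`), T0 on `[x,z]` at `m`
  (ratio `θ = d(x,m)/d(x,z)`, `κθ = t`), compose with `stewComp` (`d(x,z) = 0` or `d(x,y) = 0`: trivial).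
  If `m ∈ B`: take `z ∈ C` with `d(x,m) = d(x,z) + d(z,m)`; T1' with `A`, `B` exchanged (vertex `p ∈ A`, side
  `[z,y] ⊆ B`, `z ∈ C`) at `m`, and T2c at `z`; compose from the other side (`stewComp` with `x`, `y`
  exchanged).
  The case `x ∈ B`, `y ∈ A`: exchange `x, y` (`t ↔ 1 - t`).
All other cases by exchanging `A` and `B`.
`geo` for `a ∈ A`, `b ∈ B`: `z ∈ C` on the way; if `t d(a,b) ≤ d(a,z)` take the point of `[a,z]` at parameter
`t d(a,b)/d(a,z)`, otherwise a point of `[z,b]`.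
It is a good idea to state S0, T1', T2c, T1, T2 as separate lemmas for arbitrary `A B C` with the
hypotheses of the theorem packaged in a structure symmetric in `A` and `B`.
-/

namespace CZH

universe u

open Set

namespace GlueX

variable {Q : Type u} [MetricSpace Q] {A B C : Set Q}

/-- The hypotheses of the gluing theorem. -/
structure GH (A B C : Set Q) : Prop where
  hA : C0 (dst Q) A
  hB : C0 (dst Q) B
  hCA : C ⊆ A
  hCB : C ⊆ B
  hC : ∀ x ∈ C, ∀ y ∈ C, ∀ t : ℝ, 0 ≤ t → t ≤ 1 → ∃ m ∈ C, Btw (dst Q) x m y t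
  hcr : ∀ a ∈ A, ∀ b ∈ B, ∃ c ∈ C, dist a b = dist a c + dist c b

theorem GH.symm (h : GH A B C) : GH B A C := by
  refine ⟨h.hB, h.hA, h.hCB, h.hCA, h.hC, ?_⟩
  intro b hb a ha
  obtain ⟨c, hc, e⟩ := h.hcr a ha b hb
  refine ⟨c, hc, ?_⟩
  rw [dist_comm b a, e, dist_comm a c, dist_comm c b]
  ring

theorem btw_iff {x m y : Q} {t : ℝ} :
    Btw (dst Q) x m y t ↔ dist x m = t * dist x y ∧ dist m y = (1 - t) * dist x y := Iff.rfl

theorem btw_of_add {x m y : Q} (h : dist x m + dist m y = dist x y) :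
    ∃ t, 0 ≤ t ∧ t ≤ 1 ∧ Btw (dst Q) x m y t := by
  rcases eq_or_lt_of_le (dist_nonneg (x := x) (y := y)) with h0 | h0
  · refine ⟨0, le_rfl, zero_le_one, ?_⟩
    have h1 := dist_nonneg (x := x) (y := m)
    have h2 := dist_nonneg (x := m) (y := y)
    rw [btw_iff]
    constructor <;> linarith
  · refine ⟨dist x m / dist x y, by positivity, ?_, ?_⟩
    · rw [div_le_one h0]
      linarith [dist_nonneg (x := m) (y := y)]
    · rw [btw_iff]
      constructor
      · field_simp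
      · rw [sub_mul, div_mul_cancel₀ _ h0.ne']
        linarith

theorem btw_add {x m y : Q} {t : ℝ} (h : Btw (dst Q) x m y t) :
    dist x m + dist m y = dist x y := by
  obtain ⟨h1, h2⟩ := btw_iff.1 h
  rw [h1, h2]
  ring

/-- A point between two points of `C` is in `C`. -/
theorem GH.memC (h : GH A B C) {x y m : Q} {t : ℝ} (hx : x ∈ C) (hy : y ∈ C) (hm : m ∈ A)
    (ht0 : 0 ≤ t) (ht1 : t ≤ 1) (hb : Btw (dst Q) x m y t) : m ∈ C := by
  obtain ⟨m', hm', hb'⟩ := h.hC x hx y hy t ht0 ht1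
  have h1 := h.hA.uniq (h.hCA hx) (h.hCA hy) hm (h.hCA hm') ht0 ht1 hb hb'
  have h2 : m = m' := dist_eq_zero.1 h1
  rw [h2]
  exact hm'

/-- (M) -/
theorem GH.memA (h : GH A B C) {x y m : Q} {t : ℝ} (hx : x ∈ A) (hy : y ∈ A) (hm : m ∈ A ∪ B)
    (hb : Btw (dst Q) x m y t) : m ∈ A := by
  rcases hm with hm | hm
  · exact hm
  · apply h.hCA
    obtain ⟨c1, hc1, e1⟩ := h.hcr x hx m hm
    obtain ⟨c2, hc2, e2⟩ := h.hcr y hy m hm
    have h0 := btw_add hb
    have h1 : dist x y ≤ dist x c1 + dist c1 c2 + dist c2 y :=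
      le_trans (dist_triangle x c2 y) (by linarith [dist_triangle x c1 c2])
    have h2 : dist c1 c2 ≤ dist c1 m + dist m c2 := dist_triangle _ _ _
    rw [dist_comm y m, dist_comm y c2, dist_comm c2 m] at e2
    have h3 : dist c1 m + dist m c2 = dist c1 c2 := by linarith
    obtain ⟨s, hs0, hs1, hs⟩ := btw_of_add h3
    exact h.symm.memC hc1 hc2 hm hs0 hs1 hs

/-- T0 -/
theorem GH.t0 (h : GH A B C) {p x y m : Q} {t : ℝ} (hp : p ∈ A) (hx : x ∈ A) (hy : y ∈ A)
    (hm : m ∈ A) (ht0 : 0 ≤ t) (ht1 : t ≤ 1) (hb : Btw (dst Q) x m y t) :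
    dist p m ^ 2 ≤ (1 - t) * dist p x ^ 2 + t * dist p y ^ 2 - t * (1 - t) * dist x y ^ 2 :=
  h.hA.cmp p hp x hx y hy m hm t ht0 ht1 hb

/-- S0 -/
theorem GH.s0 (h : GH A B C) {a b z p : Q} (ha : a ∈ A) (hb : b ∈ B) (hz : z ∈ C) (hp : p ∈ C)
    (e : dist a b = dist a z + dist z b) :
    (dist z a + dist b z) * dist p z ^ 2 ≤ dist z a * dist p b ^ 2 + dist b z * dist p a ^ 2 -
      dist z a * dist b z * (dist z a + dist b z) := by
  apply stewS (dist z a) (dist b z) (dist p a) (dist p b) (dist p z) dist_nonneg dist_nonneg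
    dist_nonneg dist_nonneg dist_nonneg
  · intro h0
    rw [dist_eq_zero.1 h0]
  · intro h0
    rw [dist_eq_zero.1 h0]
  · intro s hs0 hs1
    obtain ⟨v, hv, hbv⟩ := h.hC z hz p hp s hs0.le hs1
    have k1 := h.t0 ha (h.hCA hz) (h.hCA hp) (h.hCA hv) hs0.le hs1 hbv
    have k2 := h.symm.t0 hb (h.hCB hz) (h.hCB hp) (h.hCB hv) hs0.le hs1 hbv
    refine ⟨dist a v, dist b v, dist_nonneg, dist_nonneg, ?_, ?_, ?_⟩
    · rw [dist_comm z a, dist_comm p a, dist_comm p z]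
      exact k1
    · rw [dist_comm p b, dist_comm p z]
      exact k2
    · rw [dist_comm z a, dist_comm b z, ← e, dist_comm b v]
      exact dist_triangle _ _ _

theorem rhs_nonneg {P L Y t : ℝ} (hY0 : 0 ≤ Y) (hY : Y ≤ P + L) (ht0 : 0 ≤ t)
    (ht1 : t ≤ 1) : 0 ≤ (1 - t) * P ^ 2 + t * L ^ 2 - t * (1 - t) * Y ^ 2 := by
  have h1 : Y ^ 2 ≤ (P + L) ^ 2 := pow_le_pow_left₀ hY0 hY 2
  have h2 : 0 ≤ t * (1 - t) := mul_nonneg ht0 (by linarith)
  nlinarith [mul_le_mul_of_nonneg_left h1 h2, sq_nonneg ((1 - t) * P - t * L)]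

/-- The common part of T1' and T1: Stewart for the quadrilateral. -/
theorem quad {b x y z m : Q} {t : ℝ} (ht0 : 0 ≤ t) (ht1 : t ≤ 1)
    (e : dist y b = dist y z + dist z b)
    (hS : (dist z y + dist b z) * dist x z ^ 2 ≤ dist z y * dist x b ^ 2 + dist b z * dist x y ^ 2 -
      dist z y * dist b z * (dist z y + dist b z))
    (hu : ∀ τ : ℝ, 0 ≤ τ → τ ≤ 1 → ∃ v : Q,
      dist b v ^ 2 ≤ (1 - τ) * dist x b ^ 2 + τ * dist b z ^ 2 - τ * (1 - τ) * dist x z ^ 2 ∧
      dist v m ^ 2 ≤ (1 - t) * (τ ^ 2 * dist x z ^ 2) +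
        t * ((1 - τ) * dist x y ^ 2 + τ * dist z y ^ 2 - τ * (1 - τ) * dist x z ^ 2) -
          t * (1 - t) * dist x y ^ 2) :
    dist b m ^ 2 ≤ (1 - t) * dist b x ^ 2 + t * dist b y ^ 2 - t * (1 - t) * dist x y ^ 2 := by
  obtain ⟨τ, h0, h1, h2⟩ := alex (dist x b) (dist x y) (dist x z) (dist z y) (dist b z) t
    dist_nonneg dist_nonneg dist_nonneg dist_nonneg dist_nonneg
    (by rw [dist_comm b z, abs_le]
        constructor <;>
          linarith [dist_triangle x z b, dist_triangle x b z, dist_comm b z])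
    (by linarith [dist_triangle b x z, dist_comm b x])
    (by rw [abs_le]
        constructor <;>
          linarith [dist_triangle x z y, dist_triangle x y z, dist_comm y z])
    (by linarith [dist_triangle z x y, dist_comm z x]) hS ht0 ht1
  obtain ⟨v, k1, k2⟩ := hu τ h0 h1
  have k3 : dist b v ≤ √((1 - τ) * dist x b ^ 2 + τ * dist b z ^ 2 -
      τ * (1 - τ) * dist x z ^ 2) := Real.le_sqrt_of_sq_le k1
  have k4 : dist v m ≤ √((1 - t) * (τ ^ 2 * dist x z ^ 2) +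
        t * ((1 - τ) * dist x y ^ 2 + τ * dist z y ^ 2 - τ * (1 - τ) * dist x z ^ 2) -
          t * (1 - t) * dist x y ^ 2) := Real.le_sqrt_of_sq_le k2
  have k5 : dist b m ≤ √((1 - t) * dist x b ^ 2 + t * (dist z y + dist b z) ^ 2 -
      t * (1 - t) * dist x y ^ 2) := by
    linarith [dist_triangle b v m]
  have k6 : dist z y + dist b z = dist b y := by
    rw [dist_comm b y, e, dist_comm y z, dist_comm z b]
  rw [k6] at k5
  have k7 : 0 ≤ (1 - t) * dist x b ^ 2 + t * dist b y ^ 2 - t * (1 - t) * dist x y ^ 2 :=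
    rhs_nonneg dist_nonneg (dist_triangle x b y) ht0 ht1
  have k8 := pow_le_pow_left₀ dist_nonneg k5 2
  rw [Real.sq_sqrt k7] at k8
  rw [dist_comm b x]
  exact k8

/-- T1' -/
theorem GH.t1' (h : GH A B C) {b a c m : Q} {t : ℝ} (hb : b ∈ B) (ha : a ∈ A) (hc : c ∈ C)
    (hm : m ∈ A) (ht0 : 0 ≤ t) (ht1 : t ≤ 1) (hbt : Btw (dst Q) c m a t) :
    dist b m ^ 2 ≤ (1 - t) * dist b c ^ 2 + t * dist b a ^ 2 - t * (1 - t) * dist c a ^ 2 := by
  obtain ⟨z, hz, e⟩ := h.hcr a ha b hb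
  refine quad ht0 ht1 e (h.s0 ha hb hz hc e) ?_
  intro τ h0 h1
  obtain ⟨v, hv, hbv⟩ := h.hC c hc z hz τ h0 h1
  have k1 := h.symm.t0 hb (h.hCB hc) (h.hCB hz) (h.hCB hv) h0 h1 hbv
  have k2 := h.t0 ha (h.hCA hc) (h.hCA hz) (h.hCA hv) h0 h1 hbv
  have k3 := h.t0 (h.hCA hv) (h.hCA hc) ha hm ht0 ht1 hbt
  have k4 := (btw_iff.1 hbv).1
  refine ⟨v, ?_, ?_⟩
  · rw [dist_comm c b]
    exact k1
  · rw [dist_comm v c, k4, dist_comm v a] at k3
    rw [dist_comm a c, dist_comm a z] at k2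
    have k5 := mul_le_mul_of_nonneg_left k2 ht0
    nlinarith [k3, k5]

/-- T2c -/
theorem GH.t2c (h : GH A B C) {a b z p : Q} (ha : a ∈ A) (hb : b ∈ B) (hz : z ∈ C) (hp : p ∈ A)
    (e : dist a b = dist a z + dist z b) :
    (dist z a + dist b z) * dist p z ^ 2 ≤ dist z a * dist p b ^ 2 + dist b z * dist p a ^ 2 -
      dist z a * dist b z * (dist z a + dist b z) := by
  apply stewS (dist z a) (dist b z) (dist p a) (dist p b) (dist p z) dist_nonneg dist_nonneg
    dist_nonneg dist_nonneg dist_nonneg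
  · intro h0
    rw [dist_eq_zero.1 h0]
  · intro h0
    rw [dist_eq_zero.1 h0]
  · intro s hs0 hs1
    obtain ⟨v, hv, hbv⟩ := h.hA.geo z (h.hCA hz) p hp s hs0.le hs1
    have k1 := h.t0 ha (h.hCA hz) hp hv hs0.le hs1 hbv
    have k2 := h.t1' hb hp hz hv hs0.le hs1 hbv
    refine ⟨dist a v, dist b v, dist_nonneg, dist_nonneg, ?_, ?_, ?_⟩
    · rw [dist_comm z a, dist_comm p a, dist_comm p z]
      exact k1
    · rw [dist_comm p b, dist_comm p z]
      exact k2
    · rw [dist_comm z a, dist_comm b z, ← e, dist_comm b v]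
      exact dist_triangle _ _ _

/-- T1 -/
theorem GH.t1 (h : GH A B C) {b x y m : Q} {t : ℝ} (hb : b ∈ B) (hx : x ∈ A) (hy : y ∈ A)
    (hm : m ∈ A) (ht0 : 0 ≤ t) (ht1 : t ≤ 1) (hbt : Btw (dst Q) x m y t) :
    dist b m ^ 2 ≤ (1 - t) * dist b x ^ 2 + t * dist b y ^ 2 - t * (1 - t) * dist x y ^ 2 := by
  obtain ⟨z, hz, e⟩ := h.hcr y hy b hb
  refine quad ht0 ht1 e (h.t2c hy hb hz hx e) ?_
  intro τ h0 h1
  obtain ⟨v, hv, hbv⟩ := h.hA.geo x hx z (h.hCA hz) τ h0 h1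
  have k1 := h.t1' hb hx hz hv (by linarith : (0 : ℝ) ≤ 1 - τ) (by linarith) hbv.symm
  have k2 := h.t0 hy hx (h.hCA hz) hv h0 h1 hbv
  have k3 := h.t0 hv hx hy hm ht0 ht1 hbt
  have k4 := (btw_iff.1 hbv).1
  refine ⟨v, ?_, ?_⟩
  · rw [dist_comm x b]
    rw [dist_comm z x] at k1
    linarith
  · rw [dist_comm v x, k4, dist_comm v y] at k3
    rw [dist_comm y x, dist_comm y z] at k2
    have k5 := mul_le_mul_of_nonneg_left k2 ht0
    nlinarith [k3, k5]

/-- Stewart at `z` as a ratio. -/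
theorem ratio {E F Z P Y L : ℝ} (hL : 0 < L) (hEF : E + F = L)
    (h : (E + F) * Z ^ 2 ≤ E * P ^ 2 + F * Y ^ 2 - E * F * (E + F)) :
    Z ^ 2 ≤ (1 - E / L) * Y ^ 2 + E / L * P ^ 2 - E / L * (1 - E / L) * L ^ 2 := by
  have e1 : (1 - E / L) * Y ^ 2 + E / L * P ^ 2 - E / L * (1 - E / L) * L ^ 2 =
      (E * P ^ 2 + F * Y ^ 2 - E * F * (E + F)) / L := by
    have : F = L - E := by linarith
    rw [this]
    field_simp
    ring
  rw [e1, le_div_iff₀ hL]
  rw [hEF] at h ⊢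
  linarith

/-- T2 -/
theorem GH.t2 (h : GH A B C) {p x y m : Q} {t : ℝ} (hp : p ∈ A) (hx : x ∈ A) (hy : y ∈ B)
    (hm : m ∈ A ∪ B) (ht0 : 0 ≤ t) (ht1 : t ≤ 1) (hbt : Btw (dst Q) x m y t) :
    dist p m ^ 2 ≤ (1 - t) * dist p x ^ 2 + t * dist p y ^ 2 - t * (1 - t) * dist x y ^ 2 := by
  have hadd := btw_add hbt
  obtain ⟨g1, g2⟩ := btw_iff.1 hbt
  rcases eq_or_lt_of_le (dist_nonneg (x := x) (y := y)) with hL | hL
  · -- `x = y`
    have hxy : x = y := dist_eq_zero.1 hL.symm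
    have hxm : x = m := by
      apply dist_eq_zero.1
      rw [g1, ← hL, mul_zero]
    rw [← hxy, ← hxm, dist_self]
    apply le_of_eq
    ring
  rcases hm with hm | hm
  · obtain ⟨z, hz, e⟩ := h.hcr m hm y hy
    have e1 : dist x m + dist m z = dist x z := by
      linarith [dist_triangle x z y, dist_triangle x m z]
    have e2 : dist x y = dist x z + dist z y := by linarith
    have hc := h.t2c hx hy hz hp e2
    rcases eq_or_lt_of_le (dist_nonneg (x := x) (y := z)) with hE | hE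
    · have hxm : dist x m = 0 := by
        linarith [dist_nonneg (x := x) (y := m), dist_nonneg (x := m) (y := z)]
      have ht : t = 0 := by
        rw [hxm] at g1
        rcases mul_eq_zero.1 g1.symm with h3 | h3
        · exact h3
        · exact absurd h3 hL.ne'
      rw [← dist_eq_zero.1 hxm, ht]
      apply le_of_eq
      ring
    · obtain ⟨θ, hθ0, hθ1, hθ⟩ := btw_of_add e1
      have k0 := h.t0 hp hx (h.hCA hz) hm hθ0 hθ1 hθ
      have k1 := ratio hL (by rw [e2, dist_comm x z, dist_comm y z]) hc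
      have hκ : dist z x / dist x y * dist x y = dist x z := by
        rw [div_mul_cancel₀ _ hL.ne', dist_comm]
      have k2 := stewComp (dist p x) (dist p y) (dist p z) (dist p m) (dist z x / dist x y) θ
        (dist x y) hθ0 k1 (by rw [hκ]; exact k0)
      have hκθ : dist z x / dist x y * θ = t := by
        have h5 := (btw_iff.1 hθ).1
        rw [g1] at h5
        have h6 : (dist z x / dist x y * θ) * dist x y = t * dist x y := by
          rw [h5, ← hκ]
          ring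
        exact mul_right_cancel₀ hL.ne' h6
      rw [hκθ] at k2
      exact k2
  · obtain ⟨z, hz, e⟩ := h.hcr x hx m hm
    have e1 : dist z m + dist m y = dist z y := by
      linarith [dist_triangle x z y, dist_triangle z m y]
    have e2 : dist x y = dist x z + dist z y := by linarith
    have hc := h.t2c hx hy hz hp e2
    rcases eq_or_lt_of_le (dist_nonneg (x := z) (y := y)) with hE | hE
    · have hym : dist m y = 0 := by
        linarith [dist_nonneg (x := z) (y := m), dist_nonneg (x := m) (y := y)]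
      have ht : 1 - t = 0 := by
        rw [hym] at g2
        rcases mul_eq_zero.1 g2.symm with h3 | h3
        · exact h3
        · exact absurd h3 hL.ne'
      have ht' : t = 1 := by linarith
      rw [dist_eq_zero.1 hym, ht']
      apply le_of_eq
      ring
    · obtain ⟨θ, hθ0, hθ1, hθ⟩ := btw_of_add e1
      have k0 := h.symm.t1' hp hy hz hm hθ0 hθ1 hθ
      have hc' : (dist y z + dist z x) * dist p z ^ 2 ≤ dist y z * dist p x ^ 2 +
          dist z x * dist p y ^ 2 - dist y z * dist z x * (dist y z + dist z x) := by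
        linarith
      have k1 := ratio hL (by rw [e2, dist_comm x z, dist_comm y z]; ring) hc'
      have hκ : dist y z / dist x y * dist x y = dist z y := by
        rw [div_mul_cancel₀ _ hL.ne', dist_comm]
      have k2 := stewComp (dist p y) (dist p x) (dist p z) (dist p m) (dist y z / dist x y) (1 - θ)
        (dist x y) (by linarith) k1 (by rw [hκ]; linarith)
      have hκθ : dist y z / dist x y * (1 - θ) = 1 - t := by
        have h5 := (btw_iff.1 hθ).2
        rw [g2] at h5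
        have h6 : (dist y z / dist x y * (1 - θ)) * dist x y = (1 - t) * dist x y := by
          rw [h5, ← hκ]
          ring
        exact mul_right_cancel₀ hL.ne' h6
      rw [hκθ] at k2
      linarith

theorem GH.cmp (h : GH A B C) {p x y m : Q} {t : ℝ} (hp : p ∈ A) (hx : x ∈ A ∪ B)
    (hy : y ∈ A ∪ B) (hm : m ∈ A ∪ B) (ht0 : 0 ≤ t) (ht1 : t ≤ 1) (hbt : Btw (dst Q) x m y t) :
    dist p m ^ 2 ≤ (1 - t) * dist p x ^ 2 + t * dist p y ^ 2 - t * (1 - t) * dist x y ^ 2 := by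
  rcases hx with hx | hx
  · rcases hy with hy | hy
    · exact h.t0 hp hx hy (h.memA hx hy hm hbt) ht0 ht1 hbt
    · exact h.t2 hp hx hy hm ht0 ht1 hbt
  · rcases hy with hy | hy
    · have k := h.t2 hp hy hx hm (by linarith : (0 : ℝ) ≤ 1 - t) (by linarith) hbt.symm
      rw [dist_comm y x] at k
      linarith
    · have hm' : m ∈ B := h.symm.memA hx hy (by rw [union_comm]; exact hm) hbt
      exact h.symm.t1 hp hx hy hm' ht0 ht1 hbt

theorem GH.geoAB (h : GH A B C) {x y : Q} (hx : x ∈ A) (hy : y ∈ B) {t : ℝ} (ht0 : 0 ≤ t)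
    (ht1 : t ≤ 1) : ∃ m ∈ A ∪ B, Btw (dst Q) x m y t := by
  obtain ⟨z, hz, e⟩ := h.hcr x hx y hy
  rcases le_or_gt (t * dist x y) (dist x z) with hc | hc
  · rcases eq_or_lt_of_le (dist_nonneg (x := x) (y := z)) with hE | hE
    · have h0 : t * dist x y = 0 := le_antisymm (by linarith) (by positivity)
      refine ⟨x, Or.inl hx, ?_⟩
      rw [btw_iff, dist_self]
      constructor <;> linarith
    · obtain ⟨m, hm, hb⟩ := h.hA.geo x hx z (h.hCA hz) (t * dist x y / dist x z)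
        (by positivity) (by rw [div_le_one hE]; exact hc)
      obtain ⟨k1, k2⟩ := btw_iff.1 hb
      rw [div_mul_cancel₀ _ hE.ne'] at k1
      rw [sub_mul, div_mul_cancel₀ _ hE.ne', one_mul] at k2
      refine ⟨m, Or.inl hm, ?_⟩
      rw [btw_iff]
      refine ⟨k1, le_antisymm ?_ ?_⟩
      · linarith [dist_triangle m z y]
      · linarith [dist_triangle x m y]
  · have hF : 0 < dist z y := by
      have : t * dist x y ≤ dist x y := by
        nlinarith [dist_nonneg (x := x) (y := y)]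
      linarith
    obtain ⟨m, hm, hb⟩ := h.hB.geo z (h.hCB hz) y hy ((t * dist x y - dist x z) / dist z y)
      (div_nonneg (by linarith) hF.le)
      (by
        rw [div_le_one hF]
        have : t * dist x y ≤ dist x y := by
          nlinarith [dist_nonneg (x := x) (y := y)]
        linarith)
    obtain ⟨k1, k2⟩ := btw_iff.1 hb
    rw [div_mul_cancel₀ _ hF.ne'] at k1
    rw [sub_mul, div_mul_cancel₀ _ hF.ne', one_mul] at k2
    refine ⟨m, Or.inr hm, ?_⟩
    rw [btw_iff]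
    have k3 : dist m y = (1 - t) * dist x y := by linarith
    refine ⟨le_antisymm ?_ ?_, k3⟩
    · linarith [dist_triangle x z m]
    · linarith [dist_triangle x m y]

end GlueX

open GlueX

theorem C0_glue {Q : Type u} [MetricSpace Q] {A B C : Set Q} (hA : C0 (dst Q) A)
    (hB : C0 (dst Q) B) (hCA : C ⊆ A) (hCB : C ⊆ B)
    (hC : ∀ x ∈ C, ∀ y ∈ C, ∀ t : ℝ, 0 ≤ t → t ≤ 1 → ∃ m ∈ C, Btw (dst Q) x m y t)
    (hcr : ∀ a ∈ A, ∀ b ∈ B, ∃ c ∈ C, dist a b = dist a c + dist c b) :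
    C0 (dst Q) (A ∪ B) := by
  have h : GH A B C := ⟨hA, hB, hCA, hCB, hC, hcr⟩
  refine ⟨fun x _ => dist_self x, fun x _ y _ => dist_nonneg, fun x _ y _ => dist_comm x y,
    fun x _ y _ z _ => dist_triangle x y z, ?_, ?_⟩
  · rintro x (hx | hx) y (hy | hy) t ht0 ht1
    · obtain ⟨m, hm, hb⟩ := hA.geo x hx y hy t ht0 ht1
      exact ⟨m, Or.inl hm, hb⟩
    · exact h.geoAB hx hy ht0 ht1
    · obtain ⟨m, hm, hb⟩ := h.geoAB hy hx (by linarith : (0 : ℝ) ≤ 1 - t) (by linarith)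
      refine ⟨m, hm, ?_⟩
      have := hb.symm
      rwa [sub_sub_cancel] at this
    · obtain ⟨m, hm, hb⟩ := hB.geo x hx y hy t ht0 ht1
      exact ⟨m, Or.inr hm, hb⟩
  · rintro p (hp | hp) x hx y hy m hm t ht0 ht1 hb
    · exact h.cmp hp hx hy hm ht0 ht1 hb
    · rw [union_comm] at hx hy hm
      exact h.symm.cmp hp hx hy hm ht0 ht1 hb

end CZH
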