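import Pool.Agent.CZH.TSDefs

/-!
# CZH/Grow: growing finite subtrees

## Proofs
`Grow.conn`: induction on `Grow`: in a grown set any two vertices are joined by a walk with support in the
set (for the new vertex `b` use the edge `b c`).
`Grow.path`: for `a, c ∈ S`, `b ∉ S`, `b ~ c` the walk `cons (b ~ c) (path c → a)` is a path: take the walk in `S`
from `c` to `a`, `bypass`/`toPath` it (support still in `S`), `b` is not in the support.
`Grow.exists_of_walk`: induction on the walk from `c ∈ S`: if the next vertex is in `S` go on, otherwise add it.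
`Grow.exists_two`, `exists_four`: start with `{a}`, the tree is connected; add the others one by one.
-/

namespace CZH

universe u

open Set

/-- finite subtrees, obtained by adding one vertex after the other -/
inductive Grow {V : Type u} (T : SimpleGraph V) : Set V → Prop
  | single (a : V) : Grow T {a}
  | add (S : Set V) (c b : V) : Grow T S → c ∈ S → b ∉ S → T.Adj b c → Grow T (insert b S)

theorem Grow.conn {V : Type u} {T : SimpleGraph V} {S : Set V} (h : Grow T S) :
    ∀ a ∈ S, ∀ c ∈ S, ∃ p : T.Walk a c, ∀ v ∈ p.support, v ∈ S := by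
  induction h with
  | single a =>
    intro x hx y hy
    obtain rfl : x = a := hx
    obtain rfl : y = x := hy
    exact ⟨SimpleGraph.Walk.nil, fun v hv => by
      rw [SimpleGraph.Walk.support_nil, List.mem_singleton] at hv
      exact hv⟩
  | add S c b _ hc hb hbc ih =>
    have hto : ∀ y ∈ S, ∃ p : T.Walk b y, ∀ v ∈ p.support, v ∈ insert b S := by
      intro y hy
      obtain ⟨p, hp⟩ := ih c hc y hy
      refine ⟨SimpleGraph.Walk.cons hbc p, fun v hv => ?_⟩
      rw [SimpleGraph.Walk.support_cons, List.mem_cons] at hv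
      rcases hv with rfl | hv
      · exact Set.mem_insert _ _
      · exact Set.mem_insert_of_mem _ (hp v hv)
    intro x hx y hy
    rcases hx with rfl | hx
    · rcases hy with rfl | hy
      · exact ⟨SimpleGraph.Walk.nil, fun v hv => by
          rw [SimpleGraph.Walk.support_nil, List.mem_singleton] at hv
          rw [hv]
          exact Set.mem_insert _ _⟩
      · exact hto y hy
    · rcases hy with rfl | hy
      · obtain ⟨p, hp⟩ := hto x hx
        refine ⟨p.reverse, fun v hv => hp v ?_⟩
        rw [SimpleGraph.Walk.support_reverse, List.mem_reverse] at hv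
        exact hv
      · obtain ⟨p, hp⟩ := ih x hx y hy
        exact ⟨p, fun v hv => Set.mem_insert_of_mem _ (hp v hv)⟩

theorem Grow.path {V : Type u} {T : SimpleGraph V} {S : Set V} (h : Grow T S) {a b c : V}
    (ha : a ∈ S) (hc : c ∈ S) (hb : b ∉ S) (hbc : T.Adj b c) :
    ∃ p : T.Walk c a, (SimpleGraph.Walk.cons hbc p).IsPath := by
  classical
  obtain ⟨p, hp⟩ := h.conn c hc a ha
  refine ⟨p.bypass, ?_⟩
  rw [SimpleGraph.Walk.cons_isPath_iff]
  exact ⟨p.bypass_isPath, fun hv => hb (hp b (p.support_bypass_subset hv))⟩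

theorem Grow.exists_of_walk {V : Type u} {T : SimpleGraph V} {S : Set V} (h : Grow T S) {c d : V}
    (hc : c ∈ S) (p : T.Walk c d) : ∃ S', Grow T S' ∧ S ⊆ S' ∧ d ∈ S' := by
  induction p generalizing S with
  | nil => exact ⟨S, h, subset_rfl, hc⟩
  | @cons x v y hxv p ih =>
    by_cases hv : v ∈ S
    · exact ih h hv
    · obtain ⟨S', h1, h2, h3⟩ := ih (Grow.add S x v h hc hv hxv.symm) (Set.mem_insert v S)
      exact ⟨S', h1, (Set.subset_insert v S).trans h2, h3⟩

theorem Grow.exists_four {V : Type u} {T : SimpleGraph V} (hT : T.Connected) (a b c d : V) :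
    ∃ S, Grow T S ∧ a ∈ S ∧ b ∈ S ∧ c ∈ S ∧ d ∈ S := by
  obtain ⟨p1⟩ := hT.preconnected a b
  obtain ⟨p2⟩ := hT.preconnected a c
  obtain ⟨p3⟩ := hT.preconnected a d
  obtain ⟨S1, h1, s1, m1⟩ := (Grow.single (T := T) a).exists_of_walk rfl p1
  have a1 : a ∈ S1 := s1 rfl
  obtain ⟨S2, h2, s2, m2⟩ := h1.exists_of_walk a1 p2
  obtain ⟨S3, h3, s3, m3⟩ := h2.exists_of_walk (s2 a1) p3
  exact ⟨S3, h3, s3 (s2 a1), s3 (s2 m1), s3 m2, m3⟩

end CZH
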