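import Pool.Agent.CZH.CCf

/-!
# CZH/LLcc: a convex cocompact set gives (LL)

## Proof
Given `r`; let `a ∈ A`, `R = max r 0 + dist o a`, `Z = Nb R A` as a subtype (`CC.nb`), `H` acts on it (`inv`),
`D` the inclusion, `s x = ⟨x, _⟩` if `x ∈ Nb R A` and `⟨a, _⟩` otherwise.  If `dist x (φ h • o) ≤ r` then
`dist x (φ h • a) ≤ R`, so `x ∈ Nb R A` (`A` invariant).  `C0`: `C0.transfer` along the inclusion for the set
`Nb R A` (closed under `Btw`: `C0 (dst X) (Nb R A)` follows from `hX` and convexity).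
-/

namespace CZH

universe u

open Set

variable {G X H : Type u} [Group G] [MetricSpace X] [MulAction G X] [Group H]

theorem llcc_c0 (hX : C0 (dst X) univ) {B : Set X} (hB : Cvx B) : C0 (dst X) B where
  self := fun x _ => hX.self x (mem_univ x)
  nn := fun x _ y _ => hX.nn x (mem_univ x) y (mem_univ y)
  comm := fun x _ y _ => hX.comm x (mem_univ x) y (mem_univ y)
  tri := fun x _ y _ z _ => hX.tri x (mem_univ x) y (mem_univ y) z (mem_univ z)
  geo := fun x hx y hy t ht0 ht1 => by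
    obtain ⟨m, _, hm⟩ := hX.geo x (mem_univ x) y (mem_univ y) t ht0 ht1
    exact ⟨m, hB x hx y hy m t ht0 ht1 hm, hm⟩
  cmp := fun p _ x _ y _ m _ t ht0 ht1 hb =>
    hX.cmp p (mem_univ p) x (mem_univ x) y (mem_univ y) m (mem_univ m) t ht0 ht1 hb

/-- The action on an invariant set. -/
@[reducible] def llccAct (φ : H →* G) (B : Set X) (hB : ∀ h : H, ∀ x ∈ B, φ h • x ∈ B) :
    MulAction H B where
  smul h z := ⟨φ h • z.1, hB h z.1 z.2⟩
  one_smul z := Subtype.ext (by show φ 1 • z.1 = z.1; rw [map_one, one_smul])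
  mul_smul h h' z := Subtype.ext (by
    show φ (h * h') • z.1 = φ h • φ h' • z.1
    rw [map_mul, mul_smul])

theorem LL_of_CC [ProperSpace X] (hX : C0 (dst X) univ)
    (hG : ∀ (g : G) (x y : X), dist (g • x) (g • y) = dist x y) (φ : H →* G) (o : X) {A : Set X}
    (hA : CC φ A) : LL φ o := by
  classical
  intro r
  obtain ⟨a, ha⟩ := hA.ne
  set R : ℝ := max r 0 + dist o a with hR
  have hR0 : 0 ≤ R := add_nonneg (le_max_right _ _) dist_nonneg
  have hB : CC φ (Nb R A) := CC.nb hX hG hA hR0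
  obtain ⟨B, hBdef⟩ : ∃ B : Set X, B = Nb R A := ⟨_, rfl⟩
  rw [← hBdef] at hB
  have haB : a ∈ B := by
    rw [hBdef]
    exact ⟨a, ha, by rw [dist_self]; exact hR0⟩
  have hnear : ∀ x, Near φ o r x → x ∈ B := by
    rintro x ⟨h, hx⟩
    rw [hBdef]
    refine ⟨φ h • a, hA.inv h a ha, ?_⟩
    have h1 := dist_triangle x (φ h • o) (φ h • a)
    rw [hG] at h1
    have h2 := le_max_left r 0
    linarith
  obtain ⟨K, hKB, hK, hcov⟩ := hB.cpt
  letI act : MulAction H B := llccAct φ B hB.inv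
  have hsm : ∀ (h : H) (z : B), ((h • z : B) : X) = φ h • (z : X) := fun h z => rfl
  let s : X → B := fun x => if hx : x ∈ B then ⟨x, hx⟩ else ⟨a, haB⟩
  have hs : ∀ x (hx : x ∈ B), s x = ⟨x, hx⟩ := fun x hx => dif_pos hx
  refine ⟨B, inferInstance, act, Subtype.val, s, ?_⟩
  refine ⟨?_, ?_, ⟨Subtype.val ⁻¹' K, ?_, ?_⟩, ?_, ?_, ?_, ?_, ?_⟩
  · exact C0.transfer (d' := dst X) (S' := B) (fun z : B => (z : X)) (fun w _ => w.2)
      (fun z hz => ⟨⟨z, hz⟩, mem_univ _, rfl⟩) (fun w _ w' _ => rfl) (llcc_c0 hX hB.cvx)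
  · intro h z z'
    show dist (φ h • (z : X)) (φ h • (z' : X)) = dist (z : X) (z' : X)
    exact hG _ _ _
  · rw [Subtype.isCompact_iff, Subtype.image_preimage_coe, inter_eq_right.2 hKB]
    exact hK
  · intro z
    obtain ⟨h, k, hk, e⟩ := hcov z.1 z.2
    exact ⟨h, ⟨k, hKB hk⟩, hk, Subtype.ext e⟩
  · intro z z'
    exact le_rfl
  · intro h z
    rfl
  · intro x hx
    rw [hs x (hnear x hx)]
  · intro x hx h
    have h1 := hnear x hx
    rw [hs x h1, hs (φ h • x) (hB.inv h x h1)]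
    rfl
  · intro x y hx hy
    have h1 : Near φ o r x := ⟨1, by rw [map_one, one_smul]; exact hx⟩
    have h2 : Near φ o r y := ⟨1, by rw [map_one, one_smul]; exact hy⟩
    rw [hs x (hnear x h1), hs y (hnear y h2)]
    rfl

end CZH
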