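import Pool.Agent.CZH.Basic

/-!
# CZH/Official: the official definition of CAT(0) and the Stewart form are equivalent

## Proofs
`IsCAT0.c0`: `geo` from `geodesic` (`m = γ t`, `dist (γ 0) (γ t) = t D`, `dist (γ t) (γ 1) = (1-t) D`).
`cmp`: given `p, x, y, m, t`; choose a comparison triangle `p', x', y'` in the plane with the same side lengths
(`exists_triangle`: `a = dist x y`, `b = dist p x`, `c = dist p y` satisfy the triangle inequalities; take
`x' = (0,0)`, `y' = (a, 0)`, `p' = (u, v)`, `u = (b² + a² - c²)/(2a)`, `v = √(b² - u²)`; if `a = 0` then `b = c`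
and `p' = (b, 0)`), `m' = (1-t) x' + t y'` (`AffineMap.lineMap x' y' t`), `dist x' m' = t a`,
`dist m' y' = (1-t) a`; `dist p m ≤ dist p' m'` by `comparison`, and Stewart's identity in an inner product space
`dist p' m'² = (1-t) dist p' x'² + t dist p' y'² - t(1-t) dist x' y'²`.
`C0.isCAT0`: `geodesic`: choose for every `t ∈ [0,1]` the point `γ t` at parameter `t` (`γ 0 = x`, `γ 1 = y` have
distance `0` from the chosen ones); for `s ≤ t` let `q` be at parameter `s/t` on `[x, γ t]`; then `q` is at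
parameter `s` on `[x,y]` (triangle inequality), so `q = γ s` (`C0.uniq`), `dist (γ s) (γ t) = (1 - s/t) t D`.
`comparison`: with `D = dist x y`, if `D = 0` then `x = m = y` and `x' = m' = y'`. Otherwise
`t = dist x m / D`; `m` is at parameter `t`; `cmp` and Stewart's identity for the points `m'` with
`dist x' m' = t D`, `dist m' y' = (1-t) D`: then `m' = lineMap x' y' t` (strict convexity, e.g.
`dist_add_dist_eq_iff`/`Wbtw`, or use that the plane itself satisfies `cmp` with equality and `uniq`).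
-/

namespace CZH

universe u

open Set

theorem dist_sq_plane (p x : EuclideanSpace ℝ (Fin 2)) :
    dist p x ^ 2 = (p 0 - x 0) ^ 2 + (p 1 - x 1) ^ 2 := by
  rw [EuclideanSpace.dist_eq, Real.sq_sqrt (Finset.sum_nonneg fun i _ => sq_nonneg _),
    Fin.sum_univ_two, Real.dist_eq, Real.dist_eq, sq_abs, sq_abs]

theorem stew_plane (p x y : EuclideanSpace ℝ (Fin 2)) (t : ℝ) :
    dist p ((1 - t) • x + t • y) ^ 2 =
      (1 - t) * dist p x ^ 2 + t * dist p y ^ 2 - t * (1 - t) * dist x y ^ 2 := by
  simp only [dist_sq_plane, PiLp.add_apply, PiLp.smul_apply, smul_eq_mul]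
  ring

theorem exists_triangle (a b c : ℝ) (h1 : a ≤ b + c) (h2 : b ≤ a + c) (h3 : c ≤ a + b)
    (ha : 0 ≤ a) (hb : 0 ≤ b) (hc : 0 ≤ c) :
    ∃ p x y : EuclideanSpace ℝ (Fin 2), dist x y = a ∧ dist p x = b ∧ dist p y = c := by
  have key : ∀ (z w : EuclideanSpace ℝ (Fin 2)) (r : ℝ), 0 ≤ r →
      (z 0 - w 0) ^ 2 + (z 1 - w 1) ^ 2 = r ^ 2 → dist z w = r := by
    intro z w r hr h
    rw [← dist_sq_plane] at h
    exact (pow_left_inj₀ dist_nonneg hr two_ne_zero).mp h
  rcases ha.eq_or_lt with h0 | h0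
  · subst h0
    have hbc : b = c := by linarith
    subst hbc
    refine ⟨!₂[b, 0], !₂[0, 0], !₂[0, 0], ?_, ?_, ?_⟩
    · exact dist_self _
    · exact key _ _ _ hb (by simp)
    · exact key _ _ _ hb (by simp)
  · set u : ℝ := (b ^ 2 + a ^ 2 - c ^ 2) / (2 * a) with hu
    have hua : 2 * a * u = b ^ 2 + a ^ 2 - c ^ 2 := by
      rw [hu]; field_simp
    have hub : u ≤ b := by
      rw [hu, div_le_iff₀ (by positivity)]
      nlinarith
    have hub' : -b ≤ u := by
      rw [hu, le_div_iff₀ (by positivity)]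
      nlinarith
    have hv : 0 ≤ b ^ 2 - u ^ 2 := by nlinarith
    refine ⟨!₂[u, Real.sqrt (b ^ 2 - u ^ 2)], !₂[0, 0], !₂[a, 0], ?_, ?_, ?_⟩
    · exact key _ _ _ ha (by simp)
    · refine key _ _ _ hb ?_
      simp only [PiLp.toLp_apply, Matrix.cons_val_zero, Matrix.cons_val_one, sub_zero]
      rw [Real.sq_sqrt hv]
      ring
    · refine key _ _ _ hc ?_
      simp only [PiLp.toLp_apply, Matrix.cons_val_zero, Matrix.cons_val_one, sub_zero]
      rw [Real.sq_sqrt hv]
      nlinarith

theorem IsCAT0.c0 {X : Type u} [MetricSpace X] (h : IsCAT0 X) : C0 (dst X) univ where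
  self x _ := dist_self x
  nn x _ y _ := dist_nonneg
  comm x _ y _ := dist_comm x y
  tri x _ y _ z _ := dist_triangle x y z
  geo := by
    intro x _ y _ t ht0 ht1
    obtain ⟨γ, h0, h1, hγ⟩ := h.geodesic x y
    refine ⟨γ t, mem_univ _, ?_, ?_⟩
    · have := hγ 0 ⟨le_rfl, zero_le_one⟩ t ⟨ht0, ht1⟩
      rw [h0] at this
      show dist x (γ t) = t * dist x y
      rw [this, zero_sub, abs_neg, abs_of_nonneg ht0]
    · have := hγ t ⟨ht0, ht1⟩ 1 ⟨zero_le_one, le_rfl⟩
      rw [h1] at this
      show dist (γ t) y = (1 - t) * dist x y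
      rw [this, abs_sub_comm, abs_of_nonneg (by linarith)]
  cmp := by
    intro p _ x _ y _ m _ t ht0 ht1 hm
    have hm1 : dist x m = t * dist x y := hm.1
    have hm2 : dist m y = (1 - t) * dist x y := hm.2
    obtain ⟨p', x', y', e1, e2, e3⟩ := exists_triangle (dist x y) (dist p x) (dist p y)
      (dist_triangle_left x y p) (by rw [add_comm, dist_comm x y]; exact dist_triangle p y x)
      (by rw [add_comm]; exact dist_triangle p x y) dist_nonneg dist_nonneg dist_nonneg
    have hx' : dist x' ((1 - t) • x' + t • y') = t * dist x y := by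
      have h2 := stew_plane x' x' y' t
      rw [dist_self, e1] at h2
      have h3 : dist x' ((1 - t) • x' + t • y') ^ 2 = (t * dist x y) ^ 2 := by
        rw [h2]; ring
      exact (pow_left_inj₀ dist_nonneg (mul_nonneg ht0 dist_nonneg) two_ne_zero).mp h3
    have hy' : dist ((1 - t) • x' + t • y') y' = (1 - t) * dist x y := by
      have h2 := stew_plane y' x' y' t
      rw [dist_self, dist_comm y' x', e1] at h2
      have h3 : dist ((1 - t) • x' + t • y') y' ^ 2 = ((1 - t) * dist x y) ^ 2 := by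
        rw [dist_comm, h2]; ring
      exact (pow_left_inj₀ dist_nonneg (mul_nonneg (by linarith) dist_nonneg) two_ne_zero).mp h3
    have h4 := h.comparison p x y m p' x' y' ((1 - t) • x' + t • y') e2 e3 e1
      (by rw [hm1, hm2]; ring) (by rw [hx', hm1]) (by rw [hy', hm2])
    have h5 := stew_plane p' x' y' t
    rw [e1, e2, e3] at h5
    show dist p m ^ 2 ≤ (1 - t) * dist p x ^ 2 + t * dist p y ^ 2 - t * (1 - t) * dist x y ^ 2
    rw [← h5]
    exact pow_le_pow_left₀ dist_nonneg h4 2

theorem C0.isCAT0 {X : Type u} [MetricSpace X] (h : C0 (dst X) univ) : IsCAT0 X where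
  geodesic := by
    intro x y
    choose g hg using fun t : ℝ => fun h0 : 0 ≤ t ∧ t ≤ 1 =>
      h.geo x (mem_univ _) y (mem_univ _) t h0.1 h0.2
    have hx : ∀ (t : ℝ) (h0 : 0 ≤ t ∧ t ≤ 1), dist x (g t h0) = t * dist x y :=
      fun t h0 => (hg t h0).2.1
    have hy : ∀ (t : ℝ) (h0 : 0 ≤ t ∧ t ≤ 1), dist (g t h0) y = (1 - t) * dist x y :=
      fun t h0 => (hg t h0).2.2
    have hdist : ∀ (s : ℝ) (hs : 0 ≤ s ∧ s ≤ 1) (t : ℝ) (ht : 0 ≤ t ∧ t ≤ 1), s ≤ t →
        dist (g s hs) (g t ht) = (t - s) * dist x y := by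
      intro s hs t ht hst
      have h1 := h.cmp (g s hs) (mem_univ _) x (mem_univ _) y (mem_univ _) (g t ht) (mem_univ _) t
        ht.1 ht.2 (hg t ht).2
      have h1' : dist (g s hs) (g t ht) ^ 2 ≤ (1 - t) * dist (g s hs) x ^ 2 +
          t * dist (g s hs) y ^ 2 - t * (1 - t) * dist x y ^ 2 := h1
      rw [dist_comm (g s hs) x, hx s hs, hy s hs] at h1'
      have hD : 0 ≤ dist x y := dist_nonneg
      have h2 : dist (g s hs) (g t ht) ^ 2 ≤ ((t - s) * dist x y) ^ 2 := by
        refine h1'.trans (le_of_eq ?_)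
        ring
      have h3 : dist (g s hs) (g t ht) ≤ (t - s) * dist x y :=
        (pow_le_pow_iff_left₀ dist_nonneg (mul_nonneg (by linarith) hD) two_ne_zero).mp h2
      have h4 := dist_triangle4 x (g s hs) (g t ht) y
      rw [hx s hs, hy t ht] at h4
      have h5 : (t - s) * dist x y ≤ dist (g s hs) (g t ht) := by linarith
      exact le_antisymm h3 h5
    refine ⟨fun t => if h0 : 0 ≤ t ∧ t ≤ 1 then g t h0 else x, ?_, ?_, ?_⟩
    · have h0 : (0 : ℝ) ≤ 0 ∧ (0 : ℝ) ≤ 1 := ⟨le_rfl, zero_le_one⟩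
      simp only [h0, and_self, dite_true]
      have h1 := hx 0 h0
      rw [zero_mul] at h1
      exact (dist_eq_zero.mp h1).symm
    · have h0 : (0 : ℝ) ≤ 1 ∧ (1 : ℝ) ≤ 1 := ⟨zero_le_one, le_rfl⟩
      simp only [h0, and_self, dite_true]
      have h1 := hy 1 h0
      rw [sub_self, zero_mul] at h1
      exact dist_eq_zero.mp h1
    · intro s hs t ht
      have hs' : 0 ≤ s ∧ s ≤ 1 := hs
      have ht' : 0 ≤ t ∧ t ≤ 1 := ht
      simp only [hs', ht', and_self, dite_true]
      rcases le_total s t with hst | hst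
      · rw [hdist s hs' t ht' hst, abs_sub_comm, abs_of_nonneg (by linarith)]
      · rw [dist_comm, hdist t ht' s hs' hst, abs_of_nonneg (by linarith)]
  comparison := by
    intro p x y m p' x' y' m' e1 e2 e3 hm hxm hmy
    rcases (dist_nonneg (x := x) (y := y)).eq_or_lt with h0 | h0
    · have h1 : dist x m = 0 := by
        have := dist_nonneg (x := x) (y := m)
        have := dist_nonneg (x := m) (y := y)
        linarith
      have h2 : x = m := dist_eq_zero.mp h1
      rw [h1] at hxm
      have h3 : x' = m' := dist_eq_zero.mp hxm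
      rw [← h2, ← h3, e1]
    · set D := dist x y with hD
      set t : ℝ := dist x m / D with ht
      have hxm' : dist x m = t * D := by rw [ht, div_mul_cancel₀ _ h0.ne']
      have hmy' : dist m y = (1 - t) * D := by linarith
      have ht0 : 0 ≤ t := div_nonneg dist_nonneg h0.le
      have ht1 : t ≤ 1 := by
        rw [ht, div_le_one h0]
        have := dist_nonneg (x := m) (y := y)
        linarith
      have h1 : dist p m ^ 2 ≤ (1 - t) * dist p x ^ 2 + t * dist p y ^ 2 - t * (1 - t) * D ^ 2 :=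
        h.cmp p (mem_univ _) x (mem_univ _) y (mem_univ _) m (mem_univ _) t ht0 ht1
          ⟨hxm', hmy'⟩
      have h2 := stew_plane m' x' y' t
      rw [dist_comm m' x', hxm, hmy, hxm', hmy', e3] at h2
      have h3 : dist m' ((1 - t) • x' + t • y') ^ 2 = 0 := by
        rw [h2]; ring
      have h4 : m' = (1 - t) • x' + t • y' := by
        rw [← dist_eq_zero]
        exact pow_eq_zero_iff two_ne_zero |>.mp h3
      have h5 := stew_plane p' x' y' t
      rw [← h4, e1, e2, e3] at h5
      rw [← h5] at h1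
      exact (pow_le_pow_iff_left₀ dist_nonneg dist_nonneg two_ne_zero).mp h1

end CZH
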