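import Pool.Agent.CZH.Step
import Pool.Agent.CZH.Cyc
import Pool.Agent.CZH.LLcc
import Pool.Agent.CZH.FG
import Pool.Agent.CZH.HierF
import Pool.Agent.CZH.Official
import Pool.Agent.CZH.CCfg

/-!
# CZH/Main: the hierarchy theorems (assembly)
-/

namespace CZH

universe u

open Set Pointwise MulAction

/-- Finite hierarchies over convex cocompact subgroups of the CAT(0) space `X` of `G`, for a
homomorphism `φ : H →* G`.  `RHier X 0 H φ`: `H` acts cocompactly on some nonempty closed convex
subset of `X`.  `RHier X (n + 1) H φ`: `H` acts on a tree, the (setwise) stabilizers of the edges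
act cocompactly on nonempty closed convex subsets of `X`, and the stabilizers of the vertices
satisfy `RHier X n`. -/
def RHier {G : Type u} (X : Type u) [Group G] [MetricSpace X] [MulAction G X] :
    ℕ → ∀ (H : Type u) [Group H], (H →* G) → Prop
  | 0, _, _, φ => ∃ A : Set X, CC φ A
  | n + 1, H, _, φ => ∃ (V : Type u) (T : SimpleGraph V) (_ : MulAction H V), T.IsTree ∧
      (∀ (h : H) (a b : V), T.Adj a b → T.Adj (h • a) (h • b)) ∧
      (∀ a b : V, T.Adj a b →
        ∃ A : Set X, CC (φ.comp (stabilizer H ({a, b} : Set V)).subtype) A) ∧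
      ∀ a : V, RHier X n (stabilizer H a) (φ.comp (stabilizer H a).subtype)

variable {G X : Type u} [Group G] [MetricSpace X] [MulAction G X]

theorem finite_disp_comp [ProperSpace X] (hG : IsGeometric G X) {H : Type u} [Group H]
    (φ : H →* G) (hφ : Function.Injective φ) (o : X) (r : ℝ) :
    {h : H | dist (φ h • o) o ≤ r}.Finite :=
  (hG.finite_disp o r).preimage hφ.injOn

theorem LL_of_rhier [ProperSpace X] [Nonempty X] (hX : C0 (dst X) univ) (hG : IsGeometric G X)
    (o : X) : ∀ (n : ℕ) (H : Type u) [Group H] (φ : H →* G), Function.Injective φ →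
    Group.FG H → RHier X n H φ → LL φ o := by
  intro n
  induction n with
  | zero =>
    rintro H _ φ hφ hfg ⟨A, hA⟩
    exact LL_of_CC hX hG.isom φ o hA
  | succ n ih =>
    rintro H _ φ hφ hfg ⟨V, T, _, hT, adj, hcc, hst⟩
    obtain ⟨V', _, T', ι, hι, hιe, hT', adj', hιadj, hF, hE⟩ := exists_subtree hfg T hT adj
    have hst_eq : ∀ v : V', stabilizer H v = stabilizer H (ι v) := by
      intro v
      ext h
      rw [mem_stabilizer_iff, mem_stabilizer_iff, ← hιe]
      exact ⟨fun e => by rw [e], fun e => hι e⟩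
    have hpair : ∀ (a b : V'), stabilizer H ({a, b} : Set V') =
        stabilizer H ({ι a, ι b} : Set V) := by
      intro a b
      have h1 : ({ι a, ι b} : Set V) = ι '' {a, b} := by
        rw [Set.image_pair]
      have h2 : ∀ h : H, h • (ι '' ({a, b} : Set V')) = ι '' (h • ({a, b} : Set V')) := by
        intro h
        ext v
        constructor
        · rintro ⟨w, ⟨x, hx, rfl⟩, rfl⟩
          exact ⟨h • x, ⟨x, hx, rfl⟩, hιe h x⟩
        · rintro ⟨w, ⟨x, hx, rfl⟩, rfl⟩
          exact ⟨ι x, ⟨x, hx, rfl⟩, (hιe h x).symm⟩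
      ext h
      rw [mem_stabilizer_iff, mem_stabilizer_iff, h1, h2, hι.image_injective.eq_iff]
    have hcc' : ∀ a b : V', T'.Adj a b →
        ∃ A : Set X, CC (φ.comp (stabilizer H ({a, b} : Set V')).subtype) A := by
      intro a b hab
      rw [hpair a b]
      exact hcc _ _ (hιadj a b hab)
    have hfin := fun (o : X) (r : ℝ) => finite_disp_comp hG φ hφ o r
    refine LL_step hX hG.isom φ o (hfin o) T' hT' adj' hF hE hcc' ?_
    intro v
    refine ih (stabilizer H v) (φ.comp (stabilizer H v).subtype) ?_ ?_ ?_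
    · exact hφ.comp Subtype.val_injective
    · refine (Group.fg_iff_subgroup_fg _).mpr (fg_stabilizer hfg T' hT' adj' hF ?_ v)
      intro a b hab
      obtain ⟨A, hA⟩ := hcc' a b hab
      exact hA.pair_fg hX hG.isom hfin
    · rw [hst_eq v]
      exact hst (ι v)

theorem RHier.of_hier [ProperSpace X] [Nonempty X] (hX : C0 (dst X) univ)
    (hG : IsGeometric G X) : ∀ (n : ℕ) (H : Type u) [Group H] (φ : H →* G), Hier n H →
    RHier X n H φ := by
  intro n
  induction n with
  | zero =>
    intro H _ φ hH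
    exact CC_cyclic hX hG hH φ
  | succ n ih =>
    rintro H _ φ ⟨V, T, _, hT, adj, hcyc, hst⟩
    exact ⟨V, T, inferInstance, hT, adj, fun a b hab => CC_cyclic hX hG (hcyc a b hab) _,
      fun a => ih _ _ (hst a)⟩

/-- **Relative hierarchy theorem**: let `G` act geometrically on the CAT(0) space `X`, and let the
finitely generated group `H` embed in `G` by `φ`.  If `H` has a finite hierarchy over subgroups
that are convex cocompact in `X`, then `H` is a CAT(0) group. -/
theorem cat0_of_rhier [hne : Nonempty X] (hX : IsCAT0 X) (hG : IsGeometric G X) {H : Type u}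
    [Group H] (hfg : Group.FG H) (φ : H →* G) (hφ : Function.Injective φ) (n : ℕ)
    (hH : RHier X n H φ) : CAT0Group H := by
  have hX' := hX.c0
  have : ProperSpace X := hG.proper_space hX'
  obtain ⟨o⟩ := id hne
  obtain ⟨Z, _, _, D, s, hM⟩ := LL_of_rhier hX' hG o n H φ hφ hfg hH 0
  refine ⟨Z, inferInstance, inferInstance, ⟨s o⟩, hM.c0.isCAT0, ⟨hM.isom, ?_, ?_⟩⟩
  · intro z
    obtain ⟨r, hr, hfin⟩ := hG.proper (D z)
    refine ⟨r, hr, ?_⟩
    refine (hfin.preimage (hφ.injOn)).subset ?_
    rintro h ⟨w, ⟨w', hw', rfl⟩, hw⟩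
    refine ⟨φ h • D w', ⟨D w', ?_, rfl⟩, ?_⟩
    · exact lt_of_le_of_lt (hM.lip _ _) hw'
    · have := lt_of_le_of_lt (hM.lip _ _) hw
      simp only at this
      rw [hM.equi] at this
      exact this
  · exact hM.cpt

/-- **Hierarchy theorem**: a finitely generated group with a finite cyclic hierarchy that embeds
in a CAT(0) group is a CAT(0) group. -/
theorem cat0_of_hier {G : Type u} [Group G] (hG : CAT0Group G) {H : Type u} [Group H]
    (hfg : Group.FG H) (n : ℕ) (hH : Hier n H) (φ : H →* G) (hφ : Function.Injective φ) :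
    CAT0Group H := by
  obtain ⟨X, _, _, hne, hX, hgeo⟩ := hG
  have : ProperSpace X := hgeo.proper_space hX.c0
  exact cat0_of_rhier hX hgeo hfg φ hφ n (RHier.of_hier hX.c0 hgeo n H φ hH)

end CZH
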