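import Pool.Agent.CZH.Defs

/-!
# CZH/Quot: the metric space of a pseudo-distance, with a group action

## Proof
Let `W' := W` with `PseudoMetricSpace` given by `d` (`PseudoMetricSpace.mk`/`ofDist`, e.g. through a
type synonym or a local instance), `Q := SeparationQuotient W'` (metric space), `q = SeparationQuotient.mk`,
`dist (mk w) (mk w') = d w w'` (`SeparationQuotient.dist_mk`).  Action: `h • mk w = mk (h • w)`, well defined
because `h` preserves `d` (use `SeparationQuotient.lift` or the Mathlib instance for
`ContinuousConstSMul`, or `Quotient.map'`).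
-/

namespace CZH

universe u

open Set

theorem exists_quot {H W : Type u} [Group H] [MulAction H W] (d : W → W → ℝ)
    (hself : ∀ w, d w w = 0) (hnn : ∀ w w', 0 ≤ d w w') (hcomm : ∀ w w', d w w' = d w' w)
    (htri : ∀ w₁ w₂ w₃, d w₁ w₃ ≤ d w₁ w₂ + d w₂ w₃)
    (hinv : ∀ (h : H) (w w' : W), d (h • w) (h • w') = d w w') :
    ∃ (Q : Type u) (_ : MetricSpace Q) (_ : MulAction H Q) (q : W → Q),
      Function.Surjective q ∧ (∀ w w', dist (q w) (q w') = d w w') ∧
      ∀ (h : H) (w : W), q (h • w) = h • q w := by
  letI : PseudoMetricSpace W :=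
    { dist := d
      dist_self := hself
      dist_comm := hcomm
      dist_triangle := htri }
  haveI : ContinuousConstSMul H W :=
    ⟨fun h => (Isometry.of_dist_eq (f := fun w : W => h • w) (fun w w' => hinv h w w')).continuous⟩
  exact ⟨SeparationQuotient W, inferInstance, inferInstance, SeparationQuotient.mk,
    SeparationQuotient.surjective_mk, fun w w' => SeparationQuotient.dist_mk w w',
    fun h w => SeparationQuotient.mk_smul h w⟩

theorem exists_quot₀ {W : Type u} (d : W → W → ℝ)
    (hself : ∀ w, d w w = 0) (hnn : ∀ w w', 0 ≤ d w w') (hcomm : ∀ w w', d w w' = d w' w)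
    (htri : ∀ w₁ w₂ w₃, d w₁ w₃ ≤ d w₁ w₂ + d w₂ w₃) :
    ∃ (Q : Type u) (_ : MetricSpace Q) (q : W → Q),
      Function.Surjective q ∧ (∀ w w', dist (q w) (q w') = d w w') := by
  letI : PseudoMetricSpace W :=
    { dist := d
      dist_self := hself
      dist_comm := hcomm
      dist_triangle := htri }
  exact ⟨SeparationQuotient W, inferInstance, SeparationQuotient.mk,
    SeparationQuotient.surjective_mk, fun w w' => SeparationQuotient.dist_mk w w'⟩

end CZH
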