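import Pool.Agent.CZH.Defs

/-!
# CZH/Real: Alexandrov's lemma in Stewart form (pure real inequality), Mathlib only

Geometric meaning: planar quadrilateral `p̃ = 0`, `z̃`, `x̃`, `ỹ` with `|p̃x̃| = P`, `|p̃ỹ| = Y`,
`|p̃z̃| = Z`, `|z̃ỹ| = E`, `|x̃z̃| = F`; `hS` says that the angle of the quadrilateral at `z̃` is `≥ π`.
`u_τ = τ z̃`, `m_t = t ỹ`.

## Proof
Degenerate cases.
* `Z = 0`: then `P = F`, `Y = E`; take `τ = 0`: `√(P²) + √(t² Y²) = P + t Y` and the right side squared is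
  `(1-t)P² + t(Y+P)² - t(1-t)Y² = (P + tY)²`.
* `F = 0`: then `P = Z`; take `τ = 1` (equality).
* `E = 0`: then `Y = Z`; take `τ = t` (second root `= 0`, equality).
Generic case `Z, E, F > 0`: origin at `z̃`, `p̃ = (-Z, 0)`, `x̃ = (a, b)`, `ỹ = (c, -e)` with
`a = (P² - Z² - F²)/(2Z)`, `b = √(F² - a²) ≥ 0`, `c = (Y² - Z² - E²)/(2Z)`, `e = √(E² - c²) ≥ 0`
(`|a| ≤ F`, `|c| ≤ E` by the triangle inequalities `h1 .. h4`).  So
`a² + b² = F²`, `(a+Z)² + b² = P²`, `c² + e² = E²`, `(c+Z)² + e² = Y²`, and `hS` becomes `E a + F c ≥ 0`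
(divide by `2Z`).  Facts:
(1) `e a + b c ≥ 0`: clear if `a, c ≥ 0`; if `a < 0` then `F c ≥ E |a| > 0`, squaring
    `(a²+b²)c² ≥ (c²+e²)a²`, so `b²c² ≥ e²a²`, `b c ≥ e |a|`; similarly if `c < 0`.
`u_τ = (-(1-τ)Z, 0)`, `m = m_t = (-(1-t)Z + t c, -t e)`.  The first root is `|x̃ - u_τ|`, the second is
`|u_τ - m_t|`: identities
`(1-τ)P² + τF² - τ(1-τ)Z² = (a + (1-τ)Z)² + b²`,
`(1-t)τ²Z² + t((1-τ)Y² + τE² - τ(1-τ)Z²) - t(1-t)Y² = (-(1-τ)Z + (1-t)Z - tc)² + t²e²`.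
Also `(1-t)P² + t((a-c)² + (b+e)²) - t(1-t)Y² = (a + (1-t)Z - tc)² + (b + te)²` and
`(a-c)² + (b+e)² ≤ (E+F)²` (triangle inequality / Cauchy-Schwarz `-ac + be ≤ EF`).
If `b + t e = 0` (so `b = 0`, `t e = 0`): everything is on the axis: `a = ± F`. Then: if `a = -F` then
`F c ≥ E F`, so `c = E`, `e = 0`, ... the points are `x̃ = (-F,0)`, `z̃ = 0`, `ỹ = (E, 0)`; `m = -(1-t)Z + tE`;
take `u = m` if `m ≤ 0` (and `m ≥ -Z` holds), `u = z̃` (`τ = 1`) if `m > 0`.  If `a = F` (`x̃ = (F, 0)`):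
then `P = Z + F`; take `τ = 1`: `F + |z̃ - m| ≤ RHS`: this is the computation of case B below with `b = 0`.
Case A: `b + te > 0` and the crossing `x_c = (t e a + b(-(1-t)Z + t c))/(b + t e)` satisfies `x_c ≤ 0`.
   `x_c ≥ -Z` because `t[e(a+Z) + b(c+Z)] ≥ 0` by (1).  Take `u_τ = (x_c, 0)`, `τ = 1 + x_c/Z`. Then
   `|x̃ - u| = (b/(b+te)) |x̃ - m|`, `|u - m| = (te/(b+te)) |x̃ - m|`, the sum is `|x̃ - m|`, and
   `|x̃ - m|² ≤ RHS²` by the identity above.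
Case B: `t(ea + bc) > b(1-t)Z` (or `b = 0`, `a = F`): take `τ = 1`. Need `F + g ≤ RHS` with
   `g = |m| = √((tc - (1-t)Z)² + t²e²)`. Since `RHS² - (F+g)² = 2F(aff - g)` with
   `aff = (1-t) a Z/F + t E`, need `g ≤ aff`, i.e. `aff ≥ 0` and `g² ≤ aff²`.
   `aff² - g² = (1-t)Z/F² · (2tF(aE + cF) - (1-t)Z b²)`. Now `(1-t)Zb² ≤ t b (ea + bc)` and
(2) `b(ea + bc) ≤ 2F(aE + cF)`. Proof of (2) (normalise `F = E = 1`: divide `a, b` by `F`, `c, e` by `E`):
    `a, c ≥ 0`: `be ≤ 1`, `b² ≤ 1` termwise.  `a < 0`: `c ≥ |a|`; `(bc - e|a|)(bc + e|a|) = c² - a²`, so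
    `b(bc - e|a|)(bc + e|a|) = b(c-|a|)(c+|a|) ≤ 2bc(c-|a|) ≤ 2(c-|a|)(bc+e|a|)`, cancel `bc + e|a|` (if it is
    zero then `b = 0` and (2) is trivial).  `c < 0`: `a ≥ |c|`, `b ≤ e`:
    `(ea - b|c|)(ea + b|c|) = a² - c²`, `b(a + |c|) ≤ 2ea + 2b|c|`, cancel in the same way.
   `aff ≥ 0`: `F·aff = (1-t)aZ + tEF`; clear if `a ≥ 0`; if `a < 0` then use
   `b(1-t)Z < t(ea+bc)` and `b > 0`: `(1-t)Z|a| ≤ t|a|(bc - e|a|)/b ≤ t |a| c ≤ t F E`.
-/

namespace CZH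

/-- Facts (1) and (2) of the header. -/
private theorem alex_facts {a b c e E F : ℝ} (hb : 0 ≤ b) (he : 0 ≤ e) (hE : 0 < E) (hF : 0 < F)
    (h1 : a ^ 2 + b ^ 2 = F ^ 2) (h2 : c ^ 2 + e ^ 2 = E ^ 2) (hS : 0 ≤ E * a + F * c) :
    0 ≤ e * a + b * c ∧ b * (e * a + b * c) ≤ 2 * F * (E * a + F * c) := by
  have key : (e * a + b * c) * (E * F + a * c + b * e) = (E * a + F * c) * (b * E + e * F) := by
    linear_combination (c * e) * h1 + (a * b) * h2
  have hbe : 0 ≤ b * E + e * F := by positivity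
  -- Cauchy-Schwarz
  have hcs : (a * c + b * e) ^ 2 ≤ (E * F) ^ 2 := by
    have : (E * F) ^ 2 = (a * c + b * e) ^ 2 + (a * e - b * c) ^ 2 := by
      rw [mul_pow, ← h1, ← h2]; ring
    nlinarith [sq_nonneg (a * e - b * c)]
  have hEF : 0 < E * F := mul_pos hE hF
  have hG : 0 ≤ E * F + a * c + b * e := by
    have := abs_le_of_sq_le_sq' hcs hEF.le
    linarith [this.1]
  rcases hG.eq_or_lt with h0 | h0
  · -- opposite directions: `b = e = 0`
    have hac : E * F + a * c ≤ 0 := by nlinarith [mul_nonneg hb he]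
    have hac2 : (E * F) ^ 2 ≤ (a * c) ^ 2 := by nlinarith
    have hz : b ^ 2 * c ^ 2 + a ^ 2 * e ^ 2 + b ^ 2 * e ^ 2 ≤ 0 := by
      have h5 : (E * F) ^ 2 = a ^ 2 * c ^ 2 + b ^ 2 * c ^ 2 + a ^ 2 * e ^ 2 + b ^ 2 * e ^ 2 := by
        rw [mul_pow, ← h1, ← h2]; ring
      nlinarith
    have hbc : b * c = 0 := by
      have : (b * c) ^ 2 ≤ 0 := by nlinarith [sq_nonneg (a * e), sq_nonneg (b * e), sq_nonneg (b * c)]
      exact pow_eq_zero_iff (two_ne_zero) |>.1 (le_antisymm this (sq_nonneg _))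
    have hae : e * a = 0 := by
      have : (e * a) ^ 2 ≤ 0 := by nlinarith [sq_nonneg (a * e), sq_nonneg (b * e), sq_nonneg (b * c)]
      exact pow_eq_zero_iff (two_ne_zero) |>.1 (le_antisymm this (sq_nonneg _))
    rw [hbc, hae]
    refine ⟨by norm_num, ?_⟩
    have : 0 ≤ 2 * F * (E * a + F * c) := by positivity
    linarith
  · constructor
    · by_contra hn
      push Not at hn
      have h3 : (e * a + b * c) * (E * F + a * c + b * e) < 0 := mul_neg_of_neg_of_pos hn h0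
      have h4 : 0 ≤ (E * a + F * c) * (b * E + e * F) := mul_nonneg hS hbe
      linarith
    · -- `b (b E + e F) ≤ 2 F (E F + a c + b e)`
      have h3 : b * (b * E + e * F) ≤ 2 * F * (E * F + a * c + b * e) := by
        have h4 : 0 ≤ E * (2 * F * (E * F + a * c + b * e) - b * (b * E + e * F)) := by
          have : E * (2 * F * (E * F + a * c + b * e) - b * (b * E + e * F)) =
              F ^ 2 * e ^ 2 + (E * a + F * c) ^ 2 + E * F * (b * e) := by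
            linear_combination (- E ^ 2) * h1 + (- F ^ 2) * h2
          rw [this]
          have := mul_nonneg hb he
          positivity
        have := (mul_nonneg_iff_of_pos_left hE).1 h4
        linarith
      have h5 : b * (e * a + b * c) * (E * F + a * c + b * e) ≤
          2 * F * (E * a + F * c) * (E * F + a * c + b * e) := by
        have h6 := mul_le_mul_of_nonneg_left h3 hS
        calc b * (e * a + b * c) * (E * F + a * c + b * e)
            = b * ((e * a + b * c) * (E * F + a * c + b * e)) := by ring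
          _ = (E * a + F * c) * (b * (b * E + e * F)) := by rw [key]; ring
          _ ≤ (E * a + F * c) * (2 * F * (E * F + a * c + b * e)) := h6
          _ = _ := by ring
      exact le_of_mul_le_mul_right h5 h0

/-- Cauchy-Schwarz: `E F + a c - b e ≥ 0`. -/
private theorem alex_cs {a b c e E F : ℝ} (hE : 0 < E) (hF : 0 < F)
    (h1 : a ^ 2 + b ^ 2 = F ^ 2) (h2 : c ^ 2 + e ^ 2 = E ^ 2) : 0 ≤ E * F + a * c - b * e := by
  have hcs : (a * c - b * e) ^ 2 ≤ (E * F) ^ 2 := by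
    have : (E * F) ^ 2 = (a * c - b * e) ^ 2 + (a * e + b * c) ^ 2 := by
      rw [mul_pow, ← h1, ← h2]; ring
    nlinarith [sq_nonneg (a * e + b * c)]
  have := abs_le_of_sq_le_sq' hcs (mul_pos hE hF).le
  linarith [this.1]

/-- Case B: `τ = 1`. -/
private theorem alex_B {P Y Z E F t a b c e : ℝ} (hZ : 0 < Z) (hF : 0 < F)
    (hP2 : P ^ 2 = Z ^ 2 + F ^ 2 + 2 * Z * a) (hY2 : Y ^ 2 = Z ^ 2 + E ^ 2 + 2 * Z * c)
    (h1 : a ^ 2 + b ^ 2 = F ^ 2) (h2 : c ^ 2 + e ^ 2 = E ^ 2) (ht1 : t ≤ 1)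
    (haff : 0 ≤ (1 - t) * a * Z + t * E * F)
    (hk : (1 - t) * Z * b ^ 2 ≤ 2 * t * F * (E * a + F * c)) :
    √(F ^ 2) + √((1 - t) * Z ^ 2 + t * E ^ 2 - t * (1 - t) * Y ^ 2)
      ≤ √((1 - t) * P ^ 2 + t * (E + F) ^ 2 - t * (1 - t) * Y ^ 2) := by
  rw [Real.sqrt_sq hF.le]
  set g := √((1 - t) * Z ^ 2 + t * E ^ 2 - t * (1 - t) * Y ^ 2) with hg
  have hg0 : 0 ≤ g := Real.sqrt_nonneg _
  have hgF : g * F ≤ (1 - t) * a * Z + t * E * F := by
    rw [hg, ← le_div_iff₀ hF]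
    apply Real.sqrt_le_iff.2
    refine ⟨div_nonneg haff hF.le, ?_⟩
    rw [div_pow, le_div_iff₀ (by positivity)]
    have h3 : 0 ≤ (1 - t) * Z * (2 * t * F * (E * a + F * c) - (1 - t) * Z * b ^ 2) :=
      mul_nonneg (mul_nonneg (by linarith) hZ.le) (by linarith)
    have h4 : ((1 - t) * a * Z + t * E * F) ^ 2 -
        ((1 - t) * Z ^ 2 + t * E ^ 2 - t * (1 - t) * Y ^ 2) * F ^ 2 =
        (1 - t) * Z * (2 * t * F * (E * a + F * c) - (1 - t) * Z * b ^ 2) := by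
      rw [hY2]
      linear_combination ((1 - t) ^ 2 * Z ^ 2) * h1
    linarith
  have hrad : 0 ≤ (1 - t) * Z ^ 2 + t * E ^ 2 - t * (1 - t) * Y ^ 2 := by
    have : (1 - t) * Z ^ 2 + t * E ^ 2 - t * (1 - t) * Y ^ 2 =
        ((1 - t) * Z - t * c) ^ 2 + t ^ 2 * e ^ 2 := by
      rw [hY2]
      linear_combination (- t ^ 2) * h2
    rw [this]
    positivity
  have h : g ^ 2 = (1 - t) * Z ^ 2 + t * E ^ 2 - t * (1 - t) * Y ^ 2 := Real.sq_sqrt hrad
  apply Real.le_sqrt_of_sq_le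
  have h5 : (1 - t) * P ^ 2 + t * (E + F) ^ 2 - t * (1 - t) * Y ^ 2 - (F + g) ^ 2 =
      2 * ((1 - t) * a * Z + t * E * F) - 2 * (g * F) := by
    rw [hP2]
    linear_combination (-1) * h
  linarith

/-- Case A: the crossing point. -/
private theorem alex_A {P Y Z E F t a b c e : ℝ} (hZ : 0 < Z) (hE : 0 < E) (hF : 0 < F)
    (hb : 0 ≤ b) (he : 0 ≤ e)
    (hP2 : P ^ 2 = Z ^ 2 + F ^ 2 + 2 * Z * a) (hY2 : Y ^ 2 = Z ^ 2 + E ^ 2 + 2 * Z * c)
    (h1 : a ^ 2 + b ^ 2 = F ^ 2) (h2 : c ^ 2 + e ^ 2 = E ^ 2) (ht0 : 0 ≤ t)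
    (hN : 0 < b + t * e) (hf1 : 0 ≤ e * a + b * c)
    (hx : t * (e * a + b * c) ≤ b * ((1 - t) * Z)) :
    ∃ τ : ℝ, 0 ≤ τ ∧ τ ≤ 1 ∧
      √((1 - τ) * P ^ 2 + τ * F ^ 2 - τ * (1 - τ) * Z ^ 2) +
        √((1 - t) * (τ ^ 2 * Z ^ 2) + t * ((1 - τ) * Y ^ 2 + τ * E ^ 2 - τ * (1 - τ) * Z ^ 2) -
          t * (1 - t) * Y ^ 2)
      ≤ √((1 - t) * P ^ 2 + t * (E + F) ^ 2 - t * (1 - t) * Y ^ 2) := by
  set N := b + t * e with hNd
  set D := a - t * c + (1 - t) * Z with hD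
  -- `w = 1 - τ`
  obtain ⟨w, hw⟩ : ∃ w : ℝ, w = (b * ((1 - t) * Z) - t * (e * a + b * c)) / (N * Z) := ⟨_, rfl⟩
  have hNZ : 0 < N * Z := mul_pos hN hZ
  have hw0 : 0 ≤ w := by
    rw [hw]
    exact div_nonneg (by linarith) hNZ.le
  have hw1 : w ≤ 1 := by
    rw [hw, div_le_one hNZ, hNd]
    have h3 := mul_nonneg ht0 hf1
    have h4 := mul_nonneg ht0 (mul_nonneg he hZ.le)
    have h5 := mul_nonneg ht0 (mul_nonneg hb hZ.le)
    nlinarith
  have hwN : w * Z * N = b * ((1 - t) * Z) - t * (e * a + b * c) := by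
    rw [hw]
    field_simp
  -- the two vectors
  have hX1 : (a + w * Z) * N = b * D := by
    rw [hD]
    linear_combination hwN + a * hNd
  have hX2 : ((w - (1 - t)) * Z + t * c) * N = - (t * e * D) := by
    rw [hD]
    linear_combination hwN + (t * c - (1 - t) * Z) * hNd
  set S := √(D ^ 2 + N ^ 2) with hS
  have hS2 : S ^ 2 = D ^ 2 + N ^ 2 := Real.sq_sqrt (by positivity)
  have hS0 : 0 ≤ S := Real.sqrt_nonneg _
  have hN2 : N ^ 2 ≠ 0 := (pow_pos hN 2).ne'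
  have r1 : (1 - (1 - w)) * P ^ 2 + (1 - w) * F ^ 2 - (1 - w) * (1 - (1 - w)) * Z ^ 2 =
      (b / N * S) ^ 2 := by
    have h3 : (1 - (1 - w)) * P ^ 2 + (1 - w) * F ^ 2 - (1 - w) * (1 - (1 - w)) * Z ^ 2 =
        (a + w * Z) ^ 2 + b ^ 2 := by
      rw [hP2]
      linear_combination (-1) * h1
    rw [h3, mul_pow, hS2, div_pow, div_mul_eq_mul_div, eq_div_iff hN2]
    have h4 : ((a + w * Z) * N) ^ 2 = (b * D) ^ 2 := by rw [hX1]
    linear_combination h4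
  have r2 : (1 - t) * ((1 - w) ^ 2 * Z ^ 2) + t * ((1 - (1 - w)) * Y ^ 2 + (1 - w) * E ^ 2 -
      (1 - w) * (1 - (1 - w)) * Z ^ 2) - t * (1 - t) * Y ^ 2 = (t * e / N * S) ^ 2 := by
    have h3 : (1 - t) * ((1 - w) ^ 2 * Z ^ 2) + t * ((1 - (1 - w)) * Y ^ 2 + (1 - w) * E ^ 2 -
      (1 - w) * (1 - (1 - w)) * Z ^ 2) - t * (1 - t) * Y ^ 2 =
        ((w - (1 - t)) * Z + t * c) ^ 2 + t ^ 2 * e ^ 2 := by
      rw [hY2]
      linear_combination (- t ^ 2) * h2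
    rw [h3, mul_pow, hS2, div_pow, div_mul_eq_mul_div, eq_div_iff hN2]
    have h4 : (((w - (1 - t)) * Z + t * c) * N) ^ 2 = (- (t * e * D)) ^ 2 := by rw [hX2]
    linear_combination h4
  refine ⟨1 - w, by linarith, by linarith, ?_⟩
  rw [r1, r2, Real.sqrt_sq (mul_nonneg (div_nonneg hb hN.le) hS0),
    Real.sqrt_sq (mul_nonneg (div_nonneg (mul_nonneg ht0 he) hN.le) hS0), ← add_mul, ← add_div,
    ← hNd, div_self hN.ne', one_mul, hS]
  apply Real.sqrt_le_sqrt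
  have h3 := alex_cs hE hF h1 h2
  have h4 : (1 - t) * P ^ 2 + t * (E + F) ^ 2 - t * (1 - t) * Y ^ 2 - (D ^ 2 + N ^ 2) =
      2 * (t * (E * F + a * c - b * e)) := by
    rw [hP2, hY2, hD, hNd]
    linear_combination (-1) * h1 - t ^ 2 * h2
  have h5 := mul_nonneg ht0 h3
  linarith

theorem alex (P Y Z E F t : ℝ) (hP : 0 ≤ P) (hY : 0 ≤ Y) (hZ : 0 ≤ Z) (hE : 0 ≤ E) (hF : 0 ≤ F)
    (h1 : |P - Z| ≤ F) (h2 : F ≤ P + Z) (h3 : |Y - Z| ≤ E) (h4 : E ≤ Y + Z)
    (hS : (E + F) * Z ^ 2 ≤ E * P ^ 2 + F * Y ^ 2 - E * F * (E + F))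
    (ht0 : 0 ≤ t) (ht1 : t ≤ 1) :
    ∃ τ : ℝ, 0 ≤ τ ∧ τ ≤ 1 ∧
      √((1 - τ) * P ^ 2 + τ * F ^ 2 - τ * (1 - τ) * Z ^ 2) +
        √((1 - t) * (τ ^ 2 * Z ^ 2) + t * ((1 - τ) * Y ^ 2 + τ * E ^ 2 - τ * (1 - τ) * Z ^ 2) -
          t * (1 - t) * Y ^ 2)
      ≤ √((1 - t) * P ^ 2 + t * (E + F) ^ 2 - t * (1 - t) * Y ^ 2) := by
  rw [abs_le] at h1 h3
  rcases hZ.eq_or_lt with hZ0 | hZ0
  · -- `Z = 0`
    subst hZ0
    have hPF : F = P := by linarith
    have hYE : E = Y := by linarith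
    subst hPF hYE
    refine ⟨0, le_rfl, zero_le_one, ?_⟩
    have e1 : (1 - 0) * F ^ 2 + 0 * F ^ 2 - 0 * (1 - 0) * (0 : ℝ) ^ 2 = F ^ 2 := by ring
    have e2 : (1 - t) * (0 ^ 2 * (0 : ℝ) ^ 2) + t * ((1 - 0) * E ^ 2 + 0 * E ^ 2 -
      0 * (1 - 0) * (0 : ℝ) ^ 2) - t * (1 - t) * E ^ 2 = (t * E) ^ 2 := by ring
    have e3 : (1 - t) * F ^ 2 + t * (E + F) ^ 2 - t * (1 - t) * E ^ 2 = (F + t * E) ^ 2 := by ring
    rw [e1, e2, e3, Real.sqrt_sq hF, Real.sqrt_sq (mul_nonneg ht0 hE),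
      Real.sqrt_sq (add_nonneg hF (mul_nonneg ht0 hE))]
  rcases hF.eq_or_lt with hF0 | hF0
  · -- `F = 0`
    subst hF0
    have hPZ : P = Z := by linarith
    subst hPZ
    refine ⟨1, zero_le_one, le_rfl, ?_⟩
    have e1 : (1 - 1) * P ^ 2 + 1 * (0 : ℝ) ^ 2 - 1 * (1 - 1) * P ^ 2 = 0 := by ring
    have e2 : (1 - t) * (1 ^ 2 * P ^ 2) + t * ((1 - 1) * Y ^ 2 + 1 * E ^ 2 -
      1 * (1 - 1) * P ^ 2) - t * (1 - t) * Y ^ 2 =
      (1 - t) * P ^ 2 + t * (E + 0) ^ 2 - t * (1 - t) * Y ^ 2 := by ring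
    rw [e1, e2, Real.sqrt_zero, zero_add]
  rcases hE.eq_or_lt with hE0 | hE0
  · -- `E = 0`
    subst hE0
    have hYZ : Y = Z := by linarith
    subst hYZ
    refine ⟨t, ht0, ht1, ?_⟩
    have e2 : (1 - t) * (t ^ 2 * Y ^ 2) + t * ((1 - t) * Y ^ 2 + t * (0 : ℝ) ^ 2 -
      t * (1 - t) * Y ^ 2) - t * (1 - t) * Y ^ 2 = 0 := by ring
    rw [e2, Real.sqrt_zero, add_zero, zero_add]
  -- the generic case
  set a := (P ^ 2 - Z ^ 2 - F ^ 2) / (2 * Z) with ha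
  set c := (Y ^ 2 - Z ^ 2 - E ^ 2) / (2 * Z) with hc
  have hP2 : P ^ 2 = Z ^ 2 + F ^ 2 + 2 * Z * a := by
    rw [ha]
    field_simp
    ring
  have hY2 : Y ^ 2 = Z ^ 2 + E ^ 2 + 2 * Z * c := by
    rw [hc]
    field_simp
    ring
  have ha1 : a ≤ F := by
    rw [ha, div_le_iff₀ (by linarith)]
    nlinarith
  have ha2 : -F ≤ a := by
    rw [ha, le_div_iff₀ (by linarith)]
    nlinarith
  have hc1 : c ≤ E := by
    rw [hc, div_le_iff₀ (by linarith)]
    nlinarith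
  have hc2 : -E ≤ c := by
    rw [hc, le_div_iff₀ (by linarith)]
    nlinarith
  have hab : 0 ≤ F ^ 2 - a ^ 2 := by nlinarith
  have hce : 0 ≤ E ^ 2 - c ^ 2 := by nlinarith
  set b := √(F ^ 2 - a ^ 2) with hb
  set e := √(E ^ 2 - c ^ 2) with he
  have hb0 : 0 ≤ b := Real.sqrt_nonneg _
  have he0 : 0 ≤ e := Real.sqrt_nonneg _
  have hab2 : a ^ 2 + b ^ 2 = F ^ 2 := by rw [hb, Real.sq_sqrt hab]; ring
  have hce2 : c ^ 2 + e ^ 2 = E ^ 2 := by rw [he, Real.sq_sqrt hce]; ring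
  have hS' : 0 ≤ E * a + F * c := by
    rw [hP2, hY2] at hS
    have : 0 ≤ 2 * Z * (E * a + F * c) := by linarith
    exact (mul_nonneg_iff_of_pos_left (by linarith)).1 this
  obtain ⟨f1, f2⟩ := alex_facts hb0 he0 hE0 hF0 hab2 hce2 hS'
  -- reduction of case B
  have caseB : 0 ≤ (1 - t) * a * Z + t * E * F →
      (1 - t) * Z * b ^ 2 ≤ 2 * t * F * (E * a + F * c) → ∃ τ : ℝ, 0 ≤ τ ∧ τ ≤ 1 ∧
      √((1 - τ) * P ^ 2 + τ * F ^ 2 - τ * (1 - τ) * Z ^ 2) +
        √((1 - t) * (τ ^ 2 * Z ^ 2) + t * ((1 - τ) * Y ^ 2 + τ * E ^ 2 - τ * (1 - τ) * Z ^ 2) -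
          t * (1 - t) * Y ^ 2)
      ≤ √((1 - t) * P ^ 2 + t * (E + F) ^ 2 - t * (1 - t) * Y ^ 2) := by
    intro h5 h6
    refine ⟨1, zero_le_one, le_rfl, ?_⟩
    have h7 := alex_B hZ0 hF0 hP2 hY2 hab2 hce2 ht1 h5 h6
    have e1 : (1 - 1) * P ^ 2 + 1 * F ^ 2 - 1 * (1 - 1) * Z ^ 2 = F ^ 2 := by ring
    have e2 : (1 - t) * (1 ^ 2 * Z ^ 2) + t * ((1 - 1) * Y ^ 2 + 1 * E ^ 2 -
      1 * (1 - 1) * Z ^ 2) - t * (1 - t) * Y ^ 2 =
      (1 - t) * Z ^ 2 + t * E ^ 2 - t * (1 - t) * Y ^ 2 := by ring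
    rw [e1, e2]
    exact h7
  by_cases hcr : t * (e * a + b * c) ≤ b * ((1 - t) * Z)
  · rcases (add_nonneg hb0 (mul_nonneg ht0 he0)).eq_or_lt with hN | hN
    · -- `b = 0`, `t e = 0`
      have hbz : b = 0 := by
        have := mul_nonneg ht0 he0
        linarith
      by_cases haff : 0 ≤ (1 - t) * a * Z + t * E * F
      · apply caseB haff
        rw [hbz]
        have := mul_nonneg (mul_nonneg ht0 hF) hS'
        nlinarith
      · push Not at haff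
        have haF : a = -F := by
          rw [hbz] at hab2
          have h5 : (a - F) * (a + F) = 0 := by linear_combination hab2
          rcases mul_eq_zero.1 h5 with h6 | h6
          · exfalso
            have h7 : a = F := by linarith
            rw [h7] at haff
            have h8 : 0 ≤ (1 - t) * F * Z + t * E * F := by
              have := mul_nonneg (mul_nonneg (by linarith : (0 : ℝ) ≤ 1 - t) hF) hZ
              have := mul_nonneg (mul_nonneg ht0 hE) hF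
              linarith
            linarith
          · linarith
        have hcE : c = E := by
          rw [haF] at hS'
          have h5 : 0 ≤ F * (c - E) := by linarith
          have h6 := (mul_nonneg_iff_of_pos_left hF0).1 h5
          linarith
        -- `m = t E - (1 - t) Z < 0`
        have hm : t * E - (1 - t) * Z < 0 := by
          rw [haF] at haff
          by_contra hn
          push Not at hn
          have := mul_nonneg hF hn
          linarith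
        refine ⟨1 + (t * E - (1 - t) * Z) / Z, ?_, ?_, ?_⟩
        · have : 1 + (t * E - (1 - t) * Z) / Z = (t * E + t * Z) / Z := by
            field_simp
            ring
          rw [this]
          positivity
        · have := div_nonpos_of_nonpos_of_nonneg hm.le hZ
          linarith
        · set w := (t * E - (1 - t) * Z) / Z with hw
          have hwZ : w * Z = t * E - (1 - t) * Z := by
            rw [hw]
            field_simp
          rw [haF] at hP2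
          rw [hcE] at hY2
          have e1 : (1 - (1 + w)) * P ^ 2 + (1 + w) * F ^ 2 - (1 + w) * (1 - (1 + w)) * Z ^ 2 =
              (F + w * Z) ^ 2 := by
            rw [hP2]
            ring
          have e2 : (1 - t) * ((1 + w) ^ 2 * Z ^ 2) + t * ((1 - (1 + w)) * Y ^ 2 +
            (1 + w) * E ^ 2 - (1 + w) * (1 - (1 + w)) * Z ^ 2) - t * (1 - t) * Y ^ 2 = 0 := by
            have : (1 - t) * ((1 + w) ^ 2 * Z ^ 2) + t * ((1 - (1 + w)) * Y ^ 2 +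
                (1 + w) * E ^ 2 - (1 + w) * (1 - (1 + w)) * Z ^ 2) - t * (1 - t) * Y ^ 2 =
                (w * Z - (t * E - (1 - t) * Z)) ^ 2 := by
              rw [hY2]
              ring
            rw [this, hwZ]
            ring
          have e3 : (1 - t) * P ^ 2 + t * (E + F) ^ 2 - t * (1 - t) * Y ^ 2 =
              (F + w * Z) ^ 2 := by
            rw [hP2, hY2, hwZ]
            ring
          rw [e1, e2, e3, Real.sqrt_zero, add_zero]
    · exact alex_A hZ0 hE0 hF0 hb0 he0 hP2 hY2 hab2 hce2 ht0 hN f1 hcr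
  · push Not at hcr
    apply caseB
    · by_cases ha0 : 0 ≤ a
      · have h5 := mul_nonneg (mul_nonneg (by linarith : (0 : ℝ) ≤ 1 - t) ha0) hZ
        have h6 := mul_nonneg (mul_nonneg ht0 hE) hF
        linarith
      · push Not at ha0
        have hbpos : 0 < b := by
          rcases hb0.eq_or_lt with h | h
          · exfalso
            rw [← h] at hcr
            have : 0 ≤ t * (e * (-a)) := mul_nonneg ht0 (mul_nonneg he0 (by linarith))
            linarith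
          · exact h
        -- multiply by `b`
        have h5 : 0 ≤ b * ((1 - t) * a * Z + t * E * F) := by
          have h6 : b * ((1 - t) * Z) * (-a) ≤ t * (e * a + b * c) * (-a) :=
            mul_le_mul_of_nonneg_right hcr.le (by linarith)
          have h7 : 0 ≤ t * e * a ^ 2 := mul_nonneg (mul_nonneg ht0 he0) (sq_nonneg a)
          have h8 : (-a) * c ≤ E * F := by
            have h9 : (-a) * c ≤ (-a) * E := mul_le_mul_of_nonneg_left hc1 (by linarith)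
            have h10 : (-a) * E ≤ F * E := mul_le_mul_of_nonneg_right (by linarith) hE
            linarith
          have h11 := mul_le_mul_of_nonneg_left h8 (mul_nonneg ht0 hb0)
          linarith
        exact (mul_nonneg_iff_of_pos_left hbpos).1 h5
    · have h5 : b * (b * ((1 - t) * Z)) ≤ b * (t * (e * a + b * c)) :=
        mul_le_mul_of_nonneg_left hcr.le hb0
      have h6 := mul_le_mul_of_nonneg_left f2 ht0
      linarith

end CZH
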