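import Pool.Agent.CZH.Geo

/-!
# CZH/Semi: elements of a geometric action are semisimple

## Proof (Bridson-Haefliger II.6.10)
Let `K` be compact with `G K = X`, `o ∈ X`, `m = inf_x dist x (g • x)`.  For `n : ℕ` choose `x_n` with
`dist x_n (g • x_n) < m + 1/(n+1)`, `γ_n ∈ G` with `γ_n • x_n = k_n ∈ K` and `g_n = γ_n g γ_n⁻¹`:
`dist k_n (g_n • k_n) < m + 1/(n+1)`.  So `dist o (g_n • o) ≤ 2 dist o k_n + m + 1` is bounded and `g_n` takes
finitely many values (`finite_disp`): one value `g' = γ g γ⁻¹` (`γ = γ_{n₀}`) occurs for infinitely many `n`.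
The continuous function `x ↦ dist x (g' • x)` attains its minimum `m'` on `K` at `y`; `m' ≤ m + 1/(n+1)` for
infinitely many `n`, so `m' ≤ m`.  `x = γ⁻¹ • y` : `dist x (g • x) = dist y (g' • y) ≤ m`.
-/

namespace CZH

universe u

open Set

variable {G X : Type u} [Group G] [MetricSpace X] [MulAction G X]

theorem IsGeometric.exists_min [ProperSpace X] [Nonempty X] (hG : IsGeometric G X) (g : G) :
    ∃ x : X, ∀ y : X, dist x (g • x) ≤ dist y (g • y) := by
  obtain ⟨K, hK, hcov⟩ := hG.cocompact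
  obtain ⟨x0⟩ := ‹Nonempty X›
  obtain ⟨γ0, k0, hk0, hx0⟩ := hcov x0
  set c := dist x0 (g • x0) with hc
  have hconj : ∀ (γ : G) (k : X), dist (γ • k) (g • γ • k) = dist k ((γ⁻¹ * g * γ) • k) := by
    intro γ k
    rw [← hG.isom γ⁻¹ (γ • k), inv_smul_smul, mul_smul, mul_smul]
  set S : Set G := {g' | ∃ γ : G, g' = γ⁻¹ * g * γ ∧ ∃ k ∈ K, dist k (g' • k) ≤ c} with hS
  have hSfin : S.Finite := by
    obtain ⟨R, hR⟩ := (Metric.isBounded_iff_subset_closedBall x0).mp hK.isBounded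
    refine (hG.finite_disp x0 (R + c + R)).subset ?_
    rintro g' ⟨γ, -, k, hk, hkc⟩
    have h1 : dist k x0 ≤ R := hR hk
    have h2 := dist_triangle4 (g' • x0) (g' • k) k x0
    rw [hG.isom, dist_comm x0 k, dist_comm (g' • k) k] at h2
    show dist (g' • x0) x0 ≤ R + c + R
    linarith
  have hmin : ∀ g' : G, ∃ y ∈ K, ∀ k ∈ K, dist y (g' • y) ≤ dist k (g' • k) := by
    intro g'
    have hcont : Continuous fun x : X => dist x (g' • x) :=
      continuous_id.dist (Isometry.of_dist_eq (hG.isom g')).continuous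
    obtain ⟨y, hy, hmin⟩ := hK.exists_isMinOn ⟨k0, hk0⟩ hcont.continuousOn
    exact ⟨y, hy, fun k hk => hmin hk⟩
  choose y hyK hy using hmin
  have hS0 : γ0⁻¹ * g * γ0 ∈ S := by
    refine ⟨γ0, rfl, k0, hk0, ?_⟩
    rw [← hconj, hx0]
  obtain ⟨g', ⟨γ, hγ, -⟩, hg'⟩ := Set.exists_min_image S (fun g' => dist (y g') (g' • y g'))
    hSfin ⟨_, hS0⟩
  refine ⟨γ • y g', fun x => ?_⟩
  rw [hconj, ← hγ]
  rcases le_or_gt (dist x (g • x)) c with h | h
  · obtain ⟨γ1, k1, hk1, hx1⟩ := hcov x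
    have h1 : dist x (g • x) = dist k1 ((γ1⁻¹ * g * γ1) • k1) := by rw [← hconj, hx1]
    have h2 : γ1⁻¹ * g * γ1 ∈ S := ⟨γ1, rfl, k1, hk1, by rw [← h1]; exact h⟩
    rw [h1]
    exact (hg' _ h2).trans (hy _ k1 hk1)
  · refine ((hg' _ hS0).trans (hy _ k0 hk0)).trans ?_
    rw [← hconj, hx0]
    exact h.le

end CZH
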