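import Pool.Agent.CZH.FamB
import Pool.Agent.CZH.Const

/-!
# CZH/Step: the inductive step (assembly)
-/

namespace CZH

universe u

open Set Pointwise MulAction

variable {G X H V : Type u} [Group G] [MetricSpace X] [MulAction G X] [Group H] [MulAction H V]

theorem LL_step [ProperSpace X] (hX : C0 (dst X) univ)
    (hG : ∀ (g : G) (x y : X), dist (g • x) (g • y) = dist x y) (φ : H →* G) (o : X)
    (hfin : ∀ r : ℝ, {h : H | dist (φ h • o) o ≤ r}.Finite) (T : SimpleGraph V) (hT : T.IsTree)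
    (adj : ∀ (h : H) (a b : V), T.Adj a b → T.Adj (h • a) (h • b))
    (hV : ∃ F₀ : Set V, F₀.Finite ∧ ∀ v, ∃ h : H, ∃ w ∈ F₀, h • w = v)
    (hE : ∃ E₀ : Set (V × V), E₀.Finite ∧ ∀ a b, T.Adj a b →
      ∃ h : H, ∃ e ∈ E₀, h • e.1 = a ∧ h • e.2 = b)
    (hA : ∀ a b, T.Adj a b →
      ∃ A : Set X, CC (φ.comp (stabilizer H ({a, b} : Set V)).subtype) A)
    (hLL : ∀ v : V, LL (φ.comp (stabilizer H v).subtype) o) : LL φ o := by
  intro r
  obtain ⟨E₀, hE₀, hE₀'⟩ := hE
  obtain ⟨F₀, hF₀, hF₀'⟩ := hV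
  obtain ⟨v₀⟩ : Nonempty V := hT.connected.nonempty
  obtain ⟨A, Asymm, Aeq, Acc⟩ := exists_edgeSets T adj hG hA
  obtain ⟨ρ, hρ, hpath⟩ := exists_rho φ T hT.connected A (fun a b h => (Acc a b h).ne) o r v₀
    (hfin (2 * r))
  -- orbit representatives
  let R : Type u := orbitRel.Quotient H V
  let rep : R → V := Quotient.out
  let iv : V → R := fun v => Quotient.mk'' v
  have hout : ∀ v : V, ∃ h : H, h • rep (iv v) = v := by
    intro v
    have h1 : (orbitRel H V).r v (rep (iv v)) := by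
      have := Quotient.mk_out (s := orbitRel H V) v
      exact (orbitRel H V).symm this
    exact h1
  choose hv hvr using hout
  have ivr : ∀ (h : H) (i : R), iv (h • rep i) = i := by
    intro h i
    have h1 : iv (h • rep i) = iv (rep i) := by
      apply Quotient.sound
      exact ⟨h, rfl⟩
    rw [h1]
    exact Quotient.out_eq i
  have hRfin : Finite R := by
    have : Finite F₀ := hF₀
    refine Finite.of_surjective (fun w : F₀ => iv (w : V)) ?_
    intro i
    obtain ⟨h, w, hw, e⟩ := hF₀' (rep i)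
    refine ⟨⟨w, hw⟩, ?_⟩
    have h1 : iv (h • w) = iv w := Quotient.sound ⟨h, rfl⟩
    have h2 : iv (rep i) = i := Quotient.out_eq i
    show iv w = i
    rw [← h1, e, h2]
  have Ueq : ∀ (h : H) (a b : V) (x : X), T.Adj a b → x ∈ Nb ρ (A a b) →
      φ h • x ∈ Nb ρ (A (h • a) (h • b)) := by
    rintro h a b x hab ⟨y, hy, hxy⟩
    exact ⟨φ h • y, Aeq h a b y hab hy, by rw [hG]; exact hxy⟩
  obtain ⟨r₀, hr₀⟩ := exists_rad φ T adj hG o (fun a b => Nb ρ (A a b)) Ueq
    (fun a b hab => exists_near hG (Acc a b hab) o ρ) R rep E₀ hE₀ hE₀'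
  set r' : ℝ := max r₀ (r + dist (φ (hv v₀)⁻¹ • o) o) with hr'
  choose Z ms ma D s mdl using fun i : R => hLL (rep i) r'
  let F : Fam φ o V :=
    { T := T
      tree := hT
      adj := adj
      R := R
      rep := rep
      iv := iv
      hv := hv
      hvr := hvr
      ivr := ivr
      Z := Z
      ms := ms
      ma := ma
      D := D
      s := s
      r' := r'
      mdl := mdl
      U := fun a b => Nb ρ (A a b)
      Usymm := fun a b => by rw [Asymm]
      Une := fun a b hab => ((Acc a b hab).nb hX hG hρ).ne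
      Ucl := fun a b hab => ((Acc a b hab).nb hX hG hρ).closed
      Ucvx := fun a b hab => ((Acc a b hab).nb hX hG hρ).cvx
      Ueq := Ueq
      near := hr₀ r' (le_max_left _ _) }
  have : Finite F.R := hRfin
  exact F.exists_mdl hX hG r v₀ (le_max_right _ _) hpath

end CZH
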