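import Pool.Agent.CZH.Defs

/-!
# CZH/SubT: a cocompact invariant subtree for a finitely generated group

`Chain T K a b`: `a` and `b` are joined by a chain of adjacent vertices inside `K`.

## Proofs
`exists_finite_conn`: for finite `F` in a connected graph there is a finite `K ⊇ F` all of whose points are joined
inside `K`: fix `v ∈ F` (if `F` is empty `K = ∅`), `K` = union of the supports of walks from `v` to the points of
`F`; a point of the support of a walk `v → w` is joined to `v` inside the support.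
`exists_subtree`: let `S` be a finite generating set of `H`, `v₀ : V` (`V` is nonempty), `K` finite and connected
containing `v₀` and all `s • v₀`, `s ∈ S` (`exists_finite_conn`).  `V' = {v | ∃ h, ∃ k ∈ K, h • k = v}` (subtype),
`H` acts on it.  `T'.Adj a b` iff `∃ h, ∃ k l ∈ K, T.Adj k l ∧ h • k = a ∧ h • l = b`; symmetric, loopless.
`T'` is acyclic because `ι = Subtype.val` is an injective homomorphism to `T` (a cycle maps to a cycle,
`SimpleGraph.Walk.IsCycle.map`, or `SimpleGraph.IsAcyclic.comap`).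
Connected: `v₀` is joined to `h • v₀` for all `h`: the set of such `h` is a subgroup (translate the chain by `h`:
`T'.Adj` is invariant) containing `S` (chain inside `K` from `v₀` to `s • v₀`), so it is everything; every vertex
`h • k` is joined to `h • v₀` by the translate of a chain inside `K`.
`E = {(k, l) | k, l ∈ K}` and `F = K` (as subsets of `V'`, `h = 1`) are finite.
-/

namespace CZH

universe u

open Set MulAction

/-- `a` and `b` are joined inside `K` -/
def Chain {V : Type u} (T : SimpleGraph V) (K : Set V) (a b : V) : Prop :=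
  Relation.ReflTransGen (fun x y => T.Adj x y ∧ x ∈ K ∧ y ∈ K) a b

namespace SubTX

variable {V : Type u} {T : SimpleGraph V} {K : Set V}

theorem chain_of_walk {a b : V} (q : T.Walk a b) (h : ∀ x ∈ q.support, x ∈ K) :
    Chain T K a b := by
  induction q with
  | nil => exact Relation.ReflTransGen.refl
  | cons hadj q ih =>
    have h1 : Chain T K _ _ := ih (fun x hx => h x (by
      rw [SimpleGraph.Walk.support_cons]
      exact List.mem_cons_of_mem _ hx))
    refine Relation.ReflTransGen.head ⟨hadj, ?_, ?_⟩ h1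
    · exact h _ (SimpleGraph.Walk.start_mem_support _)
    · apply h
      rw [SimpleGraph.Walk.support_cons]
      exact List.mem_cons_of_mem _ (SimpleGraph.Walk.start_mem_support _)

end SubTX

open SubTX

theorem exists_finite_conn {V : Type u} (T : SimpleGraph V) (hT : T.Connected) (F : Set V)
    (hF : F.Finite) : ∃ K : Set V, K.Finite ∧ F ⊆ K ∧ ∀ a ∈ K, ∀ b ∈ K, Chain T K a b := by
  classical
  rcases F.eq_empty_or_nonempty with h0 | ⟨v, hv⟩
  · subst h0
    exact ⟨∅, finite_empty, Subset.rfl, fun a ha => absurd ha (notMem_empty a)⟩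
  · have hw : ∀ w : V, Nonempty (T.Walk v w) := fun w => hT.preconnected v w
    let p : ∀ w, T.Walk v w := fun w => (hw w).some
    let K : Set V := ⋃ w ∈ F, {x | x ∈ (p w).support}
    have hmem : ∀ w ∈ F, ∀ x ∈ (p w).support, x ∈ K := by
      intro w hw x hx
      exact mem_biUnion hw hx
    have hwalk : ∀ a ∈ K, ∃ q : T.Walk v a, ∀ x ∈ q.support, x ∈ K := by
      intro a ha
      obtain ⟨w, hw, ha'⟩ := mem_iUnion₂.1 ha
      refine ⟨(p w).takeUntil a ha', fun x hx => hmem w hw x ?_⟩
      exact SimpleGraph.Walk.support_takeUntil_subset_support _ _ hx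
    refine ⟨K, ?_, ?_, ?_⟩
    · exact hF.biUnion (fun w _ => (p w).support.finite_toSet)
    · intro w hw
      exact hmem w hw w (SimpleGraph.Walk.end_mem_support _)
    · intro a ha b hb
      obtain ⟨q, hq⟩ := hwalk a ha
      obtain ⟨r, hr⟩ := hwalk b hb
      have h1 : Chain T K a v := chain_of_walk q.reverse (fun x hx => hq x (by
        rw [SimpleGraph.Walk.support_reverse] at hx
        exact List.mem_reverse.1 hx))
      exact h1.trans (chain_of_walk r hr)

namespace SubTX

variable {H V : Type u} [Group H] [MulAction H V]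

/-- The vertices of the subtree. -/
def VV (H : Type u) {V : Type u} [Group H] [MulAction H V] (K : Set V) : Type u :=
  {v : V // ∃ h : H, ∃ k ∈ K, h • k = v}

instance (K : Set V) : MulAction H (VV H K) where
  smul h v := ⟨h • v.1, by
    obtain ⟨g, k, hk, e⟩ := v.2
    exact ⟨h * g, k, hk, by rw [mul_smul, e]⟩⟩
  one_smul v := Subtype.ext (one_smul H v.1)
  mul_smul g h v := Subtype.ext (mul_smul g h v.1)

theorem smul_val (K : Set V) (h : H) (v : VV H K) : (h • v).1 = h • v.1 := rfl

/-- The subtree. -/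
def TT (H : Type u) {V : Type u} [Group H] [MulAction H V] (T : SimpleGraph V) (K : Set V) :
    SimpleGraph (VV H K) where
  Adj a b := ∃ h : H, ∃ k ∈ K, ∃ l ∈ K, T.Adj k l ∧ h • k = a.1 ∧ h • l = b.1
  symm := ⟨by
    rintro a b ⟨h, k, hk, l, hl, hadj, e1, e2⟩
    exact ⟨h, l, hl, k, hk, hadj.symm, e2, e1⟩⟩
  loopless := ⟨by
    rintro a ⟨h, k, hk, l, hl, hadj, e1, e2⟩
    apply hadj.ne
    have : h • k = h • l := by rw [e1, e2]
    exact MulAction.injective h this⟩

theorem TT_adj {T : SimpleGraph V} {K : Set V} (g : H) {a b : VV H K} (h : (TT H T K).Adj a b) :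
    (TT H T K).Adj (g • a) (g • b) := by
  obtain ⟨h, k, hk, l, hl, hadj, e1, e2⟩ := h
  exact ⟨g * h, k, hk, l, hl, hadj, by rw [mul_smul, e1]; rfl, by rw [mul_smul, e2]; rfl⟩

theorem TT_reach {T : SimpleGraph V} {K : Set V} (g : H) {a b : VV H K}
    (h : (TT H T K).Reachable a b) : (TT H T K).Reachable (g • a) (g • b) := by
  let f : (TT H T K) →g (TT H T K) := ⟨fun v => g • v, fun h => TT_adj g h⟩
  exact h.map f

/-- The vertex `h • k`. -/
def mk {K : Set V} (h : H) (k : V) (hk : k ∈ K) : VV H K := ⟨h • k, h, k, hk, rfl⟩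

theorem chain_reach {T : SimpleGraph V} {K : Set V} (h : H) {k l : V} (hk : k ∈ K)
    (hc : Chain T K k l) : ∀ hl : l ∈ K, (TT H T K).Reachable (mk h k hk) (mk h l hl) := by
  induction hc with
  | refl => intro hl; exact SimpleGraph.Reachable.refl _
  | tail _ hs ih =>
    intro hl
    refine (ih hs.2.1).trans (SimpleGraph.Adj.reachable ?_)
    exact ⟨h, _, hs.2.1, _, hl, hs.1, rfl, rfl⟩

end SubTX

theorem exists_subtree {H V : Type u} [Group H] [MulAction H V] (hfg : Group.FG H)
    (T : SimpleGraph V) (hT : T.IsTree)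
    (adj : ∀ (h : H) (a b : V), T.Adj a b → T.Adj (h • a) (h • b)) :
    ∃ (V' : Type u) (_ : MulAction H V') (T' : SimpleGraph V') (ι : V' → V),
      Function.Injective ι ∧ (∀ (h : H) (v : V'), ι (h • v) = h • ι v) ∧ T'.IsTree ∧
      (∀ (h : H) (a b : V'), T'.Adj a b → T'.Adj (h • a) (h • b)) ∧
      (∀ a b : V', T'.Adj a b → T.Adj (ι a) (ι b)) ∧
      (∃ F : Set V', F.Finite ∧ ∀ v, ∃ h : H, ∃ w ∈ F, h • w = v) ∧
      ∃ E : Set (V' × V'), E.Finite ∧ ∀ a b, T'.Adj a b →
        ∃ h : H, ∃ e ∈ E, h • e.1 = a ∧ h • e.2 = b := by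
  obtain ⟨S, hS, hSf⟩ := Group.fg_iff.1 hfg
  obtain ⟨v₀⟩ := hT.connected.nonempty
  obtain ⟨K, hKf, hFK, hK⟩ := exists_finite_conn T hT.connected
    (insert v₀ ((fun s : H => s • v₀) '' S)) ((hSf.image _).insert _)
  have hv₀ : v₀ ∈ K := hFK (mem_insert _ _)
  have hsub : ∀ a b : VV H K, (TT H T K).Adj a b → T.Adj a.1 b.1 := by
    rintro a b ⟨h, k, hk, l, hl, hadj, e1, e2⟩
    rw [← e1, ← e2]
    exact adj h k l hadj
  -- the orbit of `v₀`
  let P : Subgroup H :=
    { carrier := {h | (TT H T K).Reachable (mk 1 v₀ hv₀) (mk h v₀ hv₀)}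
      one_mem' := SimpleGraph.Reachable.refl _
      mul_mem' := by
        intro g h hg hh
        refine SimpleGraph.Reachable.trans hg ?_
        have h1 := TT_reach g hh
        have e1 : g • (mk 1 v₀ hv₀ : VV H K) = mk g v₀ hv₀ :=
          Subtype.ext (by change g • (1 : H) • v₀ = g • v₀; rw [one_smul])
        have e2 : g • (mk h v₀ hv₀ : VV H K) = mk (g * h) v₀ hv₀ :=
          Subtype.ext (by change g • h • v₀ = (g * h) • v₀; rw [mul_smul])
        rwa [e1, e2] at h1
      inv_mem' := by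
        intro h hh
        have h1 := TT_reach h⁻¹ hh
        have e1 : h⁻¹ • (mk 1 v₀ hv₀ : VV H K) = mk h⁻¹ v₀ hv₀ :=
          Subtype.ext (by change h⁻¹ • (1 : H) • v₀ = h⁻¹ • v₀; rw [one_smul])
        have e2 : h⁻¹ • (mk h v₀ hv₀ : VV H K) = mk 1 v₀ hv₀ :=
          Subtype.ext (by change h⁻¹ • h • v₀ = (1 : H) • v₀; rw [inv_smul_smul, one_smul])
        rw [e1, e2] at h1
        exact h1.symm }
  have hP : P = ⊤ := by
    rw [← hS, eq_comm]
    apply le_antisymm
    · rw [Subgroup.closure_le]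
      intro s hs
      have hsK : s • v₀ ∈ K := hFK (mem_insert_of_mem _ ⟨s, hs, rfl⟩)
      have h1 := chain_reach (T := T) (1 : H) hv₀ (hK v₀ hv₀ _ hsK) hsK
      have e1 : (mk (1 : H) (s • v₀) hsK : VV H K) = mk s v₀ hv₀ :=
        Subtype.ext (by change (1 : H) • s • v₀ = s • v₀; rw [one_smul])
      rw [e1] at h1
      exact h1
    · rw [hS]
      exact le_top
  have hreach : ∀ v : VV H K, (TT H T K).Reachable (mk 1 v₀ hv₀) v := by
    rintro ⟨v, h, k, hk, rfl⟩
    have h1 : h ∈ P := by rw [hP]; exact Subgroup.mem_top _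
    exact SimpleGraph.Reachable.trans h1 (chain_reach (T := T) h hv₀ (hK v₀ hv₀ k hk) hk)
  refine ⟨VV H K, inferInstance, TT H T K, Subtype.val, Subtype.val_injective, fun _ _ => rfl,
    ⟨?_, ?_⟩, fun h a b hab => TT_adj h hab, hsub, ⟨{v | v.1 ∈ K}, ?_, ?_⟩,
    ⟨{e | e.1.1 ∈ K ∧ e.2.1 ∈ K}, ?_, ?_⟩⟩
  · rw [SimpleGraph.connected_iff_exists_forall_reachable]
    exact ⟨_, hreach⟩
  · let f : (TT H T K) →g T := ⟨Subtype.val, fun {a b} h => hsub a b h⟩
    exact hT.isAcyclic.comap f Subtype.val_injective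
  · exact hKf.preimage Subtype.val_injective.injOn
  · rintro ⟨v, h, k, hk, rfl⟩
    exact ⟨h, ⟨k, 1, k, hk, one_smul _ _⟩, hk, Subtype.ext rfl⟩
  · have h1 : ({v : VV H K | v.1 ∈ K} : Set (VV H K)).Finite :=
      hKf.preimage Subtype.val_injective.injOn
    refine (h1.prod h1).subset ?_
    intro e he
    exact ⟨he.1, he.2⟩
  · rintro ⟨a, ha⟩ ⟨b, hb⟩ ⟨h, k, hk, l, hl, hadj, e1, e2⟩
    refine ⟨h, (⟨k, 1, k, hk, one_smul _ _⟩, ⟨l, 1, l, hl, one_smul _ _⟩), ⟨hk, hl⟩, ?_, ?_⟩
    · exact Subtype.ext e1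
    · exact Subtype.ext e2

end CZH
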