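import Pool.Agent.CZH.Defs

/-!
# CZH/TSDefs: trees of spaces (definitions only)

`V` vertices of the tree `T`, `W` the disjoint union of the vertex spaces (`π : W → V` the
projection, `δ` the distance inside the fibres), `X` the ambient space.  For every edge `a b` the
subset `U a b ⊆ X` is glued into both vertex spaces by the sections `s a`, `s b`.
`dd w w'` is the distance in the glued space: the infimum over the tree path.
-/

namespace CZH

universe u

open Set

structure TS (V W X : Type u) [MetricSpace X] where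
  T : SimpleGraph V
  tree : T.IsTree
  π : W → V
  δ : W → W → ℝ
  s : V → X → W
  D : W → X
  U : V → V → Set X
  πs : ∀ v x, π (s v x) = v
  fib : ∀ v, C0 δ {w | π w = v}
  Usymm : ∀ a b, U a b = U b a
  Une : ∀ a b, T.Adj a b → (U a b).Nonempty
  Ucl : ∀ a b, T.Adj a b → IsClosed (U a b)
  Ucv : ∀ a b, T.Adj a b → ∀ x ∈ U a b, ∀ y ∈ U a b, ∀ t : ℝ, 0 ≤ t → t ≤ 1 →
    ∃ m ∈ U a b, Btw (dst X) x m y t
  iso : ∀ a b, T.Adj a b → ∀ x ∈ U a b, ∀ y ∈ U a b, δ (s a x) (s a y) = dist x y
  Dlip : ∀ w w', π w = π w' → dist (D w) (D w') ≤ δ w w'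
  Ds : ∀ a b, T.Adj a b → ∀ x ∈ U a b, D (s a x) = x

namespace TS

variable {V W X : Type u} [MetricSpace X] (S : TS V W X)

/-- Distance along a walk, starting with the function `g` on the last vertex space. -/
noncomputable def val (g : W → ℝ) : ∀ {b a : V}, S.T.Walk b a → W → ℝ
  | _, _, .nil, w' => g w'
  | b, _, .cons (v := c) _ p, w' => ⨅ x : S.U b c, (val g p (S.s c x) + S.δ (S.s b x) w')

/-- the path from `b` to `a` in the tree -/
noncomputable def path (b a : V) : S.T.Walk b a := (S.tree.existsUnique_path b a).choose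

theorem path_isPath (b a : V) : (S.path b a).IsPath :=
  (S.tree.existsUnique_path b a).choose_spec.1

theorem path_unique {b a : V} (p : S.T.Walk b a) (hp : p.IsPath) : p = S.path b a :=
  (S.tree.existsUnique_path b a).choose_spec.2 p hp

/-- the distance of the glued space -/
noncomputable def dd (w w' : W) : ℝ := S.val (S.δ w) (S.path (S.π w') (S.π w)) w'

/-- admissible functions: `1`-Lipschitz on the fibres and compatible with the gluing -/
structure Adm (f : W → ℝ) : Prop where
  lip : ∀ w w', S.π w = S.π w' → f w - f w' ≤ S.δ w w'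
  glue : ∀ a b, S.T.Adj a b → ∀ x ∈ S.U a b, f (S.s a x) = f (S.s b x)

end TS

/-- The group `H` acts on the tree of spaces `S` (over its action through `φ` on `X`). -/
structure TSA {G H V W X : Type u} [Group G] [Group H] [MetricSpace X] [MulAction G X]
    [MulAction H V] [MulAction H W] (φ : H →* G) (S : TS V W X) : Prop where
  adj : ∀ (h : H) (a b : V), S.T.Adj a b → S.T.Adj (h • a) (h • b)
  πe : ∀ (h : H) (w : W), S.π (h • w) = h • S.π w
  δe : ∀ (h : H) (w w' : W), S.π w = S.π w' → S.δ (h • w) (h • w') = S.δ w w'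
  De : ∀ (h : H) (w : W), S.D (h • w) = φ h • S.D w
  Ue : ∀ (h : H) (a b : V) (x : X), S.T.Adj a b → x ∈ S.U a b → φ h • x ∈ S.U (h • a) (h • b)
  se : ∀ (h : H) (a b : V) (x : X), S.T.Adj a b → x ∈ S.U a b →
    S.δ (h • S.s a x) (S.s (h • a) (φ h • x)) = 0

end CZH
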