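import Pool.Agent.CZH.TSDefs

/-!
# CZH/TotA: the distance `dd` of a tree of spaces, dual characterisation

All statements are for `S : TS V W X` (see `CZH/TSDefs`).

## Proofs
`val_nonneg`, `val_lip`: induction on the walk.  `nil`: `g`.  `cons`: each function
`w' ↦ val g p (s c x) + δ (s b x) w'` is `≥ 0` and `1`-Lipschitz on the fibre over `b`
(`π (s b x) = b = π w'`, triangle inequality of `fib b`), and so is the infimum (`ciInf_le` with
`BddBelow` from `val_nonneg`, `le_ciInf`; `U b c` is nonempty by `Une`).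
`dd_univ`: show `f w' - f w ≤ val (δ w) p w'` for every walk `p : S.T.Walk b (π w)` and `w'` with `π w' = b`,
by induction on `p` generalizing the end (`a = π w`): `nil`: `Adm.lip`; `cons`: for `x ∈ U b c`:
`f w' ≤ f (s b x) + δ (s b x) w'`, `f (s b x) = f (s c x)` and the induction hypothesis for `s c x`.
`dd_eq`: `subst`.
`adm_dd`: `lip` from `val_lip`.  `glue`: `a ~ b`, root `r = π w`.  If `a ∉ (path b r).support` then
`cons h (path b r)` is a path so it is `path a r`, and `dd w (s a x) = val (cons ..) (s a x)`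
`= ⨅ y, dd w (s b y) + δ (s a y) (s a x)`: `≤` by taking `y = x`; `≥` because
`δ (s a y) (s a x) = dist y x = δ (s b y) (s b x) ≥ dd w (s b x) - dd w (s b y)`.  If `a ∈ (path b r).support`
then `b ∉ (path a r).support` (tree: `(path b r).takeUntil a` has to be the single edge, so
`path b r = cons (path a r)` with `b ∉ support`), and we exchange `a` and `b` (`Usymm`).
-/

namespace CZH

universe u

open Set

namespace TS

variable {V W X : Type u} [MetricSpace X] (S : TS V W X)

theorem val_nonneg (g : W → ℝ) {b a : V} (hg : ∀ w, S.π w = a → 0 ≤ g w) (p : S.T.Walk b a)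
    (w' : W) (hw : S.π w' = b) : 0 ≤ S.val g p w' := by
  induction p generalizing w' with
  | nil => exact hg w' hw
  | @cons b c a h p ih =>
    have : Nonempty (S.U b c) := (S.Une b c h).to_subtype
    show 0 ≤ ⨅ x : S.U b c, (S.val g p (S.s c x) + S.δ (S.s b x) w')
    refine le_ciInf fun x => add_nonneg (ih hg _ (S.πs c x)) ?_
    exact (S.fib b).nn _ (S.πs b x) _ hw

theorem val_bdd (g : W → ℝ) {a b c : V} (hg : ∀ w, S.π w = a → 0 ≤ g w) (p : S.T.Walk c a)
    (w' : W) (hw : S.π w' = b) :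
    BddBelow (range fun x : S.U b c => S.val g p (S.s c x) + S.δ (S.s b x) w') := by
  refine ⟨0, ?_⟩
  rintro _ ⟨x, rfl⟩
  exact add_nonneg (S.val_nonneg g hg p _ (S.πs c x)) ((S.fib b).nn _ (S.πs b x) _ hw)

theorem val_lip (g : W → ℝ) {b a : V} (hg : ∀ w, S.π w = a → 0 ≤ g w)
    (hl : ∀ w₁ w₂, S.π w₁ = a → S.π w₂ = a → g w₁ - g w₂ ≤ S.δ w₁ w₂)
    (p : S.T.Walk b a) (w₁ w₂ : W) (h1 : S.π w₁ = b) (h2 : S.π w₂ = b) :
    S.val g p w₁ - S.val g p w₂ ≤ S.δ w₁ w₂ := by
  cases p with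
  | nil => exact hl w₁ w₂ h1 h2
  | @cons _ c _ h p =>
    have : Nonempty (S.U b c) := (S.Une b c h).to_subtype
    show (⨅ x : S.U b c, (S.val g p (S.s c x) + S.δ (S.s b x) w₁)) -
      (⨅ x : S.U b c, (S.val g p (S.s c x) + S.δ (S.s b x) w₂)) ≤ S.δ w₁ w₂
    rw [sub_le_iff_le_add, add_comm, ← sub_le_iff_le_add]
    refine le_ciInf fun x => ?_
    have h3 := ciInf_le (S.val_bdd g hg p w₁ h1) x
    have h4 := (S.fib b).tri _ (S.πs b x) _ h2 _ h1
    have h5 := (S.fib b).comm _ h1 _ h2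
    linarith

theorem dd_eq (w w' : W) (b : V) (hb : S.π w' = b) :
    S.dd w w' = S.val (S.δ w) (S.path b (S.π w)) w' := by
  subst hb; rfl

theorem dd_univ_aux {f : W → ℝ} (hf : S.Adm f) (w : W) {b a : V} (ha : S.π w = a)
    (p : S.T.Walk b a) (w' : W) (hw : S.π w' = b) : f w' - f w ≤ S.val (S.δ w) p w' := by
  induction p generalizing w' with
  | @nil a =>
    show f w' - f w ≤ S.δ w w'
    have := hf.lip w' w (hw.trans ha.symm)
    rwa [(S.fib a).comm _ hw _ ha] at this
  | @cons b c a h p ih =>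
    have : Nonempty (S.U b c) := (S.Une b c h).to_subtype
    show f w' - f w ≤ ⨅ x : S.U b c, (S.val (S.δ w) p (S.s c x) + S.δ (S.s b x) w')
    refine le_ciInf fun x => ?_
    have h1 := ih ha (S.s c x) (S.πs c x)
    have h2 := hf.lip w' (S.s b x) (hw.trans (S.πs b x).symm)
    rw [(S.fib b).comm _ hw _ (S.πs b x)] at h2
    have h3 := hf.glue b c h x x.2
    linarith

theorem dd_univ {f : W → ℝ} (hf : S.Adm f) (w w' : W) : f w' - f w ≤ S.dd w w' :=
  S.dd_univ_aux hf w rfl _ w' rfl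

/-- in a tree, one of the two paths from the ends of an edge goes through the edge -/
theorem path_cons (a b r : V) (h : S.T.Adj a b) :
    S.path a r = .cons h (S.path b r) ∨ S.path b r = .cons h.symm (S.path a r) := by
  classical
  by_cases ha : a ∈ (S.path b r).support
  · right
    have hp := S.path_isPath b r
    -- the initial part is the edge
    have h1 : (S.path b r).takeUntil a ha = .cons h.symm .nil := by
      have e1 := S.path_unique _ (hp.takeUntil ha)
      have e2 : (SimpleGraph.Walk.cons h.symm .nil : S.T.Walk b a).IsPath := by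
        rw [SimpleGraph.Walk.cons_isPath_iff]
        refine ⟨SimpleGraph.Walk.IsPath.nil, ?_⟩
        simp only [SimpleGraph.Walk.support_nil, List.mem_singleton]
        exact h.ne'
      rw [e1, S.path_unique _ e2]
    have h2 : (S.path b r).dropUntil a ha = S.path a r := S.path_unique _ (hp.dropUntil ha)
    have h3 := (S.path b r).take_spec ha
    rw [h1, h2] at h3
    rw [← h3]
    rfl
  · left
    symm
    apply S.path_unique
    rw [SimpleGraph.Walk.cons_isPath_iff]
    exact ⟨S.path_isPath b r, ha⟩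

theorem glue_aux (w : W) (a b : V) (h : S.T.Adj a b)
    (hp : S.path a (S.π w) = .cons h (S.path b (S.π w))) (x : X) (hx : x ∈ S.U a b) :
    S.dd w (S.s a x) = S.dd w (S.s b x) := by
  have hg : ∀ w₁, S.π w₁ = S.π w → 0 ≤ S.δ w w₁ := fun w₁ hw₁ => (S.fib (S.π w)).nn _ rfl _ hw₁
  have hl : ∀ w₁ w₂, S.π w₁ = S.π w → S.π w₂ = S.π w → S.δ w w₁ - S.δ w w₂ ≤ S.δ w₁ w₂ := by
    intro w₁ w₂ h1 h2
    have h3 := (S.fib (S.π w)).tri w rfl w₂ h2 w₁ h1
    have h4 := (S.fib (S.π w)).comm w₁ h1 w₂ h2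
    linarith
  rw [S.dd_eq w (S.s a x) a (S.πs a x), S.dd_eq w (S.s b x) b (S.πs b x), hp]
  have : Nonempty (S.U a b) := (S.Une a b h).to_subtype
  show (⨅ y : S.U a b, (S.val (S.δ w) (S.path b (S.π w)) (S.s b y) + S.δ (S.s a y) (S.s a x))) = _
  apply le_antisymm
  · have h1 := ciInf_le (S.val_bdd (S.δ w) hg (S.path b (S.π w)) (S.s a x) (S.πs a x))
      (⟨x, hx⟩ : S.U a b)
    have h2 : S.δ (S.s a x) (S.s a x) = 0 := (S.fib a).self _ (S.πs a x)
    simp only at h1
    rw [h2, add_zero] at h1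
    exact h1
  · refine le_ciInf fun y => ?_
    have h1 := S.iso a b h y y.2 x hx
    have h2 := S.iso b a h.symm y (by rw [S.Usymm]; exact y.2) x (by rw [S.Usymm]; exact hx)
    have h3 := S.val_lip (S.δ w) hg hl (S.path b (S.π w)) (S.s b x) (S.s b y) (S.πs b x) (S.πs b y)
    have h4 := (S.fib b).comm _ (S.πs b x) _ (S.πs b y)
    linarith

theorem adm_dd (w : W) : S.Adm (S.dd w) := by
  have hg : ∀ w₁, S.π w₁ = S.π w → 0 ≤ S.δ w w₁ := fun w₁ hw₁ => (S.fib (S.π w)).nn _ rfl _ hw₁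
  have hl : ∀ w₁ w₂, S.π w₁ = S.π w → S.π w₂ = S.π w → S.δ w w₁ - S.δ w w₂ ≤ S.δ w₁ w₂ := by
    intro w₁ w₂ h1 h2
    have h3 := (S.fib (S.π w)).tri w rfl w₂ h2 w₁ h1
    have h4 := (S.fib (S.π w)).comm w₁ h1 w₂ h2
    linarith
  constructor
  · intro w₁ w₂ h12
    rw [S.dd_eq w w₁ (S.π w₂) h12, S.dd_eq w w₂ (S.π w₂) rfl]
    exact S.val_lip (S.δ w) hg hl _ w₁ w₂ h12 rfl
  · intro a b h x hx
    rcases S.path_cons a b (S.π w) h with hp | hp
    · exact S.glue_aux w a b h hp x hx
    · exact (S.glue_aux w b a h.symm hp x (by rw [S.Usymm]; exact hx)).symm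

end TS

end CZH
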