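import Pool.Agent.CZH.TotA

/-!
# CZH/TotB: `dd` is a pseudo-distance, equal to `δ` on the fibres

## Proofs
`dd_fib`: `dd_eq` with `b = π w`; the path from `π w` to itself is `nil` (`path_unique`), `val_nil` is `δ w`.
`dd_self`: `dd_fib` and `fib .self`.  `dd_nn`: `val_nonneg` (via `dd_eq`).
`dd_tri`: `dd_univ` with `f = dd w₁` (admissible by `adm_dd`), root `w₂`, at `w₃`.
`dd_comm`: `≤` by `dd_univ` with `f = - dd w` (also admissible: `lip` by exchanging the two points and
`fib .comm`), root `w'`, at `w`: `- dd w w - (- dd w w') ≤ dd w' w`; and by symmetry.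
`dd_glue`: `(adm_dd (s a x)).glue` : `dd (s a x) (s b x) = dd (s a x) (s a x) = 0`.
`dd_D`: `f w' = dist (D w) (D w')` is admissible (`Dlip`, triangle inequality; `Ds` for `a b` and for `b a`
with `Usymm`), `dd_univ` with root `w` : `dist (D w) (D w') - dist (D w) (D w) ≤ dd w w'`.
`dd_act`: if `f` is admissible then `w' ↦ f (h • w')` is admissible: `lip` by `πe`, `δe`; `glue`: for
`x ∈ U a b`: `f (h • s a x) = f (s (h•a) (h•x))` because `δ (h • s a x) (s (h•a) (h•x)) = 0` (`se`, same fibre
by `πe`, `πs`; `f` is `1`-Lipschitz), `= f (s (h•b) (h•x)) = f (h • s b x)` (`Ue`, `adj`, `Usymm`).  Apply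
`dd_univ` with `f' = (w' ↦ dd (h • w) (h • w'))` and root `w`: `dd (h•w) (h•w') ≤ dd w w'`; the other
inequality by applying this to `h⁻¹`.
-/

namespace CZH

universe u

open Set

namespace TS

variable {V W X : Type u} [MetricSpace X] (S : TS V W X)

theorem dd_fib (w w' : W) (h : S.π w = S.π w') : S.dd w w' = S.δ w w' := by
  rw [S.dd_eq w w' (S.π w) h.symm, ← S.path_unique (.nil : S.T.Walk (S.π w) (S.π w))
    SimpleGraph.Walk.IsPath.nil]
  rfl

theorem dd_self (w : W) : S.dd w w = 0 := by
  rw [S.dd_fib w w rfl]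
  exact (S.fib (S.π w)).self w rfl

theorem dd_nn (w w' : W) : 0 ≤ S.dd w w' :=
  S.val_nonneg (S.δ w) (fun w₁ h₁ => (S.fib (S.π w)).nn w rfl w₁ h₁) _ w' rfl

theorem dd_tri (w₁ w₂ w₃ : W) : S.dd w₁ w₃ ≤ S.dd w₁ w₂ + S.dd w₂ w₃ := by
  have := S.dd_univ (S.adm_dd w₁) w₂ w₃
  linarith

theorem dd_comm (w w' : W) : S.dd w w' = S.dd w' w := by
  have key : ∀ w w' : W, S.dd w w' ≤ S.dd w' w := by
    intro w w'
    have hadm : S.Adm (fun x => - S.dd w x) := by
      constructor
      · intro w₁ w₂ h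
        have h1 := (S.adm_dd w).lip w₂ w₁ h.symm
        have h2 : S.δ w₂ w₁ = S.δ w₁ w₂ := (S.fib (S.π w₂)).comm w₂ rfl w₁ h
        linarith
      · intro a b hab x hx
        have h1 := (S.adm_dd w).glue a b hab x hx
        change - S.dd w (S.s a x) = - S.dd w (S.s b x)
        rw [h1]
    have h1 := S.dd_univ hadm w' w
    rw [S.dd_self w] at h1
    linarith
  exact le_antisymm (key w w') (key w' w)

theorem dd_glue (a b : V) (h : S.T.Adj a b) (x : X) (hx : x ∈ S.U a b) :
    S.dd (S.s a x) (S.s b x) = 0 := by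
  rw [← (S.adm_dd (S.s a x)).glue a b h x hx, S.dd_self]

theorem dd_D (w w' : W) : dist (S.D w) (S.D w') ≤ S.dd w w' := by
  have hadm : S.Adm (fun x => dist (S.D w) (S.D x)) := by
    constructor
    · intro w₁ w₂ h
      have h1 := S.Dlip w₁ w₂ h
      have h2 := dist_triangle (S.D w) (S.D w₂) (S.D w₁)
      rw [dist_comm (S.D w₂)] at h2
      linarith
    · intro a b hab x hx
      change dist _ _ = dist _ _
      rw [S.Ds a b hab x hx, S.Ds b a hab.symm x (by rw [S.Usymm b a]; exact hx)]
  have h1 := S.dd_univ hadm w w'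
  simp only [dist_self, sub_zero] at h1
  exact h1

end TS

theorem TSA.dd_act {G H V W X : Type u} [Group G] [Group H] [MetricSpace X] [MulAction G X]
    [MulAction H V] [MulAction H W] {φ : H →* G} {S : TS V W X} (hS : TSA φ S) (h : H) (w w' : W) :
    S.dd (h • w) (h • w') = S.dd w w' := by
  have key : ∀ (h : H) (w w' : W), S.dd (h • w) (h • w') ≤ S.dd w w' := by
    intro h w w'
    have hadm : S.Adm (fun x => S.dd (h • w) (h • x)) := by
      have hz : ∀ {a b : V} {x : X}, S.T.Adj a b → x ∈ S.U a b →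
          S.dd (h • w) (h • S.s a x) = S.dd (h • w) (S.s (h • a) (φ h • x)) := by
        intro a b x hab hx
        have h0 := hS.se h a b x hab hx
        have hπ : S.π (h • S.s a x) = S.π (S.s (h • a) (φ h • x)) := by
          rw [hS.πe, S.πs, S.πs]
        have h1 := (S.adm_dd (h • w)).lip _ _ hπ
        have h2 := (S.adm_dd (h • w)).lip _ _ hπ.symm
        have h3 := (S.fib _).comm (h • S.s a x) hπ (S.s (h • a) (φ h • x)) rfl
        rw [h0] at h1 h3
        rw [← h3] at h2
        linarith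
      constructor
      · intro w₁ w₂ hπ
        have h1 := (S.adm_dd (h • w)).lip (h • w₁) (h • w₂) (by rw [hS.πe, hS.πe, hπ])
        rw [hS.δe h w₁ w₂ hπ] at h1
        exact h1
      · intro a b hab x hx
        change S.dd (h • w) (h • S.s a x) = S.dd (h • w) (h • S.s b x)
        rw [hz hab hx, hz hab.symm (by rw [S.Usymm b a]; exact hx)]
        exact (S.adm_dd (h • w)).glue _ _ (hS.adj h a b hab) _ (hS.Ue h a b x hab hx)
    have h1 := S.dd_univ hadm w w'
    rw [S.dd_self, sub_zero] at h1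
    exact h1
  refine le_antisymm (key h w w') ?_
  have := key h⁻¹ (h • w) (h • w')
  rwa [inv_smul_smul, inv_smul_smul] at this

end CZH
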