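import Pool.Agent.CZH.TotT
import Pool.Agent.CZH.Quot
import Pool.Agent.CZH.Glue
import Pool.Agent.CZH.Grow

/-!
# CZH/TotC0: a tree of CAT(0) spaces glued along convex sets is CAT(0)

## Proof
`exists_quot₀` for `dd` gives a metric space `Q` and `q : W → Q` surjective with `dist (q w) (q w') = dd w w'`.
Claim: for every grown set `S'` of vertices, `A S' := q '' {w | π w ∈ S'}` satisfies `C0 (dst Q)`.  Induction on
`Grow`: `{a}`: `C0.image` from `fib a` and `dd_fib`.  Adding `b ∼ c`, `c ∈ S'`, `b ∉ S'`: `C0_glue` with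
`A = A S'`, `B = A {b}`, `C = (fun x => q (s c x)) '' U b c`: `C ⊆ A`, `C ⊆ B` since `q (s c x) = q (s b x)`
(`dd_glue`); `hC`: `Ucv` and `iso` (`dist (q (s c x)) (q (s c y)) = dd = δ (s c x) (s c y) = dist x y`); `hcr`:
for `w` over `S'` and `w'` over `b`: `Grow.path` and `dd_through`: `dd w w' = dd w (s c x) + dd (s b x) w'`.
`A (insert b S') = A S' ∪ A {b}`.
Finally `C0 dd univ`: every property involves at most four points, which are over a grown set
(`Grow.exists_four`), use the property of `A S'` (for `geo` the point found is `q m` for some `m`).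
-/

namespace CZH

universe u

open Set

theorem TS.C0_grow {V W X Q : Type u} [MetricSpace X] [ProperSpace X] [MetricSpace Q]
    (S : TS V W X) (q : W → Q) (hq : ∀ w w', dist (q w) (q w') = S.dd w w') {S' : Set V}
    (h : Grow S.T S') : C0 (dst Q) (q '' {w | S.π w ∈ S'}) := by
  have hfib : ∀ a : V, C0 (dst Q) (q '' {w | S.π w = a}) := by
    intro a
    refine C0.image q ?_ (S.fib a)
    intro w hw w' hw'
    show dist (q w) (q w') = S.δ w w'
    rw [hq]
    exact S.dd_fib w w' ((show S.π w = a from hw).trans (show S.π w' = a from hw').symm)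
  induction h with
  | single a =>
    have : {w | S.π w ∈ ({a} : Set V)} = {w | S.π w = a} := by
      ext w; simp
    rw [this]
    exact hfib a
  | add S' c b hg hc hb hbc ih =>
    have hunion : q '' {w | S.π w ∈ insert b S'} =
        q '' {w | S.π w ∈ S'} ∪ q '' {w | S.π w = b} := by
      rw [← Set.image_union]
      congr 1
      ext w
      simp only [Set.mem_setOf_eq, Set.mem_insert_iff, Set.mem_union]
      exact or_comm
    rw [hunion]
    have hsame : ∀ x ∈ S.U b c, q (S.s c x) = q (S.s b x) := by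
      intro x hx
      rw [← dist_eq_zero, hq, S.dd_comm]
      exact S.dd_glue b c hbc x hx
    have hdist : ∀ x ∈ S.U b c, ∀ y ∈ S.U b c,
        dist (q (S.s c x)) (q (S.s c y)) = dist x y := by
      intro x hx y hy
      rw [hq, S.dd_fib _ _ (by rw [S.πs, S.πs])]
      exact S.iso c b hbc.symm x (by rw [S.Usymm c b]; exact hx) y
        (by rw [S.Usymm c b]; exact hy)
    refine C0_glue (C := (fun x => q (S.s c x)) '' S.U b c) ih (hfib b) ?_ ?_ ?_ ?_
    · rintro _ ⟨x, hx, rfl⟩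
      exact ⟨S.s c x, by show S.π (S.s c x) ∈ S'; rw [S.πs]; exact hc, rfl⟩
    · rintro _ ⟨x, hx, rfl⟩
      exact ⟨S.s b x, S.πs b x, (hsame x hx).symm⟩
    · rintro _ ⟨x, hx, rfl⟩ _ ⟨y, hy, rfl⟩ t ht0 ht1
      obtain ⟨m, hm, h1, h2⟩ := S.Ucv b c hbc x hx y hy t ht0 ht1
      refine ⟨_, ⟨m, hm, rfl⟩, ?_, ?_⟩
      · show dist (q (S.s c x)) (q (S.s c m)) = t * dist (q (S.s c x)) (q (S.s c y))
        rw [hdist x hx m hm, hdist x hx y hy]
        exact h1
      · show dist (q (S.s c m)) (q (S.s c y)) = (1 - t) * dist (q (S.s c x)) (q (S.s c y))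
        rw [hdist m hm y hy, hdist x hx y hy]
        exact h2
    · rintro _ ⟨w, hw, rfl⟩ _ ⟨w', hw', rfl⟩
      obtain ⟨p, hp⟩ := hg.path (a := S.π w) hw hc hb hbc
      obtain ⟨x, hx, hdd⟩ := S.dd_through w w' b c hbc hw' p hp
      refine ⟨_, ⟨x, hx, rfl⟩, ?_⟩
      show dist (q w) (q w') = dist (q w) (q (S.s c x)) + dist (q (S.s c x)) (q w')
      rw [hq w w', hq w (S.s c x), hsame x hx, hq (S.s b x) w']
      exact hdd

theorem TS.C0_dd {V W X : Type u} [MetricSpace X] [ProperSpace X] (S : TS V W X) :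
    C0 S.dd univ := by
  obtain ⟨Q, _, q, -, hq⟩ := exists_quot₀ S.dd S.dd_self S.dd_nn S.dd_comm S.dd_tri
  refine ⟨fun x _ => S.dd_self x, fun x _ y _ => S.dd_nn x y, fun x _ y _ => S.dd_comm x y,
    fun x _ y _ z _ => S.dd_tri x y z, ?_, ?_⟩
  · intro x _ y _ t ht0 ht1
    obtain ⟨S', hg, h1, h2, -, -⟩ := Grow.exists_four S.tree.1 (S.π x) (S.π y) (S.π x) (S.π x)
    obtain ⟨_, ⟨m, -, rfl⟩, h3, h4⟩ := (S.C0_grow q hq hg).geo (q x) ⟨x, h1, rfl⟩ (q y)
      ⟨y, h2, rfl⟩ t ht0 ht1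
    refine ⟨m, mem_univ _, ?_, ?_⟩
    · have h3' : dist (q x) (q m) = t * dist (q x) (q y) := h3
      rwa [hq, hq] at h3'
    · have h4' : dist (q m) (q y) = (1 - t) * dist (q x) (q y) := h4
      rwa [hq, hq] at h4'
  · intro p _ x _ y _ m _ t ht0 ht1 hm
    obtain ⟨S', hg, h1, h2, h3, h4⟩ := Grow.exists_four S.tree.1 (S.π p) (S.π x) (S.π y) (S.π m)
    have h5 := (S.C0_grow q hq hg).cmp (q p) ⟨p, h1, rfl⟩ (q x) ⟨x, h2, rfl⟩ (q y) ⟨y, h3, rfl⟩
      (q m) ⟨m, h4, rfl⟩ t ht0 ht1 ⟨by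
        show dist (q x) (q m) = t * dist (q x) (q y)
        rw [hq, hq]; exact hm.1, by
        show dist (q m) (q y) = (1 - t) * dist (q x) (q y)
        rw [hq, hq]; exact hm.2⟩
    have h5' : dist (q p) (q m) ^ 2 ≤ (1 - t) * dist (q p) (q x) ^ 2 + t * dist (q p) (q y) ^ 2 -
      t * (1 - t) * dist (q x) (q y) ^ 2 := h5
    rwa [hq, hq, hq, hq] at h5'

end CZH
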