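import Pool.Agent.CZH.TotB

/-!
# CZH/TotT: the distance through an edge is attained

## Proof
`dd_inf`: with `π w' = b`, path from `b` to `π w` starting with `c`: `dd w w' = ⨅ x : U b c, dd w (s c x) +
δ (s b x) w'` (`dd_eq` twice, `path_unique`).
`dd_through`: let `g x = dd w (s c x) + δ (s b x) w'` on `U b c`.  `g` is `2`-Lipschitz on `U b c`:
`|dd w (s c x) - dd w (s c y)| ≤ δ (s c x) (s c y) = dist x y` (`adm_dd`, `iso`; `Usymm`),
`|δ (s b x) w' - δ (s b y) w'| ≤ dist x y`.  It is coercive: `g x ≥ δ (s b x) w' ≥ dist (D (s b x)) (D w') =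
dist x (D w')`.  `U b c` is closed and nonempty, `X` is proper, so `g` attains its infimum on `U b c`
(e.g. on the compact set `U b c ∩ closedBall (D w') (g x₀)` with `x₀ ∈ U b c`; outside of it `g > g x₀`).
Finally `δ (s b x) w' = dd (s b x) w'` (`dd_fib`).
-/

namespace CZH

universe u

open Set

namespace TS

variable {V W X : Type u} [MetricSpace X] (S : TS V W X)

theorem dd_inf (w w' : W) (b c : V) (hbc : S.T.Adj b c) (hw' : S.π w' = b)
    (p : S.T.Walk c (S.π w)) (hp : (SimpleGraph.Walk.cons hbc p).IsPath) :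
    S.dd w w' = ⨅ x : S.U b c, (S.dd w (S.s c x) + S.δ (S.s b x) w') := by
  rw [S.dd_eq w w' b hw', ← S.path_unique _ hp]
  have hp' : p.IsPath := ((SimpleGraph.Walk.cons_isPath_iff hbc p).1 hp).1
  show (⨅ x : S.U b c, (S.val (S.δ w) p (S.s c x) + S.δ (S.s b x) w')) = _
  have h : (fun x : S.U b c => S.val (S.δ w) p (S.s c x) + S.δ (S.s b x) w') =
      fun x : S.U b c => S.dd w (S.s c x) + S.δ (S.s b x) w' := by
    funext x
    rw [S.dd_eq w (S.s c x) c (S.πs c x), ← S.path_unique _ hp']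
  exact congrArg iInf h

theorem dd_through [ProperSpace X] (w w' : W) (b c : V) (hbc : S.T.Adj b c) (hw' : S.π w' = b)
    (p : S.T.Walk c (S.π w)) (hp : (SimpleGraph.Walk.cons hbc p).IsPath) :
    ∃ x ∈ S.U b c, S.dd w w' = S.dd w (S.s c x) + S.dd (S.s b x) w' := by
  have hne : Nonempty (S.U b c) := (S.Une b c hbc).to_subtype
  obtain ⟨g, hg⟩ : ∃ g : X → ℝ, g = fun x => S.dd w (S.s c x) + S.δ (S.s b x) w' := ⟨_, rfl⟩
  have hg' : ∀ x, g x = S.dd w (S.s c x) + S.δ (S.s b x) w' := fun x => by rw [hg]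
  have hlip : ∀ x ∈ S.U b c, ∀ y ∈ S.U b c, g x - g y ≤ 2 * dist x y := by
    intro x hx y hy
    have h1 := (S.adm_dd w).lip (S.s c x) (S.s c y) (by rw [S.πs, S.πs])
    rw [S.iso c b hbc.symm x (by rw [S.Usymm c b]; exact hx) y
      (by rw [S.Usymm c b]; exact hy)] at h1
    have h2 := (S.fib b).tri (S.s b x) (S.πs b x) (S.s b y) (S.πs b y) w' hw'
    rw [S.iso b c hbc x hx y hy] at h2
    rw [hg', hg']
    linarith
  have hlow : ∀ x ∈ S.U b c, dist x (S.D w') ≤ g x := by
    intro x hx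
    have h1 := S.Dlip (S.s b x) w' ((S.πs b x).trans hw'.symm)
    rw [S.Ds b c hbc x hx] at h1
    have h2 := S.dd_nn w (S.s c x)
    rw [hg']
    linarith
  have hcont : ContinuousOn g (S.U b c) := by
    have h1 : LipschitzOnWith 2 g (S.U b c) := by
      refine LipschitzOnWith.of_dist_le_mul fun x hx y hy => ?_
      rw [Real.dist_eq, abs_le]
      have h2 := hlip x hx y hy
      have h3 := hlip y hy x hx
      rw [dist_comm y x] at h3
      push_cast
      constructor <;> linarith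
    exact h1.continuousOn
  obtain ⟨x0, hx0⟩ := S.Une b c hbc
  have hK : IsCompact (S.U b c ∩ Metric.closedBall (S.D w') (g x0)) :=
    (isCompact_closedBall _ _).inter_left (S.Ucl b c hbc)
  have hx0K : x0 ∈ S.U b c ∩ Metric.closedBall (S.D w') (g x0) :=
    ⟨hx0, Metric.mem_closedBall.2 (hlow x0 hx0)⟩
  obtain ⟨x, hx, hmin⟩ := hK.exists_isMinOn ⟨x0, hx0K⟩ (hcont.mono Set.inter_subset_left)
  have hmin' : ∀ y ∈ S.U b c, g x ≤ g y := by
    intro y hy
    by_cases h : y ∈ Metric.closedBall (S.D w') (g x0)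
    · exact hmin ⟨hy, h⟩
    · rw [Metric.mem_closedBall, not_le] at h
      exact (hmin hx0K).trans (h.le.trans (hlow y hy))
  refine ⟨x, hx.1, ?_⟩
  rw [S.dd_inf w w' b c hbc hw' p hp]
  have h1 : (⨅ y : S.U b c, (S.dd w (S.s c y) + S.δ (S.s b y) w')) = g x := by
    apply le_antisymm
    · have hb : BddBelow (range fun y : S.U b c => S.dd w (S.s c y) + S.δ (S.s b y) w') := by
        refine ⟨g x, ?_⟩
        rintro _ ⟨y, rfl⟩
        have := hmin' y y.2
        rw [hg' y] at this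
        exact this
      exact (ciInf_le hb ⟨x, hx.1⟩).trans (hg' x).ge
    · refine le_ciInf fun y => ?_
      have := hmin' y y.2
      rw [hg' y] at this
      exact this
  rw [h1, hg', S.dd_fib (S.s b x) w' ((S.πs b x).trans hw'.symm)]

end TS

end CZH
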